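import Pool.Agent.H936.G.Fact
import Pool.Agent.H936.SL.Cor3

/-!
# The algebraic part of the core theorems
-/

set_option autoImplicit false
set_option linter.unusedSectionVars false
set_option linter.unusedVariables false

open Matrix Module

namespace Pool.Agent.H936.G

open Pool.Agent.Helper880_LF
open Pool.Agent.Helper880_LF.NB (rank_le)
open Pool.Agent.Helper880_R3 (Ix ib ib_apply ib_inj ib_mul Tot)
open Pool.Agent.H936.SL

variable {F : Type} [Field F] {n r₀ N m : ℕ} {J : Matrix (Fin n) (Fin n) F} {𝒟 : Type} [AddCommGroup 𝒟] [Module F 𝒟]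

/-- the logarithmic derivatives -/
structure Dr (J : Mn n F) (r₀ N : ℕ) (𝒟 : Type) [AddCommGroup 𝒟] [Module F 𝒟] where
  X : Fin N → 𝒟 →ₗ[F] Mn n F
  Fc : 𝒟 →ₗ[F] Mn n F
  F₀ : 𝒟 →ₗ[F] Matrix (Fin r₀) (Fin r₀) F
  mem : ∀ i d, X i d ∈ spS J
  gs : ∀ d, GS J (Fc d)
  surj : ∀ i, ∀ Y ∈ spS J, ∃ d, X i d = Y ∧ ∀ j, j ≠ i → X j d = 0

/-- the Lie algebra of a torsor through some of the points -/
structure Nm (D : Dr J r₀ N 𝒟) (e : Fin m → Fin N) (L : Submodule F (Matrix (Ix r₀ n m) (Ix r₀ n m) F)) : Prop where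
  inj : Function.Injective e
  br : ∀ x ∈ L, ∀ y ∈ L, x * y - y * x ∈ L
  nrm : ∀ d, ∀ w ∈ L, Tot (D.F₀ d) (fun j => D.Fc d + D.X (e j) d) * w -
    w * Tot (D.F₀ d) (fun j => D.Fc d + D.X (e j) d) ∈ L
  tn : ∀ j, TN (Pj J L j)
  ne : ∀ j, Pj J L j ≠ ⊥

section
variable {D : Dr J r₀ N 𝒟} {e : Fin m → Fin N} {L : Submodule F (Matrix (Ix r₀ n m) (Ix r₀ n m) F)}

theorem Nm.pj (h : Nm D e L) (hJ : Jᵀ = -J) {d : 𝒟} {c : F} (hc : D.Fc d + c • (1 : Mn n F) ∈ spS J) (j : Fin m) :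
    ∀ Y ∈ Pj J L j, (D.X (e j) d + (D.Fc d + c • (1 : Mn n F))) * Y - Y * (D.X (e j) d + (D.Fc d + c • (1 : Mn n F))) ∈
      Pj J L j := by
  refine Pj_nrm hJ (fun i => (D.gs d).add (GS.of (D.mem (e i) d))) (h.nrm d) (c := -c) ((spS J).add_mem (D.mem _ _) hc) ?_
  module

/-- the projections of one torsor -/
theorem Nm.full (h : Nm D e L) (hJ : Jᵀ = -J) {𝔉 : Submodule F (Mn n F)} (h𝔉 : 𝔉 ≤ spS J)
    (hF : ∀ d, ∃ c : F, D.Fc d + c • (1 : Mn n F) ∈ 𝔉)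
    (good : ∀ 𝔩 : Submodule F (Mn n F), 𝔩 ≤ spS J → TN 𝔩 → (∀ X ∈ spS J, ∃ Z B, X = Z + B ∧ Z ∈ spS J ∧ B ∈ 𝔉 ∧
      ∀ Y ∈ 𝔩, Z * Y - Y * Z ∈ 𝔩) → 𝔩 = ⊥ ∨ 𝔩 = spS J) (j : Fin m) : Pj J L j = spS J := by
  refine (good _ Pj_le (h.tn j) fun X hX => ?_).resolve_left (h.ne j)
  obtain ⟨d, h1, h2⟩ := D.surj (e j) X hX
  obtain ⟨c, hc⟩ := hF d
  refine ⟨X + (D.Fc d + c • (1 : Mn n F)), -(D.Fc d + c • (1 : Mn n F)), by abel, (spS J).add_mem hX (h𝔉 hc),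
    𝔉.neg_mem hc, ?_⟩
  have h3 := h.pj hJ (h𝔉 hc) j
  rw [h1] at h3
  exact h3

/-- the last step -/
theorem Nm.last [CharZero F] (h : Nm D e L) (hJ : Jᵀ = -J) (hdet : IsUnit J.det) {j : Fin m} (hfull : Pj J L j = spS J)
    {d : 𝒟} {z : F} (h0 : D.F₀ d = z • 1) (hc : D.Fc d = z • 1) (h1 : D.X (e j) d ≠ 0) (h2 : ∀ i, i ≠ j → D.X (e i) d = 0) :
    ∀ Y ∈ spS J, ib (r₀ := r₀) j Y ∈ L := by
  refine link hJ hdet h.br hfull.ge (D.mem _ _) h1 fun w hw => ?_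
  have h3 := h.nrm d w hw
  have h6 : Tot (D.F₀ d) (fun i => D.Fc d + D.X (e i) d) =
      z • (1 : Matrix (Ix r₀ n m) (Ix r₀ n m) F) + ib j (D.X (e j) d) := by
    rw [h0, hc, ib_Tot, ← Tot_one', Tot_smul, Tot_add, add_zero]
    congr 1
    funext i
    by_cases hi : i = j
    · subst hi
      rw [Pi.single_eq_same]
    · rw [Pi.single_eq_of_ne hi, h2 i hi]
  rw [h6, Matrix.add_mul, Matrix.mul_add, Matrix.smul_mul, Matrix.mul_smul, Matrix.one_mul, Matrix.mul_one,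
    add_sub_add_left_eq_sub] at h3
  exact h3

/-- counting on one point -/
theorem Dr.ker_one (D : Dr J r₀ N 𝒟) {V : Type} [AddCommGroup V] [Module F V] [FiniteDimensional F V] (Φ : 𝒟 →ₗ[F] V)
    (hV : finrank F V < finrank F (spS J)) (i : Fin N) : ∃ d, Φ d = 0 ∧ D.X i d ≠ 0 ∧ ∀ j, j ≠ i → D.X j d = 0 := by
  let 𝒬 : Submodule F 𝒟 := ⨅ j : {j : Fin N // j ≠ i}, LinearMap.ker (D.X j.1)
  have hQ : ∀ d, d ∈ 𝒬 ↔ ∀ j, j ≠ i → D.X j d = 0 := by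
    intro d
    simp [𝒬, Submodule.mem_iInf]
  by_contra hcon
  push Not at hcon
  have h1 : LinearMap.ker (Φ ∘ₗ 𝒬.subtype) ≤ LinearMap.ker (D.X i ∘ₗ 𝒬.subtype) := by
    rintro ⟨d, hd⟩ h
    by_contra h2
    obtain ⟨j, hj, hj'⟩ := hcon d h h2
    exact hj' ((hQ d).1 hd j hj)
  obtain ⟨h2, h3⟩ := rank_le _ _ h1
  have h4 : spS J ≤ LinearMap.range (D.X i ∘ₗ 𝒬.subtype) := by
    intro Y hY
    obtain ⟨d, e1, e2⟩ := D.surj i Y hY
    exact ⟨⟨d, (hQ d).2 e2⟩, e1⟩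
  exact absurd ((Submodule.finrank_mono h4).trans h3) (not_le.2 hV)

/-- **The first core theorem**: the logarithmic derivatives of the constants are in a small subalgebra. -/
theorem Nm.core1 [CharZero F] (h : Nm D e L) (hJ : Jᵀ = -J) (hdet : IsUnit J.det)
    {𝔉 : Submodule F (Mn n F)} (h𝔉 : 𝔉 ≤ spS J)
    (hF : ∀ d, ∃ c : F, D.Fc d + c • (1 : Mn n F) ∈ 𝔉)
    (good : ∀ 𝔩 : Submodule F (Mn n F), 𝔩 ≤ spS J → TN 𝔩 → (∀ X ∈ spS J, ∃ Z B, X = Z + B ∧ Z ∈ spS J ∧ B ∈ 𝔉 ∧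
      ∀ Y ∈ 𝔩, Z * Y - Y * Z ∈ 𝔩) → 𝔩 = ⊥ ∨ 𝔩 = spS J)
    {V : Type} [AddCommGroup V] [Module F V] [FiniteDimensional F V] (Φ : 𝒟 →ₗ[F] V)
    (hV : finrank F V < finrank F (spS J)) (hΦ : ∀ d, Φ d = 0 → ∃ z : F, D.F₀ d = z • 1 ∧ D.Fc d = z • 1) (j : Fin m) :
    ∀ Y ∈ spS J, ib (r₀ := r₀) j Y ∈ L := by
  obtain ⟨d, h1, h2, h3⟩ := D.ker_one Φ hV (e j)
  obtain ⟨z, h4, h5⟩ := hΦ d h1
  exact h.last hJ hdet (h.full hJ h𝔉 hF good j) h4 h5 h2 fun i hi => h3 _ fun h' => hi (h.inj h')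

end

/-! ### normalisers -/

/-- the normaliser -/
def nrmS (J : Mn n F) (𝔩 : Submodule F (Mn n F)) : Submodule F (Mn n F) where
  carrier := {Z | Z ∈ spS J ∧ ∀ Y ∈ 𝔩, Z * Y - Y * Z ∈ 𝔩}
  zero_mem' := ⟨(spS J).zero_mem, fun Y hY => by rw [Matrix.zero_mul, Matrix.mul_zero, sub_zero]; exact 𝔩.zero_mem⟩
  add_mem' := by
    rintro a b ⟨h1, h2⟩ ⟨h3, h4⟩
    refine ⟨(spS J).add_mem h1 h3, fun Y hY => ?_⟩
    have h5 : (a + b) * Y - Y * (a + b) = (a * Y - Y * a) + (b * Y - Y * b) := by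
      rw [Matrix.add_mul, Matrix.mul_add]
      abel
    rw [h5]
    exact 𝔩.add_mem (h2 Y hY) (h4 Y hY)
  smul_mem' := by
    rintro c a ⟨h1, h2⟩
    refine ⟨(spS J).smul_mem c h1, fun Y hY => ?_⟩
    rw [Matrix.smul_mul, Matrix.mul_smul, ← smul_sub]
    exact 𝔩.smul_mem c (h2 Y hY)

theorem mem_nrmS {𝔩 : Submodule F (Mn n F)} {Z : Mn n F} : Z ∈ nrmS J 𝔩 ↔ Z ∈ spS J ∧ ∀ Y ∈ 𝔩, Z * Y - Y * Z ∈ 𝔩 := Iff.rfl

theorem nrmS_br (hJ : Jᵀ = -J) {𝔩 : Submodule F (Mn n F)} : ∀ x ∈ nrmS J 𝔩, ∀ y ∈ nrmS J 𝔩, x * y - y * x ∈ nrmS J 𝔩 := by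
  rintro x ⟨h1, h2⟩ y ⟨h3, h4⟩
  refine ⟨comm_mem hJ h1 h3, fun Y hY => ?_⟩
  have h5 : (x * y - y * x) * Y - Y * (x * y - y * x) = (x * (y * Y - Y * y) - (y * Y - Y * y) * x) -
      (y * (x * Y - Y * x) - (x * Y - Y * x) * y) := by
    noncomm_ring
  rw [h5]
  exact 𝔩.sub_mem (h2 _ (h4 Y hY)) (h4 _ (h2 Y hY))

/-- the normaliser of a proper subspace with a nondegenerate trace form is small -/
theorem nrmS_dim [CharZero F] [IsAlgClosed F] (hJ : Jᵀ = -J) (hdet : IsUnit J.det) (hn : 2 ≤ n) {𝔩 : Submodule F (Mn n F)}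
    (hle : 𝔩 ≤ spS J) (h0 : 𝔩 ≠ ⊥) (h1 : 𝔩 ≠ spS J) : finrank F (nrmS J 𝔩) + (n - 1) ≤ finrank F (spS J) := by
  by_contra hcon
  have hc : finrank F (spS J) ≤ finrank F (nrmS J 𝔩) + (n - 2) := by
    have h9 : finrank F (spS J) < finrank F (nrmS J 𝔩) + (n - 1) := not_le.1 hcon
    omega
  have h2 : spS J ≤ nrmS J 𝔩 := lie_full hJ hdet (fun x hx => hx.1) (nrmS_br hJ) hc hn
  obtain ⟨a, ha, ha0⟩ := Submodule.exists_mem_ne_zero_of_ne_bot h0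
  have h3 : spS J ≤ 𝔩 := simple hJ hdet (fun x hx y hy => (h2 hx).2 y hy) ha (hle ha) ha0
  exact h1 (le_antisymm hle h3)

/-! ### two torsors -/

section
variable {m' : ℕ} {D : Dr J r₀ N 𝒟} {e : Fin m → Fin N} {L : Submodule F (Matrix (Ix r₀ n m) (Ix r₀ n m) F)}
    {e' : Fin m' → Fin N} {L' : Submodule F (Matrix (Ix r₀ n m') (Ix r₀ n m') F)}

/-- **two torsors through different points** -/
theorem Nm.two [CharZero F] [IsAlgClosed F] (h : Nm D e L) (h' : Nm D e' L') (hJ : Jᵀ = -J) (hdet : IsUnit J.det)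
    (hn : 3 ≤ n) {j : Fin m} {j' : Fin m'} (hjj : e j ≠ e' j') : Pj J L j = spS J ∨ Pj J L' j' = spS J := by
  have hdec : ∀ X ∈ spS J, ∃ Z B, X = Z + B ∧ Z ∈ spS J ∧ B ∈ spS J ∧ (∀ Y ∈ Pj J L j, Z * Y - Y * Z ∈ Pj J L j) ∧
      ∀ Y ∈ Pj J L' j', B * Y - Y * B ∈ Pj J L' j' := by
    intro X hX
    obtain ⟨d, h1, h2⟩ := D.surj (e j) X hX
    obtain ⟨c, hc⟩ := D.gs d
    refine ⟨X + (D.Fc d + c • (1 : Mn n F)), -(D.Fc d + c • (1 : Mn n F)), by abel, (spS J).add_mem hX hc,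
      (spS J).neg_mem hc, ?_, fun Y hY => ?_⟩
    · have h3 := h.pj hJ hc j
      rw [h1] at h3
      exact h3
    · have h3 := h'.pj hJ hc j' Y hY
      rw [h2 _ (Ne.symm hjj), zero_add] at h3
      have h4 := (Pj J L' j').neg_mem h3
      have h5 : -(D.Fc d + c • (1 : Mn n F)) * Y - Y * -(D.Fc d + c • (1 : Mn n F)) =
          -((D.Fc d + c • (1 : Mn n F)) * Y - Y * (D.Fc d + c • (1 : Mn n F))) := by
        rw [Matrix.neg_mul, Matrix.mul_neg]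
        abel
      rw [h5]
      exact h4
  rcases thmE hJ hdet hn (h.tn j) Pj_le (h'.tn j') Pj_le hdec with (h1 | h1) | (h1 | h1)
  · exact absurd h1 (h.ne j)
  · exact Or.inl h1
  · exact absurd h1 (h'.ne j')
  · exact Or.inr h1

end

/-- counting on two points -/
theorem Dr.ker_two (D : Dr J r₀ N 𝒟) {V : Type} [AddCommGroup V] [Module F V] [FiniteDimensional F V] (Φ : 𝒟 →ₗ[F] V)
    {i i' : Fin N} (hii : i ≠ i') {𝔫 : Submodule F (Mn n F)}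
    (hV : finrank F V + finrank F 𝔫 < 2 * finrank F (spS J)) : ∃ d, Φ d = 0 ∧ (∀ j, j ≠ i → j ≠ i' → D.X j d = 0) ∧
      ¬ (D.X i d ∈ 𝔫 ∧ D.X i' d = 0) := by
  let 𝒬 : Submodule F 𝒟 := ⨅ j : {j : Fin N // j ≠ i ∧ j ≠ i'}, LinearMap.ker (D.X j.1)
  have hQ : ∀ d, d ∈ 𝒬 ↔ ∀ j, j ≠ i → j ≠ i' → D.X j d = 0 := by
    intro d
    simp [𝒬, Submodule.mem_iInf]
  by_contra hcon
  push Not at hcon
  obtain ⟨W, hW⟩ := Submodule.exists_isCompl 𝔫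
  let π : Mn n F →ₗ[F] 𝔫 := 𝔫.projectionOnto W hW
  have hπ : ∀ x ∈ 𝔫, ((π x : 𝔫) : Mn n F) = x := fun x hx => by
    have := Submodule.projectionOnto_apply_left hW ⟨x, hx⟩
    exact congrArg Subtype.val this
  let R : 𝒬 →ₗ[F] V × 𝔫 := (Φ ∘ₗ 𝒬.subtype).prod (π ∘ₗ D.X i ∘ₗ 𝒬.subtype)
  let E : 𝒬 →ₗ[F] Mn n F × Mn n F := (D.X i ∘ₗ 𝒬.subtype).prod (D.X i' ∘ₗ 𝒬.subtype)
  have h1 : LinearMap.ker R ≤ LinearMap.ker E := by
    rintro ⟨d, hd⟩ h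
    have h2 : Φ d = 0 := congrArg Prod.fst h
    have h3 : π (D.X i d) = 0 := congrArg Prod.snd h
    obtain ⟨h4, h5⟩ := hcon d h2 ((hQ d).1 hd)
    have h6 : D.X i d = 0 := by
      rw [← hπ _ h4, h3]
      rfl
    exact Prod.ext h6 h5
  obtain ⟨h2, h3⟩ := rank_le _ _ h1
  have h4 : LinearMap.range ((spS J).subtype.prodMap (spS J).subtype) ≤ LinearMap.range E := by
    rintro _ ⟨⟨⟨Y, hY⟩, ⟨Y', hY'⟩⟩, rfl⟩
    obtain ⟨d, e1, e2⟩ := D.surj i Y hY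
    obtain ⟨d', e1', e2'⟩ := D.surj i' Y' hY'
    refine ⟨⟨d + d', (hQ _).2 fun j hj hj' => ?_⟩, Prod.ext ?_ ?_⟩
    · rw [map_add, e2 j hj, e2' j hj', add_zero]
    · show D.X i (d + d') = Y
      rw [map_add, e1, e2' i hii, add_zero]
    · show D.X i' (d + d') = Y'
      rw [map_add, e2 i' (Ne.symm hii), e1', zero_add]
  have h5 := (Submodule.finrank_mono h4).trans h3
  have h6 : Function.Injective ((spS J).subtype.prodMap (spS J).subtype) :=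
    Function.Injective.prodMap (spS J).injective_subtype (spS J).injective_subtype
  rw [Module.finrank_prod, LinearMap.finrank_range_of_inj h6, Module.finrank_prod] at h5
  omega

/-- **The second core theorem**: all bad torsors have a common point. -/
theorem core2 [CharZero F] [IsAlgClosed F] (hJ : Jᵀ = -J) (hdet : IsUnit J.det) (hn : 3 ≤ n) (D : Dr J r₀ N 𝒟)
    {V : Type} [AddCommGroup V] [Module F V] [FiniteDimensional F V] (Φ : 𝒟 →ₗ[F] V)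
    (hV : finrank F V < finrank F (spS J) + (n - 1)) (hΦ : ∀ d, Φ d = 0 → ∃ z : F, D.F₀ d = z • 1 ∧ D.Fc d = z • 1)
    {ι : Type} (x₀ : ι) {e : ι → Fin m → Fin N} {L : ι → Submodule F (Matrix (Ix r₀ n m) (Ix r₀ n m) F)}
    (hL : ∀ x, Nm D (e x) (L x)) (hbad : ∀ x, ¬ ∀ j, ∀ Y ∈ spS J, ib (r₀ := r₀) j Y ∈ L x) :
    ∃ p, ∀ x, ∃ j, e x j = p := by
  push Not at hbad
  choose b Yb hYb hYb' using hbad
  -- the last step for derivations in the kernel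
  have hlast : ∀ x d, Pj J (L x) (b x) = spS J → Φ d = 0 →
      (∀ i, i ≠ b x → D.X (e x i) d = 0) → D.X (e x (b x)) d = 0 := by
    intro x d h1 h2 h3
    by_contra h4
    obtain ⟨z, h5, h6⟩ := hΦ d h2
    exact hYb' x ((hL x).last hJ hdet h1 h5 h6 h4 h3 _ (hYb x))
  by_cases hI : ∃ x j, Pj J (L x) j ≠ spS J
  · obtain ⟨y, j, hj⟩ := hI
    refine ⟨e y j, fun x => ?_⟩
    by_contra hx
    push Not at hx
    set i := e y j with hi
    set i' := e x (b x) with hi'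
    have hii : i' ≠ i := hx _
    have hfull : Pj J (L x) (b x) = spS J := ((hL y).two (hL x) hJ hdet hn (Ne.symm hii)).resolve_left hj
    set 𝔫 := nrmS J (Pj J (L y) j) with h𝔫
    have hdim : finrank F 𝔫 + (n - 1) ≤ finrank F (spS J) := nrmS_dim hJ hdet (by omega) Pj_le ((hL y).ne j) hj
    obtain ⟨d, h1, h2, h3⟩ := D.ker_two Φ (Ne.symm hii) (𝔫 := 𝔫) (by omega)
    obtain ⟨z, h4, h5⟩ := hΦ d h1
    have h6 : D.X i d ∈ 𝔫 := by
      refine ⟨D.mem _ _, fun Y hY => ?_⟩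
      have h7 : D.Fc d + (-z) • (1 : Mn n F) ∈ spS J := by
        rw [h5, neg_smul, add_neg_cancel]
        exact (spS J).zero_mem
      have h8 := (hL y).pj hJ h7 j Y hY
      rw [h5, neg_smul, add_neg_cancel, add_zero] at h8
      exact h8
    exact h3 ⟨h6, hlast x d hfull h1 fun l hl => h2 _ (hx l) fun h8 => hl ((hL x).inj h8)⟩
  · push Not at hI
    refine ⟨e x₀ (b x₀), fun x => ?_⟩
    by_contra hx
    push Not at hx
    set i := e x₀ (b x₀) with hi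
    set i' := e x (b x) with hi'
    have hii : i' ≠ i := hx _
    obtain ⟨d, h1, h2, h3⟩ := D.ker_two Φ (Ne.symm hii) (𝔫 := (⊥ : Submodule F (Mn n F))) (by
      rw [finrank_bot, add_zero]
      have h10 : n - 1 ≤ finrank F (spS J) := by
        by_contra hcon
        have h11 : spS J ≤ (⊥ : Submodule F (Mn n F)) := lie_full hJ hdet bot_le (by
          intro x hx y hy
          rw [Submodule.mem_bot] at hx hy ⊢
          rw [hx, Matrix.zero_mul, Matrix.mul_zero, sub_zero]) (by rw [finrank_bot]; omega) (by omega)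
        have h12 : spS J = ⊥ := le_bot_iff.1 h11
        exact (hL x₀).ne (b x₀) (le_bot_iff.1 (Pj_le.trans h12.le))
      omega)
    have h4 : D.X i' d = 0 := hlast x d (hI x (b x)) h1 fun l hl => h2 _ (hx l) fun h8 => hl ((hL x).inj h8)
    have h5 : D.X i d = 0 := by
      refine hlast x₀ d (hI x₀ (b x₀)) h1 fun l hl => ?_
      by_cases h8 : e x₀ l = i'
      · rw [h8, h4]
      · exact h2 _ (fun h9 => hl ((hL x₀).inj h9)) h8
    exact h3 ⟨by rw [h5]; exact Submodule.zero_mem _, h4⟩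

end Pool.Agent.H936.G
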