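import Pool.Agent.H936.G.Ult
import Pool.Agent.H936.SL.Cns3

/-!
# The constants
-/

set_option autoImplicit false
set_option linter.unusedSectionVars false
set_option linter.unusedVariables false
set_option maxHeartbeats 400000

open Matrix Module Filter

namespace Pool.Agent.H936.G

open Pool.Agent.Helper880_LF (om om_add_left om_add_right om_smul_left om_smul_right pr spS mem_spS comm_mem pr_mem pr_mulVec)
open Pool.Agent.Helper880_LF.NB (gm gm_mul gm_add gm_sub gm_smul gm_zero gm_one gm_neg gm_unit gm_transpose gm_kt gm_surj kt kt_apply dm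
  dm_mul dm_smul dm_transpose kerD mem_kerD ker_alg ker_adj gm_apply)
open Pool.Agent.Helper880_R3 (Ix ib Tot GU mem_GU lieB mem_lieB Inf Few GU_cod cod_sp Cod dm_E' E_conj)
open Pool.Agent.Y118.UL (mk U)
open Pool.Agent.Y119.HY (cm cm_apply cm_mul cm_one cm_transpose cm_zero cm_add cm_neg cm_pow)
open Pool.Agent.Y119.HY renaming E → Ex, E_mul_neg → Ex_mul_neg
open Pool.Agent.Y102 (AbVar QBar tau)
open Pool.Agent.H936.SL

variable {n N r₀ g : ℕ}

theorem ld_const {C : Mn n ℂ} (δ : DD) : ld (fun _ => C) δ = Fd δ C := rfl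

theorem Ex_det {M : Matrix (Fin n) (Fin n) ℚ} (hM : M ^ n = 0) (s : ℂ) : (Ex (cm M) s).det ≠ 0 := by
  have hMc : (cm M) ^ n = 0 := by
    rw [← cm_pow, hM]
    exact map_zero _
  have h4 := congrArg Matrix.det (Ex_mul_neg hMc s)
  rw [Matrix.det_mul, Matrix.det_one] at h4
  exact left_ne_zero_of_mul_eq_one h4

/-- the logarithmic derivative of the exponential -/
theorem ld_E {M : Matrix (Fin n) (Fin n) ℚ} (hM : M ^ n = 0) (σ : ℕ → ℂ) (δ : DD) :
    ld (fun k => Ex (cm M) (σ k)) δ = δ (mk ℂ σ) • cu (cm M) := by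
  have hu : IsUnit (gm fun k => Ex (cm M) (σ k)).det := gm_unit fun k => Ex_det hM (σ k)
  rw [ld_apply, dm_E' hM]
  have h1 : (gm fun k => cm M * Ex (cm M) (σ k)) = cu (cm M) * gm fun k => Ex (cm M) (σ k) := gm_mul _ _
  rw [h1, Matrix.smul_mul, Matrix.mul_assoc, Matrix.mul_nonsing_inv _ hu, Matrix.mul_one]

/-- the sequence of the constants -/
noncomputable abbrev csq (C : Mn n ℂ) (M : Matrix (Fin n) (Fin n) ℚ) (σ : ℕ → ℂ) : ℕ → Mn n ℂ :=
  fun k => C * Ex (cm M) (σ k)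

theorem csq_det {C : Mn n ℂ} (hC : IsUnit C.det) {M : Matrix (Fin n) (Fin n) ℚ} (hM : M ^ n = 0) (σ : ℕ → ℂ) (k : ℕ) :
    (csq C M σ k).det ≠ 0 := by
  show (C * Ex (cm M) (σ k)).det ≠ 0
  rw [Matrix.det_mul]
  exact mul_ne_zero hC.ne_zero (Ex_det hM _)

theorem ld_csq {C : Mn n ℂ} (hC : IsUnit C.det) {M : Matrix (Fin n) (Fin n) ℚ} (hM : M ^ n = 0) (σ : ℕ → ℂ) (δ : DD) :
    ld (csq C M σ) δ = ld (fun _ => C) δ + δ (mk ℂ σ) • cu (C * cm M * C⁻¹) := by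
  have h1 := ld_mul (x := fun _ => C) (y := fun k => Ex (cm M) (σ k)) (fun _ => hC.ne_zero) (fun k => Ex_det hM _) δ
  refine h1.trans ?_
  rw [ld_E hM, map_smul, cjg_apply, cu_inv hC, ← gm_mul, ← gm_mul]

/-- the conditions on the centre -/
structure Cen (C : Mn n ℂ) (H M : Matrix (Fin n) (Fin n) ℚ) (B : Mn n ℂ) (θ : ℂ) : Prop where
  skew : Hᵀ = -H
  hd : IsUnit H.det
  cd : IsUnit C.det
  leg : C * B * Cᵀ = θ • cm H
  ne : θ ≠ 0
  alg : ∀ i j, IsAlgebraic ℚ (B i j)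
  nil : M ^ n = 0
  inf : cm M * B + B * (cm M)ᵀ = 0

section cen
variable {C B : Mn n ℂ} {H M : Matrix (Fin n) (Fin n) ℚ} {θ : ℂ}

theorem cm_unit {H : Matrix (Fin n) (Fin n) ℚ} (hd : IsUnit H.det) : IsUnit (cm H).det := by
  have h1 := congrArg Matrix.det (cm_mul_inv hd)
  rw [Matrix.det_mul, Matrix.det_one] at h1
  exact IsUnit.of_mul_eq_one _ h1

theorem cm_unit' {H : Matrix (Fin n) (Fin n) ℚ} (hd : IsUnit H.det) : IsUnit (cm H⁻¹).det := by
  apply cm_unit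
  rw [Matrix.det_nonsing_inv]
  exact hd.ringInverse

theorem cm_skew' {H : Matrix (Fin n) (Fin n) ℚ} (hH : Hᵀ = -H) : (cm H⁻¹)ᵀ = -cm H⁻¹ := by
  rw [← cm_transpose, Matrix.transpose_nonsing_inv, hH, ← cm_neg]
  congr 1
  by_cases h : IsUnit H.det
  · refine Matrix.inv_eq_left_inv ?_
    rw [neg_mul_neg, Matrix.nonsing_inv_mul _ h]
  · have h' : ¬ IsUnit (-H).det := by
      rw [Matrix.det_neg]
      intro h2
      exact h (isUnit_of_mul_isUnit_right h2)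
    rw [Matrix.nonsing_inv_apply_not_isUnit _ h, Matrix.nonsing_inv_apply_not_isUnit _ h', neg_zero]

theorem Cen.skewJ (h : Cen C H M B θ) : (cm H⁻¹)ᵀ = -cm H⁻¹ := cm_skew' h.skew

/-- the direction of the logarithm -/
theorem Cen.CMC (h : Cen C H M B θ) : C * cm M * C⁻¹ ∈ spS (cm H⁻¹) := by
  set Y := C * cm M * C⁻¹ with hY
  have hCC : C⁻¹ * C = 1 := Matrix.nonsing_inv_mul _ h.cd
  have hCt : Cᵀ * (C⁻¹)ᵀ = 1 := by rw [← transpose_mul, hCC, transpose_one]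
  have h1 : Y * cm H + cm H * Yᵀ = 0 := by
    have e1 : θ • (Y * cm H) = C * (cm M * B) * Cᵀ := by
      rw [← Matrix.mul_smul, ← h.leg, hY]
      calc C * cm M * C⁻¹ * (C * B * Cᵀ) = C * cm M * (C⁻¹ * C) * B * Cᵀ := by simp only [Matrix.mul_assoc]
        _ = _ := by rw [hCC, Matrix.mul_one]; simp only [Matrix.mul_assoc]
    have e2 : θ • (cm H * Yᵀ) = C * (B * (cm M)ᵀ) * Cᵀ := by
      rw [← Matrix.smul_mul, ← h.leg, hY, transpose_mul, transpose_mul]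
      calc C * B * Cᵀ * ((C⁻¹)ᵀ * ((cm M)ᵀ * Cᵀ)) = C * B * (Cᵀ * (C⁻¹)ᵀ) * (cm M)ᵀ * Cᵀ := by
            simp only [Matrix.mul_assoc]
        _ = _ := by rw [hCt, Matrix.mul_one]; simp only [Matrix.mul_assoc]
    have e3 : θ • (Y * cm H + cm H * Yᵀ) = 0 := by
      rw [smul_add, e1, e2, ← Matrix.add_mul, ← Matrix.mul_add, h.inf, Matrix.mul_zero, Matrix.zero_mul]
    exact (smul_eq_zero.1 e3).resolve_left h.ne
  have hHH : cm H * cm H⁻¹ = 1 := by rw [← cm_mul, Matrix.mul_nonsing_inv _ h.hd, cm_one]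
  have hHH' : cm H⁻¹ * cm H = 1 := by rw [← cm_mul, Matrix.nonsing_inv_mul _ h.hd, cm_one]
  rw [mem_spS]
  calc Yᵀ * cm H⁻¹ + cm H⁻¹ * Y = cm H⁻¹ * (Y * cm H + cm H * Yᵀ) * cm H⁻¹ := by
        rw [Matrix.mul_add, Matrix.add_mul]
        have e1 : cm H⁻¹ * (Y * cm H) * cm H⁻¹ = cm H⁻¹ * Y := by
          calc cm H⁻¹ * (Y * cm H) * cm H⁻¹ = cm H⁻¹ * Y * (cm H * cm H⁻¹) := by simp only [Matrix.mul_assoc]
            _ = _ := by rw [hHH, Matrix.mul_one]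
        have e2 : cm H⁻¹ * (cm H * Yᵀ) * cm H⁻¹ = Yᵀ * cm H⁻¹ := by
          rw [← Matrix.mul_assoc, hHH', Matrix.one_mul]
        rw [e1, e2, add_comm]
    _ = 0 := by rw [h1, Matrix.mul_zero, Matrix.zero_mul]

theorem Cen.gsC (h : Cen C H M B θ) (δ : DD) : GS (cu (cm H⁻¹)) (ld (fun _ => C) δ) := by
  have h1 := Fd_gs h.cd (cm_unit h.hd) h.ne h.leg h.alg (fun i j => cm_alg _ i j) δ
  rw [cm_inv h.hd] at h1
  exact h1

theorem Cen.gs (h : Cen C H M B θ) (σ : ℕ → ℂ) (δ : DD) : GS (cu (cm H⁻¹)) (ld (csq C M σ) δ) := by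
  rw [ld_csq h.cd h.nil]
  refine (h.gsC δ).add (GS.of (Submodule.smul_mem _ _ ?_))
  rw [gm_spS]
  exact Filter.Eventually.of_forall fun _ => h.CMC

/-- commutation of the Lie algebra with the nilpotent matrix -/
theorem Cen.hM𝔤 (h : Cen C H M B θ) : ∀ Y ∈ lieB B, cm M * Y - Y * cm M ∈ lieB B := by
  intro Y hY
  rw [mem_lieB] at hY ⊢
  refine ⟨by rw [trace_sub, trace_mul_comm, sub_self], ?_⟩
  have h1 := h.inf
  have h2 := hY.2
  set A := cm M with hA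
  rw [transpose_sub, transpose_mul, transpose_mul]
  have e1 : A * B = -(B * Aᵀ) := eq_neg_of_add_eq_zero_left h1
  have e2 : Y * B = -(B * Yᵀ) := eq_neg_of_add_eq_zero_left h2
  calc (A * Y - Y * A) * B + B * (Yᵀ * Aᵀ - Aᵀ * Yᵀ) =
      A * (Y * B) - Y * (A * B) + (B * Yᵀ) * Aᵀ - (B * Aᵀ) * Yᵀ := by noncomm_ring
    _ = 0 := by
      have e3 : B * Yᵀ = -(Y * B) := by rw [e2, neg_neg]
      have e4 : B * Aᵀ = -(A * B) := by rw [e1, neg_neg]
      rw [e3, e4, Matrix.neg_mul, Matrix.neg_mul, Matrix.mul_assoc Y B, Matrix.mul_assoc A B, e4, e3]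
      noncomm_ring

/-- the directions -/
theorem Cen.surj (h : Cen C H M B θ) (σ : ℕ → ℂ) {z : ℕ → Fin N → Mn n ℂ} (hz : ∀ k j, (z k j).det ≠ 0)
    (hder : ∀ i, ∀ A ∈ GU (lieB B), ∃ δ : DD, dm δ (gm fun k => z k i) = A * (gm fun k => z k i) ∧
      ∀ j, j ≠ i → dm δ (gm fun k => z k j) = 0) (i : Fin N) :
    ∀ Y ∈ spS (cu (cm H⁻¹)), ∃ δ : DD, Xd (csq C M σ) z i δ = Y ∧ ∀ j, j ≠ i → Xd (csq C M σ) z j δ = 0 := by
  intro Y hY
  have hMc : (cm M) ^ n = 0 := by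
    rw [← cm_pow, h.nil]
    exact map_zero _
  obtain ⟨F, rfl⟩ := gm_surj Y
  rw [gm_spS] at hY
  have hcu : IsUnit (gm (csq C M σ)).det := gm_unit (csq_det h.cd h.nil σ)
  have hCs : gm (fun k => Ex (cm M) (-(σ k)) * C⁻¹) = (gm (csq C M σ))⁻¹ := by
    symm
    refine Matrix.inv_eq_left_inv ?_
    rw [← gm_mul, ← gm_one]
    congr 1
    funext k
    have h1 : Ex (cm M) (-(σ k)) * Ex (cm M) (σ k) = 1 := by
      have := Ex_mul_neg hMc (-(σ k))
      rwa [neg_neg] at this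
    calc Ex (cm M) (-(σ k)) * C⁻¹ * (C * Ex (cm M) (σ k)) = Ex (cm M) (-(σ k)) * (C⁻¹ * C) * Ex (cm M) (σ k) := by
          simp only [Matrix.mul_assoc]
      _ = 1 := by rw [Matrix.nonsing_inv_mul _ h.cd, Matrix.mul_one, h1]
  obtain ⟨δ, h1, h2⟩ := hder i ((gm (csq C M σ))⁻¹ * gm F * gm (csq C M σ)) (by
    rw [← hCs, ← gm_mul, ← gm_mul, mem_GU]
    filter_upwards [hY] with k hk
    have h3 := E_conj hMc h.hM𝔤 (conj_lieB h.hd h.cd h.leg hk) (-(σ k))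
    rw [neg_neg] at h3
    have h4 : Ex (cm M) (-(σ k)) * C⁻¹ * F k * (csq C M σ k) = Ex (cm M) (-(σ k)) * (C⁻¹ * F k * C) * Ex (cm M) (σ k) := by
      show Ex (cm M) (-(σ k)) * C⁻¹ * F k * (C * Ex (cm M) (σ k)) = _
      simp only [Matrix.mul_assoc]
    rw [h4]
    exact h3)
  have hzu : ∀ j, IsUnit (gm fun k => z k j).det := fun j => gm_unit fun k => hz k j
  refine ⟨δ, ?_, fun j hj => ?_⟩
  · show gm (csq C M σ) * (dm δ (gm fun k => z k i) * (gm fun k => z k i)⁻¹) * (gm (csq C M σ))⁻¹ = gm F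
    rw [h1, Matrix.mul_assoc _ (gm fun k => z k i), Matrix.mul_nonsing_inv _ (hzu i), Matrix.mul_one]
    calc gm (csq C M σ) * ((gm (csq C M σ))⁻¹ * gm F * gm (csq C M σ)) * (gm (csq C M σ))⁻¹ =
        (gm (csq C M σ) * (gm (csq C M σ))⁻¹) * gm F * (gm (csq C M σ) * (gm (csq C M σ))⁻¹) := by
          simp only [Matrix.mul_assoc]
      _ = _ := by rw [Matrix.mul_nonsing_inv _ hcu, Matrix.one_mul, Matrix.mul_one]
  · show gm (csq C M σ) * (dm δ (gm fun k => z k j) * (gm fun k => z k j)⁻¹) * (gm (csq C M σ))⁻¹ = 0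
    rw [h2 j hj, Matrix.zero_mul, Matrix.mul_zero, Matrix.zero_mul]

theorem Cen.sq (h : Cen C H M B θ) (σ : ℕ → ℂ) {z : ℕ → Fin N → Mn n ℂ} (hz : ∀ k j, (z k j).det ≠ 0)
    (hder : ∀ i, ∀ A ∈ GU (lieB B), ∃ δ : DD, dm δ (gm fun k => z k i) = A * (gm fun k => z k i) ∧
      ∀ j, j ≠ i → dm δ (gm fun k => z k j) = 0) : Sq (cm H⁻¹) (csq C M σ) z where
  gs := h.gs σ
  surj := fun i => h.surj σ hz hder i
  cu := csq_det h.cd h.nil σ
  zu := hz

end cen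

/-! ### counting -/

/-- `1` if the matrix is not zero -/
def nz (M : Matrix (Fin n) (Fin n) ℚ) : ℕ := if M = 0 then 0 else 1

/-- the derivative of the logarithm, if the nilpotent matrix is not zero -/
noncomputable def evl (M : Matrix (Fin n) (Fin n) ℚ) (σ : ℕ → ℂ) : DD →ₗ[U ℂ] (Fin (nz M) → U ℂ) where
  toFun δ _ := δ (mk ℂ σ)
  map_add' _ _ := rfl
  map_smul' _ _ := rfl

theorem evl_zero {C : Mn n ℂ} {M : Matrix (Fin n) (Fin n) ℚ} {σ : ℕ → ℂ} {δ : DD} (h : evl M σ δ = 0) :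
    δ (mk ℂ σ) • cu (C * cm M * C⁻¹) = 0 := by
  by_cases hM : M = 0
  · rw [hM, cm_zero, Matrix.mul_zero, Matrix.zero_mul]
    have h1 : cu (0 : Mn n ℂ) = 0 := gm_zero
    rw [h1, smul_zero]
  · have h1 : nz M = 1 := if_neg hM
    have h2 := congrFun h ⟨0, by omega⟩
    have h3 : δ (mk ℂ σ) = 0 := h2
    rw [h3, zero_smul]

theorem fewG_a {s b : ℕ} {C₀ : Matrix (Fin r₀) (Fin r₀) ℂ} (hC₀ : C₀.det ≠ 0) {C : Mn n ℂ} (hC : IsUnit C.det)
    {M : Matrix (Fin n) (Fin n) ℚ} (hM : M ^ n = 0) (σ : ℕ → ℂ) (h : Few s C₀ C) (hs : s + nz M < b) :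
    FewG b (csq C M σ) C₀ := by
  obtain ⟨c, κ, hκ, h1, h2⟩ := h
  refine ⟨(Fin s → U ℂ) × (Fin (nz M) → U ℂ), inferInstance, inferInstance, inferInstance, (evb c).prod (evl M σ), ?_,
    fun δ hδ => ?_⟩
  · rw [Module.finrank_prod, Module.finrank_fin_fun, Module.finrank_fin_fun]
    exact hs
  have hb : ∀ y ∈ Set.range c, δ (kt y) = 0 := by
    rintro _ ⟨i, rfl⟩
    exact congrFun (congrArg Prod.fst hδ) i
  have hl : evl M σ δ = 0 := congrArg Prod.snd hδ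
  have hκ' : kt κ ≠ 0 := (map_ne_zero kt).2 hκ
  have hx : ∀ x : ℂ, IsAlgebraic (IntermediateField.adjoin ℚ (Set.range c)) (κ * x) →
      δ (kt x) = -(δ (kt κ) / kt κ) * kt x := by
    intro x hx
    have h3 := ker_adj (Ω := U ℂ) kt hb hx
    rw [map_mul, Derivation.leibniz, smul_eq_mul, smul_eq_mul] at h3
    field_simp
    linear_combination h3
  refine ⟨-(δ (kt κ) / kt κ), ?_, ?_⟩
  · have h3 : dm δ (gm fun _ => C₀) = -(δ (kt κ) / kt κ) • gm fun _ => C₀ := by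
      ext i j
      exact hx _ (h1 i j)
    rw [ld_apply, h3, Matrix.smul_mul, Matrix.mul_nonsing_inv _ (gm_unit fun _ => hC₀)]
  · have h3 : dm δ (cu C) = -(δ (kt κ) / kt κ) • cu C := by
      ext i j
      exact hx _ (h2 i j)
    rw [ld_csq hC hM, evl_zero hl, add_zero, ld_apply]
    show dm δ (cu C) * (cu C)⁻¹ = _
    rw [h3, Matrix.smul_mul, Matrix.mul_nonsing_inv _ (gm_unit fun _ => hC.ne_zero)]

/-- the constants which are algebraic over the entries of `C` -/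
theorem fewG_b {s b : ℕ} {C₀ : Matrix (Fin r₀) (Fin r₀) ℂ} {C : Mn n ℂ} (hC : IsUnit C.det)
    {M : Matrix (Fin n) (Fin n) ℚ} (hM : M ^ n = 0) (σ : ℕ → ℂ) (𝔊 : Submodule (U ℂ) (Mn n (U ℂ)))
    (hG : ∀ δ : DD, ld (fun _ => C) δ ∈ 𝔊) {c : Fin s → ℂ} {τ : ℂ}
    (hτ : ∀ δ : DD, dm δ (cu C) = 0 → δ (kt τ) = 0)
    (h : ∀ i j, IsAlgebraic (IntermediateField.adjoin ℚ (insert τ (Set.range c ∪
      Set.range fun p : Fin n × Fin n => C p.1 p.2))) (C₀ i j))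
    (hs : finrank (U ℂ) 𝔊 + s + nz M < b) : FewG b (csq C M σ) C₀ := by
  let Φ1 : DD →ₗ[U ℂ] 𝔊 := (ld fun _ => C).codRestrict 𝔊 hG
  refine ⟨𝔊 × (Fin s → U ℂ) × (Fin (nz M) → U ℂ), inferInstance, inferInstance, inferInstance,
    Φ1.prod ((evb c).prod (evl M σ)), ?_, fun δ hδ => ?_⟩
  · rw [Module.finrank_prod, Module.finrank_prod, Module.finrank_fin_fun, Module.finrank_fin_fun]
    omega
  · have h1 : Φ1 δ = 0 := congrArg Prod.fst hδ
    have h2 : evb c δ = 0 := congrArg (fun x => x.2.1) hδ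
    have hl : evl M σ δ = 0 := congrArg (fun x => x.2.2) hδ
    have hCu := cu_unit hC
    have h4 : ld (fun _ => C) δ = 0 := congrArg Subtype.val h1
    have h3 : dm δ (cu C) = 0 := by
      have h5 : dm δ (cu C) * (cu C)⁻¹ = 0 := h4
      calc dm δ (cu C) = dm δ (cu C) * (cu C)⁻¹ * cu C := by
            rw [Matrix.mul_assoc, Matrix.nonsing_inv_mul _ hCu, Matrix.mul_one]
        _ = 0 := by rw [h5, Matrix.zero_mul]
    refine ⟨0, ?_, by rw [ld_csq hC hM, evl_zero hl, h4, add_zero, zero_smul]⟩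
    have hb : ∀ y ∈ insert τ (Set.range c ∪ Set.range (fun p : Fin n × Fin n => C p.1 p.2)), δ (kt y) = 0 := by
      rintro y (rfl | ⟨i, rfl⟩ | ⟨p, rfl⟩)
      · exact hτ δ h3
      · exact congrFun h2 i
      · exact congrFun (congrFun h3 p.1) p.2
    have h5 : dm δ (gm fun _ => C₀) = 0 := by
      ext i j
      exact ker_adj (Ω := U ℂ) kt hb (h i j)
    rw [ld_apply, h5, Matrix.zero_mul, zero_smul]

/-- the elements of a subspace up to scalars -/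
noncomputable def upS (𝔉 : Submodule (U ℂ) (Mn n (U ℂ))) : Submodule (U ℂ) (Mn n (U ℂ)) :=
  𝔉 ⊔ Submodule.span (U ℂ) {(1 : Mn n (U ℂ))}

theorem mem_upS {𝔉 : Submodule (U ℂ) (Mn n (U ℂ))} {X : Mn n (U ℂ)} {c : U ℂ} (h : X + c • (1 : Mn n (U ℂ)) ∈ 𝔉) :
    X ∈ upS 𝔉 := by
  have h4 : X = (X + c • (1 : Mn n (U ℂ))) + -(c • (1 : Mn n (U ℂ))) := by abel
  rw [h4]
  exact Submodule.add_mem _ (Submodule.mem_sup_left h) (Submodule.mem_sup_right
    (Submodule.neg_mem _ (Submodule.smul_mem _ _ (Submodule.mem_span_singleton_self _))))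

theorem upS_dim (𝔉 : Submodule (U ℂ) (Mn n (U ℂ))) : finrank (U ℂ) (upS 𝔉) ≤ finrank (U ℂ) 𝔉 + 1 := by
  have h5 := Submodule.finrank_add_le_finrank_add_finrank 𝔉 (Submodule.span (U ℂ) {(1 : Mn n (U ℂ))})
  have h6 : finrank (U ℂ) (Submodule.span (U ℂ) {(1 : Mn n (U ℂ))}) ≤ 1 := by
    have := finrank_span_le_card (R := U ℂ) ({1} : Set (Mn n (U ℂ)))
    simpa using this
  exact h5.trans (by omega)

/-- derivations which kill the entries of the period matrix kill the period of the Tate motive -/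
theorem tau_zero (hn : 0 < n) {C B : Mn n ℂ} {H M : Matrix (Fin n) (Fin n) ℚ} {θ : ℂ} (h : Cen C H M B θ) (δ : DD)
    (hδ : dm δ (cu C) = 0) : δ (kt θ) = 0 := by
  have h0 : cu C * cu B * (cu C)ᵀ = kt θ • cu (cm H) := by
    rw [← gm_transpose, ← gm_mul, ← gm_mul]
    have : kt θ • cu (cm H) = gm fun _ => θ • cm H := by rw [gm_smul]; rfl
    rw [this]
    congr 1
    funext _
    exact h.leg
  have h1 := congrArg (dm δ) h0
  rw [dm_mul, dm_mul, hδ, dm_alg δ h.alg, Matrix.mul_zero, Matrix.zero_mul, add_zero, Matrix.zero_mul, zero_add, dm_transpose,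
    hδ, transpose_zero, Matrix.mul_zero, dm_smul, dm_cm, smul_zero, add_zero] at h1
  have h2 : (cu (cm H)) ≠ 0 := by
    intro h3
    have h4 := (cu_unit (cm_unit h.hd)).ne_zero
    rw [h3] at h4
    refine h4 ?_
    have : Nonempty (Fin n) := ⟨⟨0, hn⟩⟩
    exact Matrix.det_zero
  exact (smul_eq_zero.1 h1.symm).resolve_right h2

end Pool.Agent.H936.G
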