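import Pool.Agent.H936.G.Core

/-!
# Normalisers and the matrices which act on three vectors by one scalar
-/

set_option autoImplicit false
set_option linter.unusedSectionVars false
set_option linter.unusedVariables false

open Matrix Module MvPolynomial

namespace Pool.Agent.H936.CU

open Pool.Agent.Helper880_LF
open Pool.Agent.H936.SL

variable {F : Type} [Field F] {n : ℕ} {J : Matrix (Fin n) (Fin n) F}

/-- the Euler derivation -/
noncomputable def Eu : Derivation F (Pf n F) (Pf n F) := mkDerivation F fun p => X p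

theorem Eu_X (p : Fin n × Fin n) : Eu (F := F) (X p) = X p := by
  unfold Eu
  rw [mkDerivation_X]

theorem Eu_bm : (bm (F := F) (n := n)).map Eu = bm := by
  ext i j : 1
  exact Eu_X (i, j)

theorem Eu_cst (Y : Mn n F) : (cst Y).map (Eu (F := F) (n := n)) = 0 := by
  ext i j : 1
  exact Derivation.map_algebraMap (Eu (F := F) (n := n)) (Y i j)

theorem Eu_DX (B : Mn n F) (Θ : Pf n F) : Eu (DX B Θ) = DX B (Eu Θ) := by
  have h : ⁅Eu (F := F) (n := n), DX B⁆ = (0 : Derivation F (Pf n F) (Pf n F)) := by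
    apply derivation_ext
    intro p
    rw [Derivation.commutator_apply, DX_X, Eu_X, DX_X]
    have h1 : Eu (BX B p.1 p.2) = BX B p.1 p.2 := by
      have h2 : Eu (BX B p.1 p.2) =
          ((cst B * bm : Matrix (Fin n) (Fin n) (Pf n F)).map Eu -
            (bm * cst B : Matrix (Fin n) (Fin n) (Pf n F)).map Eu) p.1 p.2 := by
        unfold BX
        rw [Matrix.sub_apply, Matrix.sub_apply, map_sub]
        rfl
      rw [h2, dmap_mul, dmap_mul, Eu_bm, Eu_cst, Matrix.zero_mul, Matrix.mul_zero, zero_add, add_zero]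
      rfl
    rw [h1, sub_self]
    rfl
  have h2 := congrArg (fun D : Derivation F (Pf n F) (Pf n F) => D Θ) h
  simp only [Derivation.commutator_apply, Derivation.zero_apply] at h2
  exact sub_eq_zero.1 h2

/-- derivatives in directions which scale the point -/
theorem ev_DX_scale {β B : Mn n F} {χ : F} (h : B * β - β * B = χ • β) (Θ : Pf n F) :
    ev β (DX B Θ) = χ * ev β (Eu Θ) := by
  induction Θ using MvPolynomial.induction_on with
  | C c =>
    have h1 : DX B (C c) = 0 := Derivation.map_algebraMap _ _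
    have h2 : Eu (C c : Pf n F) = 0 := Derivation.map_algebraMap _ _
    rw [h1, h2, map_zero, mul_zero]
  | add p q hp hq => rw [map_add, map_add, hp, hq, map_add, map_add, mul_add]
  | mul_X p i hp =>
    rw [Derivation.leibniz, map_add, smul_eq_mul, smul_eq_mul, map_mul, map_mul, hp, DX_X, Derivation.leibniz, map_add,
      smul_eq_mul, smul_eq_mul, map_mul, map_mul, Eu_X]
    have h1 : ev β (BX B i.1 i.2) = ((BX B).map (ev β)) i.1 i.2 := rfl
    have h2 : ev β (X i) = β i.1 i.2 := ev_X β i.1 i.2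
    rw [h1, ev_BX, h, Matrix.smul_apply, smul_eq_mul, h2]
    ring

/-- the derivative along the scaling -/
theorem ln_der (β : Mn n F) (Θ : Pf n F) : Polynomial.eval 1 (Polynomial.derivative (ln β 0 Θ)) = ev β (Eu Θ) := by
  induction Θ using MvPolynomial.induction_on with
  | C c =>
    have h2 : Eu (C c : Pf n F) = 0 := Derivation.map_algebraMap _ _
    have h3 : ln β 0 (C c) = Polynomial.C c := by
      unfold ln
      rw [aeval_C]
      rfl
    rw [h2, map_zero, h3, Polynomial.derivative_C, Polynomial.eval_zero]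
  | add p q hp hq => rw [map_add, map_add, Polynomial.eval_add, hp, hq, map_add, map_add]
  | mul_X p i hp =>
    rw [map_mul, Polynomial.derivative_mul, Polynomial.eval_add, Polynomial.eval_mul, Polynomial.eval_mul, hp,
      Derivation.leibniz, map_add, smul_eq_mul, smul_eq_mul, map_mul, map_mul, Eu_X, ln_eval, ln_eval, one_smul, add_zero]
    have h3 : ln β 0 (X i) = Polynomial.C 0 + Polynomial.X * Polynomial.C (β i.1 i.2) := by
      unfold ln
      rw [aeval_X]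
      rfl
    have h2 : ev β (X i) = β i.1 i.2 := ev_X β i.1 i.2
    rw [h3, h2]
    simp only [Polynomial.derivative_add, Polynomial.derivative_C, Polynomial.derivative_mul, Polynomial.derivative_X,
      one_mul, mul_zero, add_zero, zero_add, Polynomial.eval_C]
    ring

/-- homogeneous functions are eigenvectors of the Euler derivation -/
theorem Eu_hom [CharZero F] {Ψ : Pf n F} {d : ℕ} (hh : Hm d Ψ) : Eu Ψ = (d : F) • Ψ := by
  have : Infinite F := inferInstance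
  apply MvPolynomial.funext
  intro x
  let β : Mn n F := Matrix.of fun i j => x (i, j)
  have hx : ∀ Θ : Pf n F, MvPolynomial.eval x Θ = ev β Θ := by
    intro Θ
    unfold ev
    rfl
  rw [hx, hx, ← ln_der]
  have h1 : ln β 0 Ψ = Polynomial.X ^ d * Polynomial.C (ev β Ψ) := by
    apply Polynomial.funext
    intro z
    rw [ln_eval, add_zero, hh, Polynomial.eval_mul, Polynomial.eval_pow, Polynomial.eval_X, Polynomial.eval_C]
  rw [h1, map_smul, smul_eq_mul]
  simp [Polynomial.derivative_mul, Polynomial.derivative_X_pow]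
  ring

variable {S : Submodule F (Mn n F)} {Ψ : Pf n F}

theorem Eu_Us {c : F} (h : Eu Ψ = c • Ψ) (k : ℕ) : ∀ Θ ∈ Us S Ψ k, Eu Θ = c • Θ := by
  induction k with
  | zero =>
    intro Θ hΘ
    obtain ⟨r, rfl⟩ := Submodule.mem_span_singleton.1 hΘ
    rw [Derivation.map_smul, h, smul_comm]
  | succ k ih =>
    intro Θ hΘ
    have hΘ' : Θ ∈ Submodule.span F {Θ | ∃ X' ∈ S, ∃ Θ' ∈ Us S Ψ k, Θ = DX X' Θ'} := hΘ
    induction hΘ' using Submodule.span_induction with
    | mem Θ h =>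
      obtain ⟨X', hX, Θ', h', rfl⟩ := h
      rw [Eu_DX, ih _ h', Derivation.map_smul]
    | zero => rw [map_zero, smul_zero]
    | add a b ha hb iha ihb => rw [map_add, iha ha, ihb hb, smul_add]
    | smul r a ha iha => rw [Derivation.map_smul, iha ha, smul_comm]

/-- every direction of `S` is the sum of one under which `Ψ` is invariant and of one which scales `α` -/
def DecS (S : Submodule F (Mn n F)) (Ψ : Pf n F) (α : Mn n F) : Prop :=
  ∀ X' ∈ S, ∃ Z B, ∃ χ : F, X' = Z + B ∧ Z ∈ S ∧ DX Z Ψ = 0 ∧ B * α - α * B = χ • α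

theorem Us_van0 [CharZero F] (hS : ∀ X' ∈ S, ∀ Y ∈ S, X' * Y - Y * X' ∈ S) {α : Mn n F} (hd : DecS S Ψ α) {d : ℕ}
    (hh : Hm d Ψ) (h0 : ev α Ψ = 0) (k : ℕ) : ∀ Θ ∈ Us S Ψ k, ev α Θ = 0 := by
  induction k with
  | zero =>
    intro Θ hΘ
    obtain ⟨r, rfl⟩ := Submodule.mem_span_singleton.1 hΘ
    rw [map_smul, h0, smul_zero]
  | succ k ih =>
    intro Θ hΘ
    have hΘ' : Θ ∈ Submodule.span F {Θ | ∃ X' ∈ S, ∃ Θ' ∈ Us S Ψ k, Θ = DX X' Θ'} := hΘ
    induction hΘ' using Submodule.span_induction with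
    | mem Θ h =>
      obtain ⟨X', hX, Θ', h', rfl⟩ := h
      obtain ⟨Z, B, χ, rfl, hZ, hZΨ, hB⟩ := hd X' hX
      rw [DX_add, Derivation.add_apply, map_add, ih _ (Us_Z hS hZ hZΨ k Θ' h').1, zero_add, ev_DX_scale hB,
        Eu_Us (Eu_hom hh) k Θ' h', map_smul, ih _ h', smul_zero, mul_zero]
    | zero => exact map_zero _
    | add a b ha hb iha ihb => rw [map_add, iha ha, ihb hb, add_zero]
    | smul c a ha iha => rw [map_smul, iha ha, smul_zero]

/-- **the orbit principle for a zero** -/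
theorem orbit0 [CharZero F] (hJ : Jᵀ = -J) {g h : Mn n F} (h1 : Gm J g h) {α : Mn n F} (hd : DecS (spS J) Ψ α) {d : ℕ}
    (hh : Hm d Ψ) (h0 : ev α Ψ = 0) : ev (g * α * h) Ψ = 0 := by
  have h2 := (h1.van hJ ⟨fun k => Us_van0 (fun X hX Y hY => comm_mem hJ hX hY) hd hh h0 (k + 1), rfl⟩).2
  rw [h2, h0]

/-! ### the products of vectors -/

variable [CharZero F]

theorem comm_wd (hJ : Jᵀ = -J) {X : Mn n F} (hX : X ∈ spS J) (u v : Fin n → F) :
    X * wd J u v - wd J u v * X = wd J (X *ᵥ u) v + wd J u (X *ᵥ v) := by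
  apply mul_ext
  intro w
  have h1 : ∀ a, om J a (X *ᵥ w) = -om J (X *ᵥ a) w := fun a => by rw [skew hX, neg_neg]
  rw [sub_mulVec, ← mulVec_mulVec, ← mulVec_mulVec, wd_mulVec, wd_mulVec, add_mulVec, wd_mulVec, wd_mulVec, mulVec_sub,
    mulVec_smul, mulVec_smul, h1, h1]
  module

theorem wd_smul_left (c : F) (u v : Fin n → F) : wd J (c • u) v = c • wd J u v := by
  apply mul_ext
  intro w
  rw [smul_mulVec, wd_mulVec, wd_mulVec, om_smul_left]
  module

theorem wd_smul_right (c : F) (u v : Fin n → F) : wd J u (c • v) = c • wd J u v := by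
  apply mul_ext
  intro w
  rw [smul_mulVec, wd_mulVec, wd_mulVec, om_smul_left]
  module

theorem conj_wd (hJ : Jᵀ = -J) {g h : Mn n F} (hg : Gm J g h) (a b : Fin n → F) :
    g * wd J a b * h = wd J (g *ᵥ a) (g *ᵥ b) := by
  have hgh := (hg.inv hJ).1
  apply mul_ext
  intro w
  have h1 : ∀ x, om J (g *ᵥ x) w = om J x (h *ᵥ w) := by
    intro x
    rw [← hg.om hJ x (h *ᵥ w), mulVec_mulVec, hgh, one_mulVec]
  rw [← mulVec_mulVec, ← mulVec_mulVec, wd_mulVec, wd_mulVec, h1, h1, mulVec_sub, mulVec_smul, mulVec_smul]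

theorem conj_pr' (hJ : Jᵀ = -J) {g h : Mn n F} (hg : Gm J g h) (a b : Fin n → F) :
    g * pr J a b * h = pr J (g *ᵥ a) (g *ᵥ b) := by
  have hgh := (hg.inv hJ).1
  apply mul_ext
  intro w
  have h1 : ∀ x, om J (g *ᵥ x) w = om J x (h *ᵥ w) := by
    intro x
    rw [← hg.om hJ x (h *ᵥ w), mulVec_mulVec, hgh, one_mulVec]
  rw [← mulVec_mulVec, ← mulVec_mulVec, pr_mulVec, pr_mulVec, h1, h1, mulVec_add, mulVec_smul, mulVec_smul]

/-! ### roots -/

theorem root4 [IsAlgClosed F] (a b c d : F) {e : F} (he : e ≠ 0) :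
    ∃ s : F, a + b * s + c * s ^ 2 + d * s ^ 3 + e * s ^ 4 = 0 := by
  let p : Polynomial F := Polynomial.C a + Polynomial.C b * Polynomial.X + Polynomial.C c * Polynomial.X ^ 2 +
    Polynomial.C d * Polynomial.X ^ 3 + Polynomial.C e * Polynomial.X ^ 4
  have h1 : p.coeff 4 = e := by
    simp [p, Polynomial.coeff_X_pow]
  have hp : p.degree ≠ 0 := by
    intro h
    have h2 := Polynomial.coeff_eq_zero_of_degree_lt (p := p) (n := 4) (by rw [h]; norm_num)
    rw [h1] at h2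
    exact he h2
  obtain ⟨s, hs⟩ := IsAlgClosed.exists_root p hp
  refine ⟨s, ?_⟩
  have h3 : p.eval s = 0 := hs
  simpa [p] using h3

theorem root2 [IsAlgClosed F] (a b : F) {c : F} (hc : c ≠ 0) : ∃ s : F, a + b * s + c * s ^ 2 = 0 := by
  let p : Polynomial F := Polynomial.C a + Polynomial.C b * Polynomial.X + Polynomial.C c * Polynomial.X ^ 2
  have h1 : p.coeff 2 = c := by
    simp [p, Polynomial.coeff_X_pow]
  have hp : p.degree ≠ 0 := by
    intro h
    have h2 := Polynomial.coeff_eq_zero_of_degree_lt (p := p) (n := 2) (by rw [h]; norm_num)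
    rw [h1] at h2
    exact hc h2
  obtain ⟨s, hs⟩ := IsAlgClosed.exists_root p hp
  refine ⟨s, ?_⟩
  have h3 : p.eval s = 0 := hs
  simpa [p] using h3

/-! ### the theorem -/

/-- the traces of the invariant operators -/
theorem ev_pr {𝔩 : Submodule F (Mn n F)} {P : Mn n F →ₗ[F] Mn n F} (hJ : Jᵀ = -J) (hP : IsPr 𝔩 P) (hle : 𝔩 ≤ spS J)
    (u : Fin n → F) : ev (pr J u u) (Ps P 1) = Q J P u u u u := by
  rw [ev_Ps, pow_one, LinearMap.trace_comp_comm', Np_tr hJ hP hle]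
  ring

theorem ev_wd {𝔩 : Submodule F (Mn n F)} {P : Mn n F →ₗ[F] Mn n F} (hJ : Jᵀ = -J) (hP : IsPr 𝔩 P) (hle : 𝔩 ≤ spS J)
    (u v : Fin n → F) : ev (wd J u v) (Ps P 1) = -(1 / 2) * Kf J P u v := by
  rw [ev_Ps, pow_one, LinearMap.trace_comp_comm', N_tr hJ hP hle]
  unfold Kf
  ring

/-- **The symplectic Lie algebra is not the sum of a proper normaliser and the matrices which act by one scalar on three
vectors, the first of which is orthogonal to the others.** -/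
theorem thmD [IsAlgClosed F] (hJ : Jᵀ = -J) (hdet : IsUnit J.det) (hn : 3 ≤ n) {𝔩 : Submodule F (Mn n F)}
    (hTN : TN 𝔩) (hle : 𝔩 ≤ spS J) {w₁ w₂ w₃ : Fin n → F} (h1 : w₁ ≠ 0) (h2 : w₂ ∉ Submodule.span F {w₁})
    (h3 : w₃ ∉ Submodule.span F {w₁}) (h23 : ∀ s : F, w₂ + s • w₃ ∉ Submodule.span F {w₁}) (o2 : om J w₁ w₂ = 0)
    (o3 : om J w₁ w₃ = 0)
    (hdec : ∀ X ∈ spS J, ∃ Z B, X = Z + B ∧ Z ∈ spS J ∧ (∃ c : F, B *ᵥ w₁ = c • w₁ ∧ B *ᵥ w₂ = c • w₂ ∧ B *ᵥ w₃ = c • w₃) ∧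
      ∀ Y ∈ 𝔩, Z * Y - Y * Z ∈ 𝔩) : 𝔩 = ⊥ ∨ 𝔩 = spS J := by
  obtain ⟨P, hP⟩ := exists_proj hTN
  have hh : Hm 2 (Ps P 1) := fun β r => hom_Ps P 1 β r
  have key : ∀ α : Mn n F, (∀ (B : Mn n F) (c : F), B ∈ spS J → B *ᵥ w₁ = c • w₁ → B *ᵥ w₂ = c • w₂ → B *ᵥ w₃ = c • w₃ →
      ∃ χ : F, B * α - α * B = χ • α) → DecS (spS J) (Ps P 1) α := by
    intro α hα X hX
    obtain ⟨Z, B, rfl, hZ, ⟨c, e1, e2, e3⟩, hZl⟩ := hdec X hX
    have hB : B ∈ spS J := by
      have h := (spS J).sub_mem hX hZ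
      rwa [add_sub_cancel_left] at h
    obtain ⟨χ, hχ⟩ := hα B c hB e1 e2 e3
    exact ⟨Z, B, χ, rfl, hZ, Ps_inv hTN hP hZl 1, hχ⟩
  have hw2 : w₂ ≠ 0 := by
    rintro rfl
    exact h2 (Submodule.zero_mem _)
  -- the quartic form
  have hQ4 : ∀ u, Q J P u u u u = 0 := by
    obtain ⟨w, hw0, hwB, hwQ⟩ : ∃ w : Fin n → F, w ≠ 0 ∧ (∀ (B : Mn n F) (c : F), B *ᵥ w₁ = c • w₁ → B *ᵥ w₂ = c • w₂ →
        B *ᵥ w = c • w) ∧ Q J P w w w w = 0 := by
      by_cases hq : Q J P w₂ w₂ w₂ w₂ = 0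
      · exact ⟨w₂, hw2, fun B c _ h => h, hq⟩
      · obtain ⟨s, hs⟩ := root4 (Q J P w₁ w₁ w₁ w₁)
          (Q J P w₂ w₁ w₁ w₁ + Q J P w₁ w₂ w₁ w₁ + Q J P w₁ w₁ w₂ w₁ + Q J P w₁ w₁ w₁ w₂)
          (Q J P w₂ w₂ w₁ w₁ + Q J P w₂ w₁ w₂ w₁ + Q J P w₂ w₁ w₁ w₂ + Q J P w₁ w₂ w₂ w₁ + Q J P w₁ w₂ w₁ w₂ +
            Q J P w₁ w₁ w₂ w₂)
          (Q J P w₁ w₂ w₂ w₂ + Q J P w₂ w₁ w₂ w₂ + Q J P w₂ w₂ w₁ w₂ + Q J P w₂ w₂ w₂ w₁) hq
        refine ⟨w₁ + s • w₂, fun h => ?_, fun B c e1 e2 => ?_, ?_⟩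
        · by_cases hs0 : s = 0
          · rw [hs0, zero_smul, add_zero] at h
            exact h1 h
          · apply h2
            have h4 : s • w₂ ∈ Submodule.span F {w₁} := by
              rw [← neg_eq_of_add_eq_zero_right h]
              exact Submodule.neg_mem _ (Submodule.mem_span_singleton_self _)
            exact (Submodule.smul_mem_iff _ hs0).1 h4
        · rw [mulVec_add, mulVec_smul, e1, e2]
          module
        · simp only [Q_add1, Q_add2, Q_add3, Q_add4, Q_smul1, Q_smul2, Q_smul3, Q_smul4]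
          linear_combination hs
    have hD : DecS (spS J) (Ps P 1) (pr J w w) := key _ fun B c hB e1 e2 _ => ⟨2 * c, by
      rw [comm_pr hJ hB, hwB B c e1 e2, pr_smul_left, pr_smul_right]
      module⟩
    have h0 : ev (pr J w w) (Ps P 1) = 0 := by rw [ev_pr hJ hP hle, hwQ]
    intro u
    by_cases hu : u = 0
    · have := Q_smul1 (J := J) P 0 0 (0 : Fin n → F) 0 0
      rw [zero_smul, zero_mul] at this
      rw [hu, this]
    obtain ⟨g, h, hg, hgw⟩ := trans1 hJ hdet hw0 hu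
    have h4 := orbit0 hJ hg hD hh h0
    rw [conj_pr' hJ hg, hgw, ev_pr hJ hP hle] at h4
    exact h4
  -- the isotropic pairs
  refine G.end_Q4 hJ hdet hn hTN hP hle hQ4 fun u v huv => ?_
  obtain ⟨w, hw0, hwo, hwB, hwK⟩ : ∃ w : Fin n → F, w ∉ Submodule.span F {w₁} ∧ om J w₁ w = 0 ∧ (∀ (B : Mn n F) (c : F),
      B *ᵥ w₂ = c • w₂ → B *ᵥ w₃ = c • w₃ → B *ᵥ w = c • w) ∧ Kf J P w₁ w = 0 := by
    by_cases hq : Kf J P w₁ w₃ = 0
    · exact ⟨w₃, h3, o3, fun B c _ h => h, hq⟩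
    · obtain ⟨s, hs⟩ := root2 (Kf J P w₁ w₂)
        (Q J P w₁ w₁ w₂ w₃ + Q J P w₁ w₁ w₃ w₂ - Q J P w₁ w₂ w₁ w₃ - Q J P w₁ w₃ w₁ w₂) hq
      refine ⟨w₂ + s • w₃, h23 s, by rw [om_add_right, om_smul_right, o2, o3, mul_zero, add_zero], fun B c e1 e2 => ?_, ?_⟩
      · rw [mulVec_add, mulVec_smul, e1, e2]
        module
      · unfold Kf at hs ⊢
        simp only [Q_add2, Q_add3, Q_add4, Q_smul2, Q_smul3, Q_smul4]
        linear_combination hs
  have hD : DecS (spS J) (Ps P 1) (wd J w₁ w) := key _ fun B c hB e1 e2 e3 => ⟨2 * c, by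
    rw [comm_wd hJ hB, hwB B c e2 e3, e1, wd_smul_left, wd_smul_right]
    module⟩
  have h0 : ev (wd J w₁ w) (Ps P 1) = 0 := by rw [ev_wd hJ hP hle, hwK, mul_zero]
  have hz : ∀ b c d, Q J P 0 b c d = 0 := by
    intro b c d
    have := Q_smul1 (J := J) P 0 0 b c d
    rwa [zero_smul, zero_mul] at this
  by_cases hu : u = 0
  · unfold Kf
    rw [hu, hz, hz, sub_zero]
  by_cases hv : v ∈ Submodule.span F {u}
  · obtain ⟨c, rfl⟩ := Submodule.mem_span_singleton.1 hv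
    unfold Kf
    rw [Q_smul3, Q_smul4, Q_smul2, Q_smul4, sub_self]
  obtain ⟨g, h, hg, e1, e2⟩ := trans3 hJ hdet h1 hu hw0 hv hwo huv
  have h4 := orbit0 hJ hg hD hh h0
  rw [conj_wd hJ hg, e1, e2, ev_wd hJ hP hle] at h4
  exact (mul_eq_zero.1 h4).resolve_left (by norm_num)

end Pool.Agent.H936.CU
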