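import Pool.Agent.H936.G.Cst
import Pool.Agent.H936.SL.Out2

/-!
# The general theorems
-/

set_option autoImplicit false
set_option linter.unusedSectionVars false
set_option linter.unusedVariables false
set_option maxHeartbeats 400000

open Matrix Module Filter PowerSeries

namespace Pool.Agent.H936.G

open Pool.Agent.Y113 (ev Cv GSys ps)
open Pool.Agent.Y120.GH (QU0)
open Pool.Agent.Y118.HV (Hv hh)
open Pool.Agent.Helper880_LF (spS mem_spS comm_mem)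
open Pool.Agent.Helper880_LF.NB (gm dm)
open Pool.Agent.Helper880_R3 (Ix ib Tot GU lieB Inf rel_all hder_seq windows)
open Pool.Agent.Y118.UL (mk U ev_ge)
open Pool.Agent.Y123.ST (fl um LL fl_um um_fl)
open Pool.Agent.TH127.PT (IsSubtorsor)
open Pool.Agent.Y119.HY (cm cm_pow cm_apply)
open Pool.Agent.Y119.HY renaming E → Ex, E_add → Ex_add, E_zero → Ex_zero, E_mul_neg → Ex_mul_neg, E_exp → Ex_exp
open Pool.Agent.Y102 (AbVar)
open Pool.Agent.H936.SL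

variable {n N r₀ g : ℕ}

/-- the period matrix of a fibre -/
noncomputable def PP (C : Mn n ℂ) (M : Matrix (Fin n) (Fin n) ℚ) (Z : Matrix (Fin n) (Fin n) ℚ⟦X⟧) (t : ℕ) : Mn n ℂ :=
  C * (Ex (cm M) (-((Real.log (t : ℝ) : ℝ) : ℂ)) * Hv Z t)

/-- the level of a sequence -/
theorem mkLev {K : Subfield ℂ} (hK : FiniteDimensional ℚ K) {A : Fin N → AbVar g} {H : Matrix (Fin (2 * g)) (Fin (2 * g)) ℚ}
    {C₀ : Matrix (Fin r₀) (Fin r₀) ℂ} {P : Fin N → Matrix (Fin (2 * g)) (Fin (2 * g)) ℂ}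
    {R : Fin N → Matrix (Fin (2 * g)) (Fin (2 * g)) ℚ} {S : Set (Matrix (Ix r₀ (2 * g) N) (Ix r₀ (2 * g) N) ℂ)}
    (hS : IsSubtorsor K S) (hr : RatGrp S) (hm : Tot C₀ P ∈ S) (hp : ∀ j, Pres (A j) H (P j) (R j)) (hd : IsUnit H.det) :
    Lev K A H C₀ P R S where
  alg := by
    intro x hx
    have : NumberField K := { to_charZero := inferInstance, to_finiteDimensional := hK }
    have h6 : IsAlgebraic ℚ (⟨x, hx⟩ : K) := Algebra.IsAlgebraic.isAlgebraic _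
    exact h6.algebraMap (A := ℂ)
  tor := hS
  rat := hr
  mem := hm
  pres := hp
  det := hd

/-- **a sequence of points**: the common part of the theorems -/
structure Pts (Z : Matrix (Fin n) (Fin n) ℚ⟦X⟧) (C : Mn n ℂ) (H M : Matrix (Fin n) (Fin n) ℚ) (N : ℕ)
    (t : ℕ → Fin N → ℕ) : Prop where
  ex : ∃ (σ : ℕ → ℂ) (z : ℕ → Fin N → Mn n ℂ), Sq (cm H⁻¹) (csq C M σ) z ∧ ∀ k j, csq C M σ k * z k j = PP C M Z (t k j)

/-- the sequences of points in windows -/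
theorem pts {Z : Matrix (Fin n) (Fin n) ℚ⟦X⟧} {T : Polynomial ℤ}
    {A : Fin (n * n) → Fin (n * n) → Polynomial ℤ}
    (hT : T ≠ 0) (hode : ∀ i, ps T * d⁄dX ℚ (hh Z i) = ∑ j, ps (A i j) * hh Z j)
    {q' : ℕ} {C' : ℝ} (hG' : GSys q' C' T (hh Z)) (hqu : QU0 T A) :
    ∃ G : ℕ, 1 ≤ G ∧ ∀ (C B : Mn n ℂ) (H M : Matrix (Fin n) (Fin n) ℚ) (θ : ℂ), Cen C H M B θ → (∀ X ∈ lieB B, Inf Z X) →
      ∀ (N : ℕ), 0 < N → ∃ E0 : ℕ, ∀ t : ℕ → Fin N → ℕ, (∀ k, Function.Injective (t k)) → (∀ k i j, t k i ≡ t k j [MOD G]) →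
      (∀ k i j, (t k i - t k j + 2) ^ (E0 + k) ≤ t k j) → (∀ k j, (Hv Z (t k j)).det ≠ 0) → Pts Z C H M N t := by
  classical
  obtain ⟨G0, hrel⟩ := rel_all hT hode hG' hqu
  refine ⟨G0 + 1, by omega, fun C B H M θ hc hI N hN => ?_⟩
  have hMc : (cm M) ^ n = 0 := by
    rw [← cm_pow, hc.nil]
    exact map_zero _
  obtain ⟨E0, hE0⟩ := hrel (G0 + 1) (by omega) N 0
  refine ⟨2 * E0, fun t hinj hmod hw hdet => ?_⟩
  have hwin : ∀ k, ∃ (H' s : ℕ) (u : Fin N → ℕ), (H' + 2) ^ (E0 + k / 2) ≤ s ∧ Function.Injective u ∧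
      (∀ j, 1 ≤ u j ∧ u j ≤ H') ∧ ∀ j, s - (G0 + 1) * u j = t k j := by
    intro k
    refine windows (by omega) hN (hinj k) (hmod k) fun i j => ?_
    refine le_trans (Nat.pow_le_pow_right (by omega) ?_) (hw k i j)
    have := Nat.div_mul_le_self k 2
    omega
  choose H' s u hH1 hH2 hH3 hH4 using hwin
  set z : ℕ → Fin N → Mn n ℂ := fun k j => Hv Z (s k - (G0 + 1) * u k j) with hz
  set μ : ℕ → Fin N → ℂ := fun k j => ((Real.log (1 - (((G0 + 1) * u k j : ℕ) : ℝ) / s k) : ℝ) : ℂ) with hμ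
  have hge : ∀ E : ℕ, ∀ᶠ k in (hyperfilter ℕ : Filter ℕ), E ≤ E0 + k / 2 := by
    intro E
    filter_upwards [ev_ge (2 * E)] with k hk
    omega
  have hlt : ∀ k, ∀ v ≤ H' k, (G0 + 1) * v < s k := fun k =>
    (hE0 (H' k) (s k) ((Nat.pow_le_pow_right (by omega) (by omega)).trans (hH1 k))).1
  have hder : ∀ i, ∀ A ∈ GU (lieB B), ∃ δ : DD,
      dm δ (gm fun k => Ex (cm M) (-(μ k i)) * z k i) = A * (gm fun k => Ex (cm M) (-(μ k i)) * z k i) ∧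
      ∀ j, j ≠ i → dm δ (gm fun k => Ex (cm M) (-(μ k j)) * z k j) = 0 := by
    intro i A hA
    refine hder_seq hc.nil hc.hM𝔤 (fun d => ?_) i hA
    obtain ⟨E, hE⟩ := hrel (G0 + 1) (by omega) N d
    filter_upwards [hge E] with k hk Y hY P hPd hP s'
    exact ((hE (H' k) (s k) ((Nat.pow_le_pow_right (by omega) hk).trans (hH1 k))).2 (u k) (hH2 k) (hH3 k)).2 Y
      (fun j => hI _ (hY j)) P hPd hP s'
  refine ⟨⟨fun k => -((Real.log (s k) : ℝ) : ℂ), fun k j => Ex (cm M) (-(μ k j)) * z k j, ?_, fun k j => ?_⟩⟩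
  · refine hc.sq _ (fun k j => ?_) hder
    rw [Matrix.det_mul]
    refine mul_ne_zero (Ex_det hc.nil _) ?_
    show (Hv Z (s k - (G0 + 1) * u k j)).det ≠ 0
    rw [hH4]
    exact hdet k j
  · have h1 := hlt k (u k j) (hH3 k j).2
    have h2 : (0 : ℝ) < s k := by exact_mod_cast (by omega : 0 < s k)
    have h3 : (((s k - (G0 + 1) * u k j : ℕ) : ℕ) : ℝ) = s k * (1 - (((G0 + 1) * u k j : ℕ) : ℝ) / s k) := by
      rw [Nat.cast_sub h1.le]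
      field_simp
    have h4 : (1 : ℝ) - (((G0 + 1) * u k j : ℕ) : ℝ) / s k ≠ 0 := by
      have h5 : ((((G0 + 1) * u k j : ℕ) : ℕ) : ℝ) < s k := by exact_mod_cast h1
      have h6 : ((((G0 + 1) * u k j : ℕ) : ℕ) : ℝ) / s k < 1 := (div_lt_one h2).2 h5
      linarith
    have h5 : ((Real.log ((s k - (G0 + 1) * u k j : ℕ) : ℝ) : ℝ) : ℂ) = ((Real.log (s k) : ℝ) : ℂ) + μ k j := by
      rw [h3, Real.log_mul h2.ne' h4, Complex.ofReal_add]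
    unfold PP
    rw [← hH4 k j, h5, neg_add, Ex_add hMc]
    show C * Ex (cm M) _ * (Ex (cm M) _ * Hv Z _) = _
    simp only [Matrix.mul_assoc]

/-- the properties of the torsor in the conclusion -/
def Fu (H : Matrix (Fin n) (Fin n) ℚ) (S : Set (Matrix (Ix r₀ n N) (Ix r₀ n N) ℂ)) : Prop :=
  ∀ i, ∀ X ∈ spS (cm H⁻¹), ib (r₀ := r₀) i X ∈ Lm S

theorem pigeon {α : Type} [Finite α] (f : ℕ → α) : ∃ a, ∀ K, ∃ k, K ≤ k ∧ f k = a := by
  obtain ⟨a, ha⟩ := Finite.exists_infinite_fiber f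
  refine ⟨a, fun K => ?_⟩
  obtain ⟨k, hk, hk'⟩ := (Set.infinite_coe_iff.1 ha).exists_gt K
  exact ⟨k, hk'.le, hk⟩

/-- the pattern of a finite family of numbers -/
theorem pattern {α : Type} [Fintype α] (T : α → ℕ) : ∃ (m : Fin (Fintype.card α + 1)) (e : α → Fin m) (t : Fin m → ℕ),
    Function.Injective t ∧ (∀ x, t (e x) = T x) ∧ ∀ i, ∃ x, e x = i := by
  classical
  set s := Finset.univ.image T with hs
  have hc : s.card < Fintype.card α + 1 := Nat.lt_succ_of_le (Finset.card_image_le)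
  refine ⟨⟨s.card, hc⟩, fun x => s.equivFin ⟨T x, Finset.mem_image_of_mem _ (Finset.mem_univ _)⟩,
    fun i => (s.equivFin.symm i).1, ?_, ?_, ?_⟩
  · intro i j hij
    exact s.equivFin.symm.injective (Subtype.ext hij)
  · intro x
    show (s.equivFin.symm (s.equivFin _)).1 = T x
    rw [Equiv.symm_apply_apply]
  · intro i
    have h1 := (s.equivFin.symm i).2
    obtain ⟨x, -, hx⟩ := Finset.mem_image.1 h1
    refine ⟨x, ?_⟩
    apply s.equivFin.symm.injective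
    rw [Equiv.symm_apply_apply]
    exact Subtype.ext hx

/-- **at most one exceptional fibre** -/
theorem fin_exc (hg : 2 ≤ g) {Z : Matrix (Fin (2 * g)) (Fin (2 * g)) ℚ⟦X⟧} {T : Polynomial ℤ}
    {A : Fin (2 * g * (2 * g)) → Fin (2 * g * (2 * g)) → Polynomial ℤ}
    (hT : T ≠ 0) (hode : ∀ i, ps T * d⁄dX ℚ (hh Z i) = ∑ j, ps (A i j) * hh Z j)
    {q' : ℕ} {C' : ℝ} (hG' : GSys q' C' T (hh Z)) (hqu : QU0 T A) :
    ∃ G : ℕ, 1 ≤ G ∧ ∀ (C B : Mn (2 * g) ℂ) (H M : Matrix (Fin (2 * g)) (Fin (2 * g)) ℚ) (θ : ℂ), Cen C H M B θ →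
      (∀ X ∈ lieB B, Inf Z X) → ∀ (N D r₀ : ℕ) (C₀ : Matrix (Fin r₀) (Fin r₀) ℂ), C₀.det ≠ 0 →
      (∀ σ : ℕ → ℂ, FewG (finrank (U ℂ) (spS (cu (cm H⁻¹))) + (2 * g - 1)) (csq C M σ) C₀) →
      ∃ E : ℕ, ∀ a b c : ℕ, (b - a + 2) ^ E ≤ a → ∃ t₀ : ℕ, ∀ t : Fin N → ℕ, Function.Injective t →
      (∀ j, a ≤ t j ∧ t j ≤ b ∧ t j ≡ c [MOD G] ∧ t j ≠ t₀) →
      (∀ j, ∃ (A : AbVar g) (R : Matrix (Fin (2 * g)) (Fin (2 * g)) ℚ), Pres A H (PP C M Z (t j)) R) →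
      (∀ j, (Hv Z (t j)).det ≠ 0) →
      ∀ K : Subfield ℂ, FiniteDimensional ℚ K → finrank ℚ K ≤ D →
      ∀ S : Set (Matrix (Ix r₀ (2 * g) N) (Ix r₀ (2 * g) N) ℂ),
      IsSubtorsor K S → RatGrp S → Tot C₀ (fun j => PP C M Z (t j)) ∈ S → Fu H S := by
  classical
  obtain ⟨G, hG, hpts⟩ := pts hT hode hG' hqu
  refine ⟨G, hG, fun C B H M θ hc hI N D r₀ C₀ hC0 hfew => ?_⟩
  by_contra hcon
  simp only [not_exists, not_forall] at hcon
  choose a b c hab t hinj hrange hpres hdet K hK hKD S hS hSr hmem hbad using hcon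
  choose Av Rv hAR using hpres
  -- the bad tuples
  let q : ℕ → Option (Fin N) → ℕ := fun k x => x.elim 0 fun i => t k 0 i
  obtain ⟨⟨m, e⟩, hme⟩ := pigeon (α := (m : Fin (Fintype.card (Option (Fin N) × Fin N) + 1)) × (Option (Fin N) × Fin N → Fin m))
    fun k => ⟨(pattern fun x : Option (Fin N) × Fin N => t k (q k x.1) x.2).choose,
      (pattern fun x : Option (Fin N) × Fin N => t k (q k x.1) x.2).choose_spec.choose⟩
  have hpat : ∀ K, ∃ k, K ≤ k ∧ ∃ s : Fin m → ℕ, Function.Injective s ∧ (∀ x : Option (Fin N) × Fin N,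
      s (e x) = t k (q k x.1) x.2) ∧ ∀ i, ∃ x, e x = i := by
    intro K
    obtain ⟨k, hk, hk'⟩ := hme K
    refine ⟨k, hk, ?_⟩
    have h1 := (pattern fun x : Option (Fin N) × Fin N => t k (q k x.1) x.2).choose_spec.choose_spec
    have h2 := (Sigma.mk.inj_iff.1 hk').1
    have h3 := (Sigma.mk.inj_iff.1 hk').2
    subst h2
    rw [heq_eq_eq] at h3
    subst h3
    exact h1
  have hN0 : Nonempty (Fin N) := by
    by_contra hcon
    refine hbad 0 0 fun i => ?_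
    exact absurd ⟨i⟩ hcon
  obtain ⟨i₀⟩ := hN0
  have hm : 0 < (m : ℕ) := Fin.pos (e (none, i₀))
  obtain ⟨E0, hE0⟩ := hpts C B H M θ hc hI m hm
  choose φ hφ s hs1 hs2 hs3 using fun k => hpat (E0 + k)
  -- the points
  have hsr : ∀ k i, a (φ k) ≤ s k i ∧ s k i ≤ b (φ k) ∧ s k i ≡ c (φ k) [MOD G] := by
    intro k i
    obtain ⟨x, rfl⟩ := hs3 k i
    rw [hs2]
    obtain ⟨h1, h2, h3, -⟩ := hrange (φ k) (q (φ k) x.1) x.2
    exact ⟨h1, h2, h3⟩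
  have hw : ∀ k i j, (s k i - s k j + 2) ^ (E0 + k) ≤ s k j := by
    intro k i j
    have h1 := hsr k i
    have h2 := hsr k j
    calc (s k i - s k j + 2) ^ (E0 + k) ≤ (b (φ k) - a (φ k) + 2) ^ (E0 + k) := Nat.pow_le_pow_left (by omega) _
      _ ≤ (b (φ k) - a (φ k) + 2) ^ (φ k) := Nat.pow_le_pow_right (by omega) (hφ k)
      _ ≤ a (φ k) := hab (φ k)
      _ ≤ _ := h2.1
  have hdet' : ∀ k i, (Hv Z (s k i)).det ≠ 0 := by
    intro k i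
    obtain ⟨x, rfl⟩ := hs3 k i
    rw [hs2]
    exact hdet _ _ _
  obtain ⟨σ, z, hsq, hzP⟩ := (hE0 s hs1 (fun k i j => (hsr k i).2.2.trans (hsr k j).2.2.symm) hw hdet').ex
  have hlev : ∀ x k, Lev (K (φ k) (q (φ k) x)) (fun i => Av (φ k) (q (φ k) x) i) H C₀
      (fun i => PP C M Z (t (φ k) (q (φ k) x) i)) (fun i => Rv (φ k) (q (φ k) x) i) (S (φ k) (q (φ k) x)) := fun x k =>
    mkLev (hK _ _) (hS _ _) (hSr _ _) (hmem _ _) (fun i => hAR _ _ _) hc.hd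
  obtain ⟨p, hp⟩ := hsq.core2 hc.skewJ (cm_unit' hc.hd) (by omega) hC0 (ι := Option (Fin N)) none (e := fun x i => e (x, i))
    (fun x i j hij => by
      have h1 := congrArg (s 0) hij
      simp only [hs2] at h1
      exact hinj _ _ h1)
    (K := fun x k => K (φ k) (q (φ k) x)) (fun x k => hK _ _)
    (fun x k => hKD _ _) (T := fun x k => S (φ k) (q (φ k) x)) (fun x k => hS _ _) (fun x k => by
      simp only [hzP, hs2]
      exact hmem _ _) (fun x k i => (hlev x k).TN hc.skew i) (fun x k i => (hlev x k).ne (by omega) i) (hfew σ)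
    (fun x hx => by
      obtain ⟨k, hk⟩ := hx.exists
      exact hbad _ _ hk)
  obtain ⟨i, hi⟩ := hp none
  obtain ⟨j, hj⟩ := hp (some i)
  have h1 := hs2 0 (none, i)
  have h2 := hs2 0 (some i, j)
  rw [hi] at h1
  rw [hj] at h2
  obtain ⟨-, -, -, h3⟩ := hrange (φ 0) (q (φ 0) (some i)) j
  apply h3
  show t (φ 0) (q (φ 0) (some i)) j = t (φ 0) (q (φ 0) none) i
  rw [← h1, ← h2]

/-- **all fibres** -/
theorem fin_good (hg : 2 ≤ g) {Z : Matrix (Fin (2 * g)) (Fin (2 * g)) ℚ⟦X⟧} {T : Polynomial ℤ}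
    {A : Fin (2 * g * (2 * g)) → Fin (2 * g * (2 * g)) → Polynomial ℤ}
    (hT : T ≠ 0) (hode : ∀ i, ps T * d⁄dX ℚ (hh Z i) = ∑ j, ps (A i j) * hh Z j)
    {q' : ℕ} {C' : ℝ} (hG' : GSys q' C' T (hh Z)) (hqu : QU0 T A) :
    ∃ G : ℕ, 1 ≤ G ∧ ∀ (C B : Mn (2 * g) ℂ) (H M : Matrix (Fin (2 * g)) (Fin (2 * g)) ℚ) (θ : ℂ), Cen C H M B θ →
      (∀ X ∈ lieB B, Inf Z X) → ∀ (N D r₀ : ℕ) (C₀ : Matrix (Fin r₀) (Fin r₀) ℂ), 0 < N → C₀.det ≠ 0 →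
      (∀ σ : ℕ → ℂ, FewG (finrank (U ℂ) (spS (cu (cm H⁻¹)))) (csq C M σ) C₀) →
      (∀ σ : ℕ → ℂ, ∃ 𝔉 : Submodule (U ℂ) (Mn (2 * g) (U ℂ)), 𝔉 ≤ spS (cu (cm H⁻¹)) ∧
        (∀ δ : DD, ∃ c : U ℂ, ld (csq C M σ) δ + c • (1 : Mn (2 * g) (U ℂ)) ∈ 𝔉) ∧
        (∀ 𝔩 : Submodule (U ℂ) (Mn (2 * g) (U ℂ)), 𝔩 ≤ spS (cu (cm H⁻¹)) → TN 𝔩 → (∀ X ∈ spS (cu (cm H⁻¹)), ∃ Z B, X = Z + B ∧
      Z ∈ spS (cu (cm H⁻¹)) ∧ B ∈ 𝔉 ∧ ∀ Y ∈ 𝔩, Z * Y - Y * Z ∈ 𝔩) → 𝔩 = ⊥ ∨ 𝔩 = spS (cu (cm H⁻¹)))) →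
      ∃ E : ℕ, ∀ t : Fin N → ℕ, Function.Injective t → (∀ i j, t i ≡ t j [MOD G]) → (∀ i j, (t i - t j + 2) ^ E ≤ t j) →
      (∀ j, ∃ (A : AbVar g) (R : Matrix (Fin (2 * g)) (Fin (2 * g)) ℚ), Pres A H (PP C M Z (t j)) R) →
      (∀ j, (Hv Z (t j)).det ≠ 0) →
      ∀ K : Subfield ℂ, FiniteDimensional ℚ K → finrank ℚ K ≤ D →
      ∀ S : Set (Matrix (Ix r₀ (2 * g) N) (Ix r₀ (2 * g) N) ℂ),
      IsSubtorsor K S → RatGrp S → Tot C₀ (fun j => PP C M Z (t j)) ∈ S → Fu H S := by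
  classical
  obtain ⟨G, hG, hpts⟩ := pts hT hode hG' hqu
  refine ⟨G, hG, fun C B H M θ hc hI N D r₀ C₀ hN hC0 hfew hgood => ?_⟩
  obtain ⟨E0, hE0⟩ := hpts C B H M θ hc hI N hN
  by_contra hcon
  simp only [not_exists, not_forall] at hcon
  choose t hinj hmod hw hpres hdet K hK hKD S hS hSr hmem hbad using fun k : ℕ => hcon (E0 + k)
  choose Av Rv hAR using hpres
  obtain ⟨σ, z, hsq, hzP⟩ := (hE0 t hinj hmod hw hdet).ex
  have hlev : ∀ k, Lev (K k) (Av k) H C₀ (fun i => PP C M Z (t k i)) (Rv k) (S k) := fun k =>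
    mkLev (hK k) (hS k) (hSr k) (hmem k) (fun i => hAR k _) hc.hd
  obtain ⟨𝔉, h1, h2, h3⟩ := hgood σ
  have hj := hsq.core1 hc.skewJ (cm_unit' hc.hd) hC0 hK hKD hS (fun k => by
      simp only [hzP]
      exact hmem k) (fun k i => (hlev k).TN hc.skew i) (fun k i => (hlev k).ne (by omega) i) h1 h2 h3 (hfew σ)
  obtain ⟨k, hk⟩ := hj.exists
  exact hbad k hk

end Pool.Agent.H936.G
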