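import Pool.Agent.H936.G.Cusp
import Pool.Agent.H936.G.Fin

/-!
# Degenerate centres
-/

set_option autoImplicit false
set_option linter.unusedSectionVars false
set_option linter.unusedVariables false
set_option maxHeartbeats 400000

open Matrix Module Filter

namespace Pool.Agent.H936.G

open Pool.Agent.Helper880_LF (om om_add_left om_add_right om_smul_left om_smul_right om_swap om_self pr spS mem_spS comm_mem
  pr_mem pr_mulVec)
open Pool.Agent.Helper880_LF.NB (gm gm_mul gm_kt kt kt_apply dm dm_mul dm_smul kerD mem_kerD ker_alg ker_adj gm_apply)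
open Pool.Agent.Helper880_R3 (Ix ib Tot Few)
open Pool.Agent.Y118.UL (mk U)
open Pool.Agent.Y119.HY (cm cm_apply cm_mul cm_one cm_transpose cm_zero cm_add cm_neg cm_pow)
open Pool.Agent.H936.SL

/-! ### the matrices which act on some vectors by one scalar -/

section
variable {F : Type} [Field F] {n k : ℕ}

/-- the symplectic matrices which act on the vectors by one scalar -/
def SC (J : Mn n F) (w : Fin k → Fin n → F) : Submodule F (Mn n F) where
  carrier := {X | X ∈ spS J ∧ ∃ c : F, ∀ i, X *ᵥ w i = c • w i}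
  zero_mem' := ⟨(spS J).zero_mem, 0, fun i => by rw [zero_mulVec, zero_smul]⟩
  add_mem' := by
    rintro a b ⟨h1, c, h2⟩ ⟨h3, d, h4⟩
    exact ⟨(spS J).add_mem h1 h3, c + d, fun i => by rw [add_mulVec, h2, h4, add_smul]⟩
  smul_mem' := by
    rintro r a ⟨h1, c, h2⟩
    exact ⟨(spS J).smul_mem r h1, r * c, fun i => by rw [smul_mulVec, h2, smul_smul]⟩

theorem SC_le (J : Mn n F) (w : Fin k → Fin n → F) : SC J w ≤ spS J := fun _ h => h.1

theorem dimI {V W : Type} [AddCommGroup V] [Module F V] [FiniteDimensional F V] [AddCommGroup W] [Module F W]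
    (f : V →ₗ[F] W) (p : Submodule F V) :
    finrank F (p.map f) + finrank F (p ⊓ LinearMap.ker f : Submodule F V) = finrank F p := by
  have h1 := LinearMap.finrank_range_add_finrank_ker (f.domRestrict p)
  have h2 : finrank F (LinearMap.range (f.domRestrict p)) = finrank F (p.map f) := by
    rw [LinearMap.range_domRestrict]
  have h3 : finrank F (LinearMap.ker (f.domRestrict p)) = finrank F (p ⊓ LinearMap.ker f : Submodule F V) := by
    have e := Submodule.finrank_map_subtype_eq p (LinearMap.ker (f.domRestrict p))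
    have e2 : Submodule.map p.subtype (LinearMap.ker (f.domRestrict p)) = p ⊓ LinearMap.ker f := by
      rw [LinearMap.ker_domRestrict, Submodule.map_comap_subtype]
    rw [e2] at e
    exact e.symm
  rw [h2, h3] at h1
  exact h1

/-- the dimension -/
theorem SC_dim [CharZero F] {J : Mn n F} (hJ : Jᵀ = -J) (hdet : IsUnit J.det) {w : Fin k → Fin n → F} {i : Fin k}
    (hw : w i ≠ 0) : finrank F (SC J w) + n ≤ finrank F (spS J) + 1 := by
  let L : Mn n F →ₗ[F] (Fin n → F) :=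
    { toFun := fun X => X *ᵥ w i
      map_add' := fun X Y => add_mulVec _ _ _
      map_smul' := fun c X => smul_mulVec _ _ _ }
  have hsurj : (spS J).map L = ⊤ := by
    rw [eq_top_iff]
    intro b _
    obtain ⟨a, ha⟩ := exists_nonorth hJ hdet hw
    have ha' : om J a (w i) ≠ 0 := by rw [om_swap hJ]; exact neg_ne_zero.2 ha
    refine ⟨(om J a (w i))⁻¹ • (pr J a b - (om J b (w i) * (om J a (w i))⁻¹ / 2) • pr J a a), ?_, ?_⟩
    · exact (spS J).smul_mem _ ((spS J).sub_mem (pr_mem hJ _ _) ((spS J).smul_mem _ (pr_mem hJ _ _)))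
    · show ((om J a (w i))⁻¹ • (pr J a b - (om J b (w i) * (om J a (w i))⁻¹ / 2) • pr J a a)) *ᵥ w i = b
      rw [smul_mulVec, sub_mulVec, smul_mulVec, pr_mulVec, pr_mulVec]
      set x := om J a (w i)
      set y := om J b (w i)
      have e1 : (y * x⁻¹ / 2) • (x • a + x • a) = y • a := by
        rw [← two_smul F (x • a), smul_smul, smul_smul]
        congr 1
        field_simp
      rw [e1]
      have e2 : x • b + y • a - y • a = x • b := by abel
      have e3 : y • a + x • b - y • a = x • b := by abel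
      first
        | rw [e2, smul_smul, inv_mul_cancel₀ ha', one_smul]
        | rw [e3, smul_smul, inv_mul_cancel₀ ha', one_smul]
  have h1 := dimI L (spS J)
  rw [hsurj, finrank_top, Module.finrank_fin_fun] at h1
  have h2 := dimI L (SC J w)
  have h4 : finrank F ((SC J w).map L) ≤ 1 := by
    have h5 : (SC J w).map L ≤ Submodule.span F {w i} := by
      rintro _ ⟨X, hX, rfl⟩
      obtain ⟨-, c, hc⟩ := hX
      exact Submodule.mem_span_singleton.2 ⟨c, (hc i).symm⟩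
    have h6 := finrank_span_le_card (R := F) ({w i} : Set (Fin n → F))
    have h7 := Submodule.finrank_mono h5
    simp at h6
    exact h7.trans h6
  have h5 : finrank F (SC J w ⊓ LinearMap.ker L : Submodule F (Mn n F)) ≤
      finrank F (spS J ⊓ LinearMap.ker L : Submodule F (Mn n F)) :=
    Submodule.finrank_mono (inf_le_inf_right _ (SC_le J w))
  rw [← h1, ← h2]
  calc _ ≤ 1 + finrank F (spS J ⊓ LinearMap.ker L : Submodule F (Mn n F)) + n :=
        Nat.add_le_add_right (Nat.add_le_add h4 h5) n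
    _ = _ := by ring

end

/-! ### the constants -/

variable {n N r₀ g : ℕ}

/-- **a centre with three classes of torus type** -/
def Cus (C : Mn n ℂ) (H M : Matrix (Fin n) (Fin n) ℚ) : Prop :=
  ∃ (v : Fin 3 → Fin n → ℂ) (w : Fin 3 → Fin n → ℚ) (κ : ℂ), κ ≠ 0 ∧ (∀ i j, IsAlgebraic ℚ (v i j)) ∧
    (∀ i, C *ᵥ v i = κ • fun j => (w i j : ℂ)) ∧ (∀ i, cm M *ᵥ v i = 0) ∧ LinearIndependent ℚ w ∧
    ∀ i, w 0 ⬝ᵥ (H⁻¹ *ᵥ w i) = 0

theorem der_mulVec (δ : DD) (X : Mn n (U ℂ)) (v : Fin n → U ℂ) :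
    (fun i => δ ((X *ᵥ v) i)) = dm δ X *ᵥ v + X *ᵥ fun i => δ (v i) := by
  funext i
  simp only [mulVec, dotProduct, Pi.add_apply, map_sum, Derivation.leibniz, smul_eq_mul, dm, Matrix.map_apply,
    Finset.sum_add_distrib]
  rw [add_comm]
  congr 1
  exact Finset.sum_congr rfl fun k _ => mul_comm _ _

theorem cu_mulVec (C : Mn n ℂ) (v : Fin n → ℂ) : cu C *ᵥ (fun i => kt (v i)) = fun i => kt ((C *ᵥ v) i) := by
  funext i
  simp only [mulVec, dotProduct, map_sum, map_mul]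
  rfl

/-- the vectors of torus type are eigenvectors of the logarithmic derivatives -/
theorem ld_eig {C : Mn n ℂ} (hC : IsUnit C.det) {v : Fin n → ℂ} {w : Fin n → ℚ} {κ : ℂ} (hκ : κ ≠ 0)
    (hv : ∀ j, IsAlgebraic ℚ (v j)) (h : C *ᵥ v = κ • fun j => (w j : ℂ)) (δ : DD) :
    ld (fun _ => C) δ *ᵥ (fun j => kt (w j : ℂ)) = (δ (kt κ) / kt κ) • fun j => kt (w j : ℂ) := by
  have hκ' : kt κ ≠ 0 := (map_ne_zero kt).2 hκ
  have h1 : cu C *ᵥ (fun j => kt (v j)) = kt κ • fun j => kt (w j : ℂ) := by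
    rw [cu_mulVec, h]
    funext j
    simp only [Pi.smul_apply, smul_eq_mul, map_mul]
  have hkv : (fun j => δ (kt (v j))) = 0 := by
    funext j
    refine ker_adj (Ω := U ℂ) kt (s := ∅) (by simp) ?_
    rw [IntermediateField.adjoin_empty]
    exact (hv j).extendScalars (algebraMap ℚ (⊥ : IntermediateField ℚ ℂ)).injective
  have h2 : (fun j => δ ((kt κ • fun j => kt (w j : ℂ)) j)) = δ (kt κ) • fun j => kt (w j : ℂ) := by
    funext j
    simp only [Pi.smul_apply, smul_eq_mul, Derivation.leibniz]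
    have e1 : δ (kt (w j : ℂ)) = 0 := by
      have e2 : kt (w j : ℂ) = algebraMap ℚ (U ℂ) (w j) := by
        rw [map_ratCast]
        simp
      rw [e2]
      have e3 : algebraMap ℚ (U ℂ) (w j) = ((w j : ℚ) : U ℂ) := by simp
      rw [e3]
      have e4 : (((w j : ℚ) : U ℂ)) = algebraMap (U ℚ) (U ℂ) ((w j : ℚ) : U ℚ) := by rw [map_ratCast]
      rw [e4]
      exact Derivation.map_algebraMap _ _
    rw [e1]
    ring
  have h3 := der_mulVec δ (cu C) fun j => kt (v j)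
  rw [h1, h2, hkv, mulVec_zero, add_zero] at h3
  have hu := cu_unit hC
  have h4 : (cu C)⁻¹ *ᵥ (fun j => kt (w j : ℂ)) = (kt κ)⁻¹ • fun j => kt (v j) := by
    have h5 : (fun j => kt (w j : ℂ)) = (kt κ)⁻¹ • (cu C *ᵥ fun j => kt (v j)) := by
      rw [h1, smul_smul, inv_mul_cancel₀ hκ', one_smul]
    rw [h5, mulVec_smul, mulVec_mulVec, Matrix.nonsing_inv_mul _ hu, one_mulVec]
  rw [ld_apply]
  show (dm δ (cu C) * (cu C)⁻¹) *ᵥ _ = _
  rw [← mulVec_mulVec, h4, mulVec_smul, ← h3, smul_smul, mul_comm, div_eq_mul_inv]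

/-! ### independence -/

theorem indep_kt {w : Fin 3 → Fin n → ℚ} (h : LinearIndependent ℚ w) (c : Fin 3 → U ℂ)
    (hc : ∑ i, c i • (fun j => kt (w i j : ℂ)) = 0) (l : Fin 3) : c l = 0 := by
  obtain ⟨f, hf⟩ := LinearMap.exists_leftInverse_of_injective (Fintype.linearCombination ℚ w)
    (LinearMap.ker_eq_bot.2 h.fintypeLinearCombination_injective)
  have h1 : ∀ i, f (w i) = Pi.single i 1 := by
    intro i
    have h2 := congrArg (fun F : (Fin 3 → ℚ) →ₗ[ℚ] (Fin 3 → ℚ) => F (Pi.single i 1)) hf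
    simpa [Fintype.linearCombination_apply_single] using h2
  have h2 : ∀ i, ∑ j, kt (w i j : ℂ) * kt ((f (Pi.single j 1) l : ℚ) : ℂ) = if i = l then 1 else 0 := by
    intro i
    have h3 : ∑ j, w i j * f (Pi.single j 1) l = if i = l then 1 else 0 := by
      have h4 : w i = ∑ j, w i j • (Pi.single j 1 : Fin n → ℚ) := by
        funext a
        simp [Finset.sum_apply, Pi.single_apply]
      have h5 := congrArg (fun x => f x l) h4
      simp only [map_sum, map_smul, Finset.sum_apply, Pi.smul_apply, smul_eq_mul] at h5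
      rw [← h5, h1, Pi.single_apply]
      simp only [eq_comm]
    have h4 := congrArg (fun x : ℚ => kt (x : ℂ)) h3
    simp only [Rat.cast_sum, Rat.cast_mul, map_sum, map_mul] at h4
    rw [h4]
    split_ifs <;> simp
  have h3 := congrArg (fun v : Fin n → U ℂ => ∑ j, v j * kt ((f (Pi.single j 1) l : ℚ) : ℂ)) hc
  simp only [Finset.sum_apply, Pi.smul_apply, smul_eq_mul, Pi.zero_apply, zero_mul, Finset.sum_const_zero, Finset.sum_mul] at h3
  rw [Finset.sum_comm] at h3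
  simp only [mul_assoc, ← Finset.mul_sum, h2] at h3
  simpa using h3

/-- the data of a degenerate centre -/
theorem cus_data {C B : Mn n ℂ} {H M : Matrix (Fin n) (Fin n) ℚ} {θ : ℂ} (hn : 3 ≤ n) (h : Cen C H M B θ)
    (hcus : Cus C H M) : ∃ 𝔉 : Submodule (U ℂ) (Mn n (U ℂ)), 𝔉 ≤ spS (cu (cm H⁻¹)) ∧
      finrank (U ℂ) 𝔉 + n ≤ finrank (U ℂ) (spS (cu (cm H⁻¹))) + 1 ∧
      (∀ δ : DD, ∃ c : U ℂ, ld (fun _ => C) δ + c • (1 : Mn n (U ℂ)) ∈ 𝔉) ∧
      (∀ (σ : ℕ → ℂ) (δ : DD), ∃ c : U ℂ, ld (csq C M σ) δ + c • (1 : Mn n (U ℂ)) ∈ 𝔉) ∧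
      (∀ 𝔩 : Submodule (U ℂ) (Mn n (U ℂ)), 𝔩 ≤ spS (cu (cm H⁻¹)) → TN 𝔩 → (∀ X ∈ spS (cu (cm H⁻¹)), ∃ Z B, X = Z + B ∧
      Z ∈ spS (cu (cm H⁻¹)) ∧ B ∈ 𝔉 ∧ ∀ Y ∈ 𝔩, Z * Y - Y * Z ∈ 𝔩) → 𝔩 = ⊥ ∨ 𝔩 = spS (cu (cm H⁻¹))) := by
  obtain ⟨v, w, κ, hκ, hv, hC, hM, hli, ho⟩ := hcus
  set w' : Fin 3 → Fin n → U ℂ := fun i j => kt (w i j : ℂ) with hw'
  have hJ := cu_skew h.skewJ
  have hdet := cu_unit (cm_unit' h.hd)
  have hind := indep_kt hli
  have key : ∀ a b c : U ℂ, a • w' 0 + b • w' 1 + c • w' 2 = 0 → a = 0 ∧ b = 0 ∧ c = 0 := by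
    intro a b c habc
    have h1 : ∑ i, (![a, b, c] : Fin 3 → U ℂ) i • (fun j => kt (w i j : ℂ)) = 0 := by
      rw [Fin.sum_univ_three]
      exact habc
    exact ⟨hind _ h1 0, hind _ h1 1, hind _ h1 2⟩
  have hw0 : w' 0 ≠ 0 := by
    intro h0
    have := (key 1 0 0 (by rw [h0]; simp)).1
    exact one_ne_zero this
  have eig : ∀ (δ : DD) (i : Fin 3), ld (fun _ => C) δ *ᵥ w' i = (δ (kt κ) / kt κ) • w' i := fun δ i =>
    ld_eig h.cd hκ (hv i) (hC i) δ
  have hCM : ∀ i, cu (C * cm M * C⁻¹) *ᵥ w' i = 0 := by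
    intro i
    have h1 : C⁻¹ *ᵥ (fun j => (w i j : ℂ)) = κ⁻¹ • v i := by
      have h2 : (fun j => (w i j : ℂ)) = κ⁻¹ • (C *ᵥ v i) := by
        rw [hC, smul_smul, inv_mul_cancel₀ hκ, one_smul]
      rw [h2, mulVec_smul, mulVec_mulVec, Matrix.nonsing_inv_mul _ h.cd, one_mulVec]
    have h2 : (C * cm M * C⁻¹) *ᵥ (fun j => (w i j : ℂ)) = 0 := by
      rw [← mulVec_mulVec, ← mulVec_mulVec, h1, mulVec_smul, hM, smul_zero, mulVec_zero]
    have h3 := cu_mulVec (C * cm M * C⁻¹) fun j => (w i j : ℂ)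
    rw [h2] at h3
    refine h3.trans ?_
    funext j
    simp
  have horth : ∀ i, om (cu (cm H⁻¹)) (w' 0) (w' i) = 0 := by
    intro i
    have h1 : om (cu (cm H⁻¹)) (w' 0) (w' i) = kt ((fun j => (w 0 j : ℂ)) ⬝ᵥ (cm H⁻¹ *ᵥ fun j => (w i j : ℂ))) := by
      have h2 : om (cu (cm H⁻¹)) (w' 0) (w' i) = w' 0 ⬝ᵥ (cu (cm H⁻¹) *ᵥ w' i) := rfl
      rw [h2, hw', cu_mulVec]
      simp only [dotProduct, map_sum, map_mul]
    rw [h1]
    have h2 : (fun j => (w 0 j : ℂ)) ⬝ᵥ (cm H⁻¹ *ᵥ fun j => (w i j : ℂ)) = ((w 0 ⬝ᵥ (H⁻¹ *ᵥ w i) : ℚ) : ℂ) := by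
      simp only [dotProduct, mulVec, cm_apply]
      push_cast
      rfl
    rw [h2, ho]
    simp
  refine ⟨SC (cu (cm H⁻¹)) w', SC_le _ _, SC_dim hJ hdet hw0, fun δ => ?_, fun σ δ => ?_, fun 𝔩 hle hTN hdec => ?_⟩
  · obtain ⟨c, hc⟩ := h.gsC δ
    exact ⟨c, hc, δ (kt κ) / kt κ + c, fun i => by rw [add_mulVec, eig, smul_mulVec, one_mulVec, add_smul]⟩
  · obtain ⟨c, hc⟩ := h.gs σ δ
    refine ⟨c, hc, δ (kt κ) / kt κ + c, fun i => ?_⟩
    rw [ld_csq h.cd h.nil, add_mulVec, add_mulVec, eig, smul_mulVec, smul_mulVec, one_mulVec, hCM, smul_zero, add_zero,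
      add_smul]
  · refine Pool.Agent.H936.CU.thmD hJ hdet hn hTN hle (w₁ := w' 0) (w₂ := w' 1) (w₃ := w' 2) hw0 ?_ ?_ ?_ (horth 1) (horth 2)
      fun X hX => ?_
    · intro h1
      obtain ⟨c, hc⟩ := Submodule.mem_span_singleton.1 h1
      have := (key (-c) 1 0 (by rw [neg_smul, hc]; simp)).2.1
      exact one_ne_zero this
    · intro h1
      obtain ⟨c, hc⟩ := Submodule.mem_span_singleton.1 h1
      have := (key (-c) 0 1 (by rw [neg_smul, hc]; simp)).2.2
      exact one_ne_zero this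
    · intro s h1
      obtain ⟨c, hc⟩ := Submodule.mem_span_singleton.1 h1
      have := (key (-c) 1 s (by rw [neg_smul, hc, one_smul]; abel)).2.1
      exact one_ne_zero this
    · obtain ⟨Z, B', e, hZ, ⟨-, c, hB⟩, hl⟩ := hdec X hX
      exact ⟨Z, B', e, hZ, ⟨c, hB 0, hB 1, hB 2⟩, hl⟩

end Pool.Agent.H936.G
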