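import Pool.Agent.H936.G.Lead

/-!
# Factorisations of the symplectic Lie algebra
-/

set_option autoImplicit false
set_option linter.unusedSectionVars false
set_option linter.unusedVariables false

open Matrix Module MvPolynomial

namespace Pool.Agent.H936.G

open Pool.Agent.Helper880_LF
open Pool.Agent.H936.SL hiding Hm cst ev BX DX Us Dec Van bm DX_X DX_add DX_comm DX_Us Us_Z Us_van ev_X ev_C ev_bm ev_cst
  dmap_mul DX_bm DX_cst cst_mul cst_add cst_sub cst_smul BX_map ev_BX ev_DX_zero evp evp_der evp_eval evp_const iter_mem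
  Van.step map_mulm pC_mul der_pC der_mulm tr_inv

variable {F : Type} [Field F] {n : ℕ} {J : Matrix (Fin n) (Fin n) F} [CharZero F]

/-- the case of a vanishing quartic form and a vanishing defect -/
theorem end_Q4 (hJ : Jᵀ = -J) (hdet : IsUnit J.det) (hn : 3 ≤ n) {𝔩 : Submodule F (Mn n F)} {P : Mn n F →ₗ[F] Mn n F}
    (hTN : TN 𝔩) (hP : IsPr 𝔩 P) (hle : 𝔩 ≤ spS J) (hQ4 : ∀ u, Q J P u u u u = 0)
    (hK : ∀ u v, om J u v = 0 → Kf J P u v = 0) : 𝔩 = ⊥ ∨ 𝔩 = spS J := by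
  have hQ2 : ∀ u v, Q J P u v u v = -(1 / 2) * Q J P u u v v := by
    intro u v
    have e1 := hQ4 (u + v)
    have e2 := hQ4 (u + (-1 : F) • v)
    have e3 := hQ4 u
    have e4 := hQ4 v
    simp only [Q_add1, Q_add2, Q_add3, Q_add4, Q_smul1, Q_smul2, Q_smul3, Q_smul4] at e1 e2
    have s1 : Q J P u v v u = Q J P u v u v := by rw [Q_s34]
    have s2 : Q J P v u u v = Q J P u v u v := by rw [Q_s12]
    have s3 : Q J P v u v u = Q J P u v u v := by rw [Q_s12, Q_s34]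
    have s4 : Q J P v v u u = Q J P u u v v := by rw [Q_swap hJ hP]
    rw [s1, s2, s3, s4] at e1 e2
    linear_combination (1 / 8) * e1 + (1 / 8) * e2 - (1 / 4) * e3 - (1 / 4) * e4
  obtain ⟨m, hm, hmS⟩ := division hJ hP hdet hK
  have hQ3 : ∀ u v, Q J P u u v v = (2 / 3) * (om J u v * om J (m *ᵥ u) v) := by
    intro u v
    have h2 := hm u v
    unfold Kf at h2
    rw [hQ2] at h2
    linear_combination (2 / 3) * h2
  set m₁ : Mn n F := (-(1 / 6) : F) • m with hm₁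
  have hm₁v : ∀ u, m₁ *ᵥ u = (-(1 / 6) : F) • (m *ᵥ u) := fun u => smul_mulVec _ _ _
  have hPuu : ∀ u, P (pr J u u) = pr J u (m₁ *ᵥ u) := by
    intro u
    have h2 : ∀ v, Matrix.trace (P (pr J u u) * pr J v v) = Matrix.trace (pr J u (m₁ *ᵥ u) * pr J v v) := by
      intro v
      have e1 := hQ3 u v
      have e2 := br_val hJ u (m₁ *ᵥ u) v v
      unfold br at e2
      unfold Q at e1
      rw [e1, e2, hm₁v, om_smul_right, om_swap hJ v]
      ring
    refine spS_ext hJ hdet (hle (hP.mem _)) (pr_mem hJ _ _) fun c d => ?_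
    have e1 := h2 (c + d)
    rw [pr_add_left, pr_add_right, pr_add_right, pr_symm d c] at e1
    simp only [Matrix.mul_add, Matrix.trace_add] at e1
    rw [h2 c, h2 d] at e1
    have e2 : (2 : F) * (Matrix.trace (P (pr J u u) * pr J c d) - Matrix.trace (pr J u (m₁ *ᵥ u) * pr J c d)) = 0 := by
      linear_combination e1
    exact sub_eq_zero.1 ((mul_eq_zero.1 e2).resolve_left two_ne_zero)
  have hPuv : ∀ u v, (2 : F) • P (pr J u v) = pr J u (m₁ *ᵥ v) + pr J v (m₁ *ᵥ u) := by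
    intro u v
    have e1 := hPuu (u + v)
    rw [pr_add_left, pr_add_right, pr_add_right, pr_symm v u, map_add, map_add, map_add, hPuu, hPuu, mulVec_add,
      pr_add_left, pr_add_right, pr_add_right] at e1
    have e2 : (2 : F) • P (pr J u v) = (pr J u (m₁ *ᵥ u) + P (pr J u v) + (P (pr J u v) + pr J v (m₁ *ᵥ v))) -
        pr J u (m₁ *ᵥ u) - pr J v (m₁ *ᵥ v) := by module
    rw [e2, e1]
    abel
  have hmem : ∀ u, m₁ *ᵥ u ∈ Submodule.span F {u} := by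
    intro u
    by_contra hcon
    obtain ⟨w, hw1, hw2⟩ := exists_sep hJ hdet hcon
    have e1 := hP.idem hTN (pr J u u)
    rw [hPuu] at e1
    have e2 := hPuv u (m₁ *ᵥ u)
    rw [e1] at e2
    have e3 := congrArg (fun X : Mn n F => X *ᵥ w) e2
    have w1 : om J (m₁ *ᵥ u) w = -1 := by rw [om_swap hJ, hw1]
    have w2 : om J u w = 0 := by rw [om_swap hJ, hw2, neg_zero]
    simp only [add_mulVec, smul_mulVec, pr_mulVec, w1, w2] at e3
    apply hcon
    refine Submodule.mem_span_singleton.2 ⟨(1 / 2) * (om J (m₁ *ᵥ (m₁ *ᵥ u)) w + 2), ?_⟩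
    set y := m₁ *ᵥ u with hy
    set s := om J (m₁ *ᵥ y) w with hs
    have e4 : ((1 / 2) * (s + 2)) • u = y := by
      have e5 : ((1 / 2) * (s + 2)) • u - y = (1 / 2 : F) • ((s • u + (0 : F) • m₁ *ᵥ y + ((-1 : F) • y + (-1 : F) • y)) -
          (2 : F) • ((-1 : F) • u + (0 : F) • y)) := by module
      rw [← sub_eq_zero, e5, e3, sub_self, smul_zero]
    exact e4
  obtain ⟨κ, hκ⟩ := scalar_of hJ hdet hmem
  have hQbr : ∀ a b c d, Q J P a b c d = κ * br J a b c d := by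
    intro a b c d
    have e1 := hPuv a b
    rw [hκ, hκ, pr_smul_right, pr_smul_right, pr_symm b a, ← smul_add, ← two_smul F (pr J a b), smul_smul] at e1
    have e2 : P (pr J a b) = κ • pr J a b := by
      have e3 := congrArg (fun X : Mn n F => (2 : F)⁻¹ • X) e1
      simp only [smul_smul] at e3
      rw [inv_mul_cancel₀ two_ne_zero, one_smul, mul_comm κ 2, ← mul_assoc, inv_mul_cancel₀ two_ne_zero, one_mul] at e3
      exact e3
    unfold Q br
    rw [e2, Matrix.smul_mul, Matrix.trace_smul, smul_eq_mul]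
  refine dim_eq hJ hdet hTN hP hle (f := fun _ _ _ _ => 0) (lam := κ) ⟨?_, ?_, ?_, ?_, ?_⟩ ?_ ?_
  · intros; ring
  · intros; ring
  · intros; rfl
  · intros; rfl
  · intros; rfl
  · intro a b c d
    rw [hQbr, zero_add]
  · exact lam_of_zero hJ hdet (by omega) hTN hP hle hQbr

/-! ### nilpotent operators of isotropic planes -/

/-- all traces of the operators of the isotropic planes vanish -/
def NT (J : Matrix (Fin n) (Fin n) F) (P : Mn n F →ₗ[F] Mn n F) : Prop :=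
  ∀ u v : Fin n → F, om J u v = 0 → ∀ k : ℕ, LinearMap.trace F _ ((P ∘ₗ th (wd J u v)) ^ (k + 1)) = 0

theorem NT.nil {P : Mn n F →ₗ[F] Mn n F} (h : NT J P) {u v : Fin n → F} (huv : om J u v = 0) :
    IsNilpotent (th (wd J u v) ∘ₗ P) := by
  obtain ⟨k, hk⟩ := nil_of_tr (P ∘ₗ th (wd J u v)) fun k => h u v huv k
  refine ⟨k + 1, ?_⟩
  have h1 : (th (wd J u v) ∘ₗ P) ^ (k + 1) = th (wd J u v) ∘ₗ ((P ∘ₗ th (wd J u v)) ^ k) ∘ₗ P := by
    clear hk
    induction k with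
    | zero => rfl
    | succ k ih =>
      rw [pow_succ, ih, pow_succ (P ∘ₗ th (wd J u v)) k]
      rfl
  rw [h1, hk, LinearMap.zero_comp, LinearMap.comp_zero]

theorem NT.iso {P : Mn n F →ₗ[F] Mn n F} (h : NT J P) (hJ : Jᵀ = -J) {𝔩 : Submodule F (Mn n F)} (hP : IsPr 𝔩 P)
    (hle : 𝔩 ≤ spS J) {u v : Fin n → F} (huv : om J u v = 0) : Kf J P u v = 0 := by
  have h1 := h u v huv 0
  rw [zero_add, pow_one, LinearMap.trace_comp_comm', N_tr hJ hP hle] at h1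
  unfold Kf
  linear_combination -2 * h1

theorem NT.cube {P : Mn n F →ₗ[F] Mn n F} (h : NT J P) (hJ : Jᵀ = -J) {𝔩 : Submodule F (Mn n F)} (hP : IsPr 𝔩 P)
    (hle : 𝔩 ≤ spS J) {u v : Fin n → F} (huv : om J u v = 0) {X : Mn n F}
    (hX : X ∈ Submodule.span F {pr J u u, pr J u v, pr J v v}) :
    (th (wd J u v) ∘ₗ P) ((th (wd J u v) ∘ₗ P) ((th (wd J u v) ∘ₗ P) X)) = 0 := by
  refine Pool.Agent.H936.SL.cube _ (h.nil huv) (Submodule.span F {pr J u u, pr J u v, pr J v v}) ?_ ?_ X hX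
  · classical
    have h1 := finrank_span_finset_le_card (R := F) ({pr J u u, pr J u v, pr J v v} : Finset (Mn n F))
    have h2 : ({pr J u u, pr J u v, pr J v v} : Finset (Mn n F)).card ≤ 3 := Finset.card_le_three
    have h3 : (({pr J u u, pr J u v, pr J v v} : Finset (Mn n F)) : Set (Mn n F)) = {pr J u u, pr J u v, pr J v v} := by
      simp
    rw [h3] at h1
    exact h1.trans h2
  · intro Y
    rw [LinearMap.comp_apply, th_wd hJ (hle (hP.mem _))]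
    refine Submodule.sub_mem _ (Submodule.sub_mem _ ?_ ?_) ?_
    · exact Submodule.smul_mem _ _ (Submodule.subset_span (by simp))
    · exact Submodule.smul_mem _ _ (Submodule.subset_span (by simp))
    · exact Submodule.smul_mem _ _ (Submodule.subset_span (by simp))

/-- the case of nilpotent operators -/
theorem end_S [IsAlgClosed F] (hJ : Jᵀ = -J) (hdet : IsUnit J.det) (hn : 3 ≤ n) {𝔩 : Submodule F (Mn n F)}
    {P : Mn n F →ₗ[F] Mn n F} (hTN : TN 𝔩) (hP : IsPr 𝔩 P) (hle : 𝔩 ≤ spS J) (h : NT J P) :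
    (∃ m : Mn n F, Sy J m ∧ (∃ w, m *ᵥ w ∉ Submodule.span F {w}) ∧
      ∀ Z ∈ spS J, (∀ Y ∈ 𝔩, Z * Y - Y * Z ∈ 𝔩) → Z * m = m * Z) ∨ (𝔩 = ⊥ ∨ 𝔩 = spS J) := by
  obtain ⟨m, hm, hmS⟩ := division hJ hP hdet fun u v huv => h.iso hJ hP hle huv
  by_cases hsc : ∀ w, m *ᵥ w ∈ Submodule.span F {w}
  · right
    obtain ⟨ν, hν'⟩ := scalar_of hJ hdet hsc
    have hν : ∀ u v, Kf J P u v = ν * om J u v ^ 2 := by
      intro u v
      rw [hm, hν', om_smul_left]
      ring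
    have hf := SF_f4 hJ hP hν
    have hQ : ∀ a b c d, Q J P a b c d = f4 J P (-ν / 6) a b c d + (-ν / 6) * br J a b c d := by
      intro a b c d
      unfold f4
      ring
    refine dim_eq hJ hdet hTN hP hle hf hQ ?_
    by_cases h0 : ∀ v, f4 J P (-ν / 6) v v v v = 0
    · refine lam_of_zero hJ hdet (by omega) hTN hP hle fun a b c d => ?_
      rw [hQ, hf.eq_zero h0, zero_add]
    · push Not at h0
      obtain ⟨v, hv⟩ := h0
      have E : EG J 𝔩 P (f4 J P (-ν / 6)) (-ν / 6) :=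
        ⟨hJ, hdet, hTN, hP, hle, hf, hQ, fun u v huv X hX => h.cube hJ hP hle huv hX⟩
      exact E.lam01 hn hv
  · left
    push Not at hsc
    exact ⟨m, hmS, hsc, fun Z hZ hZl => Kf_comm hJ hTN hP hdet hm hZ hZl⟩

/-! ### Two factors -/

theorem th_ww (hJ : Jᵀ = -J) (w : Fin n → F) (X : Mn n F) :
    th (pr J w w) X = Matrix.trace (X * pr J w w) • pr J w w := by
  rw [tr_pr]
  apply mul_ext
  intro v
  rw [th_apply, ← mulVec_mulVec, ← mulVec_mulVec, smul_mulVec, pr_mulVec, pr_mulVec, ← two_smul F, ← two_smul F,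
    mulVec_smul, mulVec_smul, om_smul_right, om_smul_right]
  module

theorem Gm_sp (hJ : Jᵀ = -J) {g h : Mn n F} (hg : Gm J g h) {A : Mn n F} (hA : A ∈ spS J) : g * A * h ∈ spS J := by
  induction hg with
  | one => rwa [Matrix.one_mul, Matrix.mul_one]
  | @step g h w c _ ih =>
    set B := g * A * h with hB
    have h1 : (1 + c • sq J w) * g * A * (h * (1 - c • sq J w)) =
        B + c • (sq J w * B - B * sq J w) - (c ^ 2) • (sq J w * B * sq J w) := by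
      rw [hB]
      simp only [Matrix.add_mul, Matrix.mul_sub, Matrix.one_mul, Matrix.mul_one, Matrix.smul_mul, Matrix.mul_smul,
        Matrix.mul_assoc, pow_two]
      module
    have h2 : sq J w * B * sq J w = ((1 / 4 : F) * Matrix.trace (B * pr J w w)) • pr J w w := by
      have h3 := th_ww hJ w B
      rw [th_apply, two_sq, Matrix.smul_mul, Matrix.smul_mul, Matrix.mul_smul, smul_smul] at h3
      have h4 : sq J w * B * sq J w = (1 / 4 : F) • (((2 : F) * 2) • (sq J w * B * sq J w)) := by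
        rw [smul_smul]
        norm_num
      rw [h4, h3, two_sq, smul_smul]
    rw [h1, h2]
    exact (spS J).sub_mem ((spS J).add_mem ih ((spS J).smul_mem _ (comm_mem hJ (sq_mem hJ w) ih)))
      ((spS J).smul_mem _ ((spS J).smul_mem _ (pr_mem hJ w w)))

theorem conj_pr (hJ : Jᵀ = -J) {g h : Mn n F} (hg : Gm J g h) (a b : Fin n → F) :
    h * pr J a b * g = pr J (h *ᵥ a) (h *ᵥ b) := by
  have hgh := (hg.inv hJ).1
  have hhg := (hg.inv hJ).2
  apply mul_ext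
  intro w
  have h1 : ∀ x, om J (h *ᵥ x) w = om J x (g *ᵥ w) := by
    intro x
    rw [← hg.om hJ (h *ᵥ x) w, mulVec_mulVec, hgh, one_mulVec]
  rw [← mulVec_mulVec, ← mulVec_mulVec, pr_mulVec, pr_mulVec, h1, h1, mulVec_add, mulVec_smul, mulVec_smul]

theorem tr_conj (hJ : Jᵀ = -J) (P : Mn n F →ₗ[F] Mn n F) {g h : Mn n F} (hg : Gm J g h) (a b c d : Fin n → F) :
    Matrix.trace ((cj g h ∘ₗ P ∘ₗ cj h g) (pr J a b) * pr J c d) =
      Q J P (h *ᵥ a) (h *ᵥ b) (h *ᵥ c) (h *ᵥ d) := by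
  unfold Q
  rw [← conj_pr hJ hg, ← conj_pr hJ hg]
  show Matrix.trace (g * P (h * pr J a b * g) * h * pr J c d) = _
  rw [Matrix.mul_assoc, Matrix.mul_assoc, Matrix.trace_mul_comm]
  simp only [Matrix.mul_assoc]

theorem tr_pow_comm {W : Type} [AddCommGroup W] [Module F W] [FiniteDimensional F W] (A B : W →ₗ[F] W) (k : ℕ) :
    LinearMap.trace F W ((A ∘ₗ B) ^ (k + 1)) = LinearMap.trace F W ((B ∘ₗ A) ^ (k + 1)) := by
  have h1 : ∀ (A B : W →ₗ[F] W) (k : ℕ), (A ∘ₗ B) ^ (k + 1) = A ∘ₗ (((B ∘ₗ A) ^ k) ∘ₗ B) := by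
    intro A B k
    induction k with
    | zero => rfl
    | succ k ih =>
      rw [pow_succ, ih, pow_succ (B ∘ₗ A) k]
      rfl
  rw [h1, LinearMap.trace_comp_comm', pow_succ (B ∘ₗ A) k]
  rfl

theorem pr_sq0 (hJ : Jᵀ = -J) {u v : Fin n → F} (huv : om J u v = 0) : pr J u v * pr J u v = 0 := by
  have hvu : om J v u = 0 := by rw [om_swap hJ, huv, neg_zero]
  apply mul_ext
  intro w
  rw [← mulVec_mulVec, pr_mulVec, pr_mulVec, om_add_right, om_add_right, om_smul_right, om_smul_right, om_smul_right,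
    om_smul_right, om_self hJ, om_self hJ, huv, hvu, zero_mulVec]
  simp

section two
variable {𝔩₁ 𝔩₂ : Submodule F (Mn n F)} {P₁ P₂ : Mn n F →ₗ[F] Mn n F} (H : Two J 𝔩₁ 𝔩₂ P₁ P₂)
include H

/-- one of the quartic forms vanishes -/
theorem Two.claimA : (∀ w, Q J P₁ w w w w = 0) ∨ ∀ w, Q J P₂ w w w w = 0 := by
  have hJ := H.hJ
  have h0 : ∀ P : Mn n F →ₗ[F] Mn n F, Q J P 0 0 0 0 = 0 := by
    intro P
    have := Q_smul1 (J := J) P 0 0 (0 : Fin n → F) 0 0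
    rwa [zero_smul, zero_mul] at this
  have key : ∀ w w' : Fin n → F, Q J P₁ w w w w * Q J P₂ w' w' w' w' = 0 := by
    intro w w'
    by_cases hw : w = 0
    · rw [hw, h0, zero_mul]
    by_cases hw' : w' = 0
    · rw [hw', h0, mul_zero]
    obtain ⟨g, h, hg, hgw⟩ := trans1 hJ H.hdet hw' hw
    have hhw : h *ᵥ w = w' := by rw [← hgw, mulVec_mulVec, (hg.inv hJ).2, one_mulVec]
    have h1 := H.lead (k := 1) le_rfl hg (pr_mem hJ w w) (pr_sq0 hJ (om_self hJ w))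
    rw [pow_one] at h1
    let φ : Mn n F →ₗ[F] F :=
      { toFun := fun X => Matrix.trace (X * pr J w w)
        map_add' := fun X Y => by rw [Matrix.add_mul, Matrix.trace_add]
        map_smul' := fun c X => by rw [Matrix.smul_mul, Matrix.trace_smul]; rfl }
    have h2 : P₁ ∘ₗ (th (pr J w w) ∘ₗ (cj g h ∘ₗ P₂ ∘ₗ cj h g) ∘ₗ th (pr J w w)) =
        φ.smulRight (Q J P₂ w' w' w' w' • P₁ (pr J w w)) := by
      apply LinearMap.ext
      intro X
      rw [LinearMap.comp_apply, LinearMap.comp_apply, LinearMap.comp_apply, th_ww hJ w X, map_smul, map_smul, th_ww hJ w _,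
        tr_conj hJ P₂ hg, hhw, map_smul, map_smul]
      rfl
    rw [h2, LinearMap.trace_smulRight, map_smul, smul_eq_mul] at h1
    have h3 : φ (P₁ (pr J w w)) = Q J P₁ w w w w := rfl
    rw [h3] at h1
    rw [mul_comm]
    exact h1
  by_cases hc : ∀ w, Q J P₁ w w w w = 0
  · exact Or.inl hc
  · push Not at hc
    obtain ⟨w, hw⟩ := hc
    exact Or.inr fun w' => (mul_eq_zero.1 (key w w')).resolve_left hw

/-- the polarised relations -/
theorem Two.pol (hQ4 : ∀ w, Q J P₂ w w w w = 0) (u v : Fin n → F) :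
    Q J P₂ u v u v = -(1 / 2) * Q J P₂ u u v v ∧ Q J P₂ u u u v = 0 := by
  have hJ := H.hJ
  have hP := H.pr₂
  have e1 := hQ4 (u + v)
  have e2 := hQ4 (u + (-1 : F) • v)
  have e5 := hQ4 (u + (2 : F) • v)
  have e3 := hQ4 u
  have e4 := hQ4 v
  simp only [Q_add1, Q_add2, Q_add3, Q_add4, Q_smul1, Q_smul2, Q_smul3, Q_smul4] at e1 e2 e5
  have s1 : Q J P₂ u v v u = Q J P₂ u v u v := by rw [Q_s34]
  have s2 : Q J P₂ v u u v = Q J P₂ u v u v := by rw [Q_s12]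
  have s3 : Q J P₂ v u v u = Q J P₂ u v u v := by rw [Q_s12, Q_s34]
  have s4 : Q J P₂ v v u u = Q J P₂ u u v v := by rw [Q_swap hJ hP]
  have s5 : Q J P₂ u u v u = Q J P₂ u u u v := by rw [Q_s34]
  have s6 : Q J P₂ u v u u = Q J P₂ u u u v := by rw [Q_swap hJ hP]
  have s7 : Q J P₂ v u u u = Q J P₂ u u u v := by rw [Q_s12, Q_swap hJ hP]
  have s8 : Q J P₂ v v v u = Q J P₂ u v v v := by rw [Q_s34, Q_swap hJ hP, Q_s12]
  have s9 : Q J P₂ v v u v = Q J P₂ u v v v := by rw [Q_swap hJ hP]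
  have s10 : Q J P₂ v u v v = Q J P₂ u v v v := by rw [Q_s12]
  rw [s1, s2, s3, s4, s5, s6, s7, s8, s9, s10] at e1 e2 e5
  constructor
  · linear_combination (1 / 8) * e1 + (1 / 8) * e2 - (1 / 4) * e3 - (1 / 4) * e4
  · linear_combination (1 / 4) * e1 - (1 / 12) * e2 - (1 / 24) * e5 - (1 / 8) * e3 + (1 / 2) * e4

/-- the operator of a plane -/
theorem Two.claimB (hQ4 : ∀ w, Q J P₂ w w w w = 0) {u₀ v₀ : Fin n → F} (h₀ : om J u₀ v₀ = 0) (hK : Kf J P₂ u₀ v₀ ≠ 0) :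
    NT J P₁ := by
  have hJ := H.hJ
  have hdet := H.hdet
  have h0 : ∀ P : Mn n F →ₗ[F] Mn n F, ∀ b c d, Q J P 0 b c d = 0 := by
    intro P b c d
    have := Q_smul1 (J := J) P 0 0 b c d
    rwa [zero_smul, zero_mul] at this
  have hu₀ : u₀ ≠ 0 := by
    rintro rfl
    apply hK
    unfold Kf
    rw [h0, h0, sub_zero]
  have hv₀ : v₀ ∉ Submodule.span F {u₀} := by
    intro h
    obtain ⟨c, rfl⟩ := Submodule.mem_span_singleton.1 h
    apply hK
    unfold Kf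
    rw [Q_smul3, Q_smul4, Q_smul2, Q_smul4, sub_self]
  set κ := Q J P₂ u₀ u₀ v₀ v₀ with hκ
  have hκ0 : κ ≠ 0 := by
    intro h
    apply hK
    unfold Kf
    rw [(H.pol hQ4 u₀ v₀).1, ← hκ, h]
    ring
  have q1 : Q J P₂ u₀ v₀ u₀ v₀ = -(1 / 2) * κ := (H.pol hQ4 u₀ v₀).1
  have q2 : Q J P₂ v₀ v₀ u₀ v₀ = 0 := by
    rw [Q_s34]
    exact (H.pol hQ4 v₀ u₀).2
  have q3 : Q J P₂ u₀ u₀ u₀ v₀ = 0 := (H.pol hQ4 u₀ v₀).2
  have q4 : Q J P₂ u₀ v₀ u₀ u₀ = 0 := by rw [Q_swap hJ H.pr₂, q3]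
  have q5 : Q J P₂ v₀ v₀ u₀ u₀ = κ := Q_swap hJ H.pr₂ _ _ _ _
  have q6 : Q J P₂ u₀ v₀ v₀ v₀ = 0 := by rw [Q_swap hJ H.pr₂, q2]
  intro u v huv k
  have hzero : wd J u v = 0 → LinearMap.trace F _ ((P₁ ∘ₗ th (wd J u v)) ^ (k + 1)) = 0 := by
    intro hw
    have h1 : th (wd J u v) = 0 := by
      apply LinearMap.ext
      intro X
      rw [th_apply, hw, Matrix.zero_mul, Matrix.zero_mul, LinearMap.zero_apply]
    rw [h1, LinearMap.comp_zero, zero_pow (by omega), map_zero]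
  by_cases hu : u = 0
  · apply hzero
    rw [hu]
    unfold wd
    rw [zero_vecMulVec, vecMulVec_zero, sub_self, Matrix.zero_mul]
  by_cases hv : v ∈ Submodule.span F {u}
  · apply hzero
    obtain ⟨c, rfl⟩ := Submodule.mem_span_singleton.1 hv
    unfold wd
    rw [vecMulVec_smul, smul_vecMulVec, sub_self, Matrix.zero_mul]
  obtain ⟨g, h, hg, e1, e2⟩ := trans3 hJ hdet hu₀ hu hv₀ hv h₀ huv
  have hhu : h *ᵥ u = u₀ := by rw [← e1, mulVec_mulVec, (hg.inv hJ).2, one_mulVec]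
  have hhv : h *ᵥ v = v₀ := by rw [← e2, mulVec_mulVec, (hg.inv hJ).2, one_mulVec]
  set T := cj g h ∘ₗ P₂ ∘ₗ cj h g with hT
  have hTsp : ∀ X, T X ∈ spS J := fun X => Gm_sp hJ hg (H.le₂ (H.pr₂.mem _))
  have h1 := H.lead (k := k + 1) (by omega) hg (pr_mem hJ u v) (pr_sq0 hJ huv)
  rw [← hT, tr_pow_comm] at h1
  have h2 : (th (pr J u v) ∘ₗ T ∘ₗ th (pr J u v)) ∘ₗ P₁ = (-(κ / 4)) • (th (wd J u v) ∘ₗ P₁) := by
    apply LinearMap.ext
    intro X
    have ha : P₁ X ∈ spS J := H.le₁ (H.pr₁.mem X)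
    set a := P₁ X with had
    show th (pr J u v) (T (th (pr J u v) a)) = (-(κ / 4)) • th (wd J u v) a
    rw [th_pr hJ ha, th_wd hJ ha]
    set A := om J u (a *ᵥ v)
    set B := om J u (a *ᵥ u) / 2
    set C := om J v (a *ᵥ v) / 2
    set b := T (A • pr J u v + B • pr J v v + C • pr J u u) with hb
    have hbs : b ∈ spS J := hTsp _
    have t1 : ∀ c d, Matrix.trace (b * pr J c d) = A * Q J P₂ u₀ v₀ (h *ᵥ c) (h *ᵥ d) +
        B * Q J P₂ v₀ v₀ (h *ᵥ c) (h *ᵥ d) + C * Q J P₂ u₀ u₀ (h *ᵥ c) (h *ᵥ d) := by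
      intro c d
      rw [hb, map_add, map_add, map_smul, map_smul, map_smul, Matrix.add_mul, Matrix.add_mul, Matrix.trace_add,
        Matrix.trace_add, Matrix.smul_mul, Matrix.smul_mul, Matrix.smul_mul, Matrix.trace_smul, Matrix.trace_smul,
        Matrix.trace_smul, hT, tr_conj hJ P₂ hg, tr_conj hJ P₂ hg, tr_conj hJ P₂ hg, hhu, hhv]
      rfl
    have k1 := t1 u v
    have k2 := t1 u u
    have k3 := t1 v v
    rw [tr_pr' hJ hbs, hhu, hhv, q1, q2, q3] at k1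
    rw [tr_pr' hJ hbs, hhu, q4, q5, hQ4] at k2
    rw [tr_pr' hJ hbs, hhv, q6, hQ4, ← hκ] at k3
    have m1 : om J u (b *ᵥ v) = -(A * κ / 4) := by linear_combination (1 / 2) * k1
    have m2 : om J u (b *ᵥ u) / 2 = B * κ / 4 := by linear_combination (1 / 4) * k2
    have m3 : om J v (b *ᵥ v) / 2 = C * κ / 4 := by linear_combination (1 / 4) * k3
    rw [th_pr hJ hbs, m1, m2, m3]
    module
  rw [h2, smul_pow, map_smul, smul_eq_mul] at h1
  have h3 := (mul_eq_zero.1 h1).resolve_left (pow_ne_zero _ (neg_ne_zero.2 (div_ne_zero hκ0 (by norm_num))))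
  rw [tr_pow_comm]
  exact h3

theorem Two.half [IsAlgClosed F] (hQ4 : ∀ w, Q J P₂ w w w w = 0) : (𝔩₁ = ⊥ ∨ 𝔩₁ = spS J) ∨ (𝔩₂ = ⊥ ∨ 𝔩₂ = spS J) := by
  have hJ := H.hJ
  have hdet := H.hdet
  by_cases hK : ∀ u v, om J u v = 0 → Kf J P₂ u v = 0
  · exact Or.inr (end_Q4 hJ hdet H.hn H.tn₂ H.pr₂ H.le₂ hQ4 hK)
  · push Not at hK
    obtain ⟨u₀, v₀, h₀, hK⟩ := hK
    rcases end_S hJ hdet H.hn H.tn₁ H.pr₁ H.le₁ (H.claimB hQ4 h₀ hK) with ⟨m, hm1, hm2, hm3⟩ | h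
    · refine Or.inr (thm_S hJ hdet H.hn H.tn₂ H.le₂ hm1 hm2 fun X hX => ?_)
      obtain ⟨Z, B, e, h1, h2, h3, h4⟩ := H.dec X hX
      exact ⟨B, Z, by rw [e, add_comm], h2, h4, hm3 Z h1 h3⟩
    · exact Or.inl h

end two

/-- **The symplectic Lie algebra is not the sum of two proper normalisers.** -/
theorem thmE [IsAlgClosed F] (hJ : Jᵀ = -J) (hdet : IsUnit J.det) (hn : 3 ≤ n) {𝔩₁ 𝔩₂ : Submodule F (Mn n F)}
    (tn₁ : TN 𝔩₁) (le₁ : 𝔩₁ ≤ spS J) (tn₂ : TN 𝔩₂) (le₂ : 𝔩₂ ≤ spS J)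
    (dec : ∀ X ∈ spS J, ∃ Z B, X = Z + B ∧ Z ∈ spS J ∧ B ∈ spS J ∧ (∀ Y ∈ 𝔩₁, Z * Y - Y * Z ∈ 𝔩₁) ∧
      ∀ Y ∈ 𝔩₂, B * Y - Y * B ∈ 𝔩₂) : (𝔩₁ = ⊥ ∨ 𝔩₁ = spS J) ∨ (𝔩₂ = ⊥ ∨ 𝔩₂ = spS J) := by
  obtain ⟨P₁, hP₁⟩ := exists_proj tn₁
  obtain ⟨P₂, hP₂⟩ := exists_proj tn₂
  have H : Two J 𝔩₁ 𝔩₂ P₁ P₂ := ⟨hJ, hdet, hn, tn₁, hP₁, le₁, tn₂, hP₂, le₂, dec⟩
  rcases H.claimA with h | h
  · rcases H.symm.half h with h1 | h1
    · exact Or.inr h1
    · exact Or.inl h1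
  · exact H.half h

end Pool.Agent.H936.G
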