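import Pool.Agent.H936.G.OG

/-!
# Two projections
-/

set_option autoImplicit false
set_option linter.unusedSectionVars false
set_option linter.unusedVariables false

open Matrix Module MvPolynomial
open scoped Kronecker

namespace Pool.Agent.H936.G

open Pool.Agent.Helper880_LF
open Pool.Agent.H936.SL (Mn TN IsPr th th_apply mt mt_apply mt_mul mt_trace mt_pow adl Gm sq sq_mem sq_sq)

variable {F : Type} [Field F] {n : ℕ}

/-- the operator `X ↦ g X h` -/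
def cj (g h : Mn n F) : Mn n F →ₗ[F] Mn n F where
  toFun X := g * X * h
  map_add' X Y := by rw [Matrix.mul_add, Matrix.add_mul]
  map_smul' c X := by rw [Matrix.mul_smul, Matrix.smul_mul, RingHom.id_apply]

theorem cj_apply (g h X : Mn n F) : cj g h X = g * X * h := rfl

theorem cj_comp (g h g' h' : Mn n F) : cj g h ∘ₗ cj g' h' = cj (g * g') (h' * h) := by
  apply LinearMap.ext
  intro X
  show g * (g' * X * h') * h = g * g' * X * (h' * h)
  simp only [Matrix.mul_assoc]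

theorem adl_apply (Z X : Mn n F) : adl Z X = Z * X - X * Z := rfl

theorem mt_add (L L' : Mn n F →ₗ[F] Mn n F) : mt (L + L') = mt L + mt L' := map_add (LinearMap.toMatrix _ _) L L'

theorem mt_sub (L L' : Mn n F →ₗ[F] Mn n F) : mt (L - L') = mt L - mt L' := map_sub (LinearMap.toMatrix _ _) L L'

theorem mt_neg (L : Mn n F →ₗ[F] Mn n F) : mt (-L) = -mt L := map_neg (LinearMap.toMatrix _ _) L

theorem mt_smul (c : F) (L : Mn n F →ₗ[F] Mn n F) : mt (c • L) = c • mt L := map_smul (LinearMap.toMatrix _ _) c L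

theorem mt_one : mt (LinearMap.id : Mn n F →ₗ[F] Mn n F) = 1 := LinearMap.toMatrix_id _

theorem mt_zero : mt (0 : Mn n F →ₗ[F] Mn n F) = 0 := map_zero (LinearMap.toMatrix _ _)

/-- the adjoint action, in matrix form -/
noncomputable def adm : Mn n F →ₗ[F] Matrix (Fin n × Fin n) (Fin n × Fin n) F where
  toFun X := mt (adl X)
  map_add' X Y := by
    rw [← mt_add]
    congr 1
    apply LinearMap.ext
    intro Z
    show (X + Y) * Z - Z * (X + Y) = (X * Z - Z * X) + (Y * Z - Z * Y)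
    rw [Matrix.add_mul, Matrix.mul_add]
    abel
  map_smul' c X := by
    rw [RingHom.id_apply, ← mt_smul]
    congr 1
    apply LinearMap.ext
    intro Z
    show (c • X) * Z - Z * (c • X) = c • (X * Z - Z * X)
    rw [Matrix.smul_mul, Matrix.mul_smul, smul_sub]

theorem adm_apply (X : Mn n F) : adm X = mt (adl X) := rfl

theorem adm_br (X Y : Mn n F) : adm X * adm Y - adm Y * adm X = adm (X * Y - Y * X) := by
  rw [adm_apply, adm_apply, adm_apply, ← mt_mul, ← mt_mul, ← mt_sub]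
  congr 1
  apply LinearMap.ext
  intro Z
  show (X * (Y * Z - Z * Y) - (Y * Z - Z * Y) * X) - (Y * (X * Z - Z * X) - (X * Z - Z * X) * Y) =
    (X * Y - Y * X) * Z - Z * (X * Y - Y * X)
  simp only [Matrix.mul_sub, Matrix.sub_mul, Matrix.mul_assoc]
  abel

section nil
variable {y : Mn n F} (hy : y * y = 0)
include hy

theorem adm_sq : adm y * adm y = (2 : F) • mt (-th y) := by
  rw [adm_apply, ← mt_mul, ← mt_smul]
  congr 1
  apply LinearMap.ext
  intro Z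
  show y * (y * Z - Z * y) - (y * Z - Z * y) * y = (2 : F) • (-(y * Z * y))
  rw [Matrix.mul_sub, Matrix.sub_mul, ← Matrix.mul_assoc, hy, Matrix.zero_mul, Matrix.mul_assoc Z y y, hy, Matrix.mul_zero,
    ← Matrix.mul_assoc]
  module

theorem adm_th : adm y * mt (-th y) = 0 := by
  rw [adm_apply, ← mt_mul, ← mt_zero]
  congr 1
  apply LinearMap.ext
  intro Z
  show y * (-(y * Z * y)) - (-(y * Z * y)) * y = 0
  rw [Matrix.mul_neg, Matrix.neg_mul, Matrix.mul_assoc (y * Z) y y, hy, Matrix.mul_zero, ← Matrix.mul_assoc, ← Matrix.mul_assoc,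
    hy, Matrix.zero_mul, Matrix.zero_mul]
  simp

theorem th_adm : mt (-th y) * adm y = 0 := by
  rw [adm_apply, ← mt_mul, ← mt_zero]
  congr 1
  apply LinearMap.ext
  intro Z
  show -(y * (y * Z - Z * y) * y) = 0
  rw [Matrix.mul_sub, Matrix.sub_mul, ← Matrix.mul_assoc, hy, Matrix.zero_mul, Matrix.zero_mul, ← Matrix.mul_assoc y Z y,
    Matrix.mul_assoc (y * Z) y y, hy, Matrix.mul_zero]
  simp

omit hy in
theorem exp_adm (c : F) : 1 + c • adm y + c ^ 2 • mt (-th y) = mt (cj (1 + c • y) (1 - c • y)) := by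
  rw [adm_apply, ← mt_one, ← mt_smul, ← mt_smul, ← mt_add, ← mt_add]
  congr 1
  apply LinearMap.ext
  intro Z
  show Z + c • (y * Z - Z * y) + c ^ 2 • (-(y * Z * y)) = (1 + c • y) * Z * (1 - c • y)
  rw [Matrix.add_mul, Matrix.one_mul, Matrix.mul_sub, Matrix.mul_one, Matrix.add_mul, Matrix.mul_smul, Matrix.smul_mul,
    Matrix.smul_mul, Matrix.mul_smul, smul_smul, pow_two]
  module

omit hy in
theorem exp_adm' (c : F) : 1 - c • adm y + c ^ 2 • mt (-th y) = mt (cj (1 - c • y) (1 + c • y)) := by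
  have h := exp_adm (y := y) (-c)
  have e1 : (-c) • adm y = -(c • adm y) := by rw [neg_smul]
  have e2 : (-c) • y = -(c • y) := by rw [neg_smul]
  rw [e1, e2, sub_neg_eq_add, ← sub_eq_add_neg, ← sub_eq_add_neg, neg_sq] at h
  exact h

end nil

/-! ### The invariant functions -/

/-- the function `T ↦ tr ((P T)^k)` -/
noncomputable def Pk (P : Mn n F →ₗ[F] Mn n F) (k : ℕ) : Pg (Fin n × Fin n) F := Matrix.trace ((cst (mt P) * bm) ^ k)

theorem ev_tr {ι : Type} [Fintype ι] [DecidableEq ι] (M : Matrix ι ι (Pg ι F)) (k : ℕ) (β : Matrix ι ι F) :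
    ev β (Matrix.trace (M ^ k)) = Matrix.trace ((M.map (ev β)) ^ k) := by
  have h1 : (M ^ k).map (ev β) = (M.map (ev β)) ^ k :=
    map_pow ((ev β : Pg ι F →+* F).mapMatrix (m := ι)) M k
  rw [← h1]
  exact map_sum (ev β) _ _

theorem ev_Pk' (P : Mn n F →ₗ[F] Mn n F) (k : ℕ) (β : Matrix (Fin n × Fin n) (Fin n × Fin n) F) :
    ev β (Pk P k) = Matrix.trace ((mt P * β) ^ k) := by
  unfold Pk
  rw [ev_tr]
  have h0 : (cst (mt P) * bm).map (ev β) = (cst (mt P)).map (ev β) * (bm (F := F)).map (ev β) :=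
    map_mulm (ev β : Pg (Fin n × Fin n) F →+* F) (cst (mt P)) bm
  rw [h0, ev_cst, ev_bm]

theorem ev_Pk (P T : Mn n F →ₗ[F] Mn n F) (k : ℕ) : ev (mt T) (Pk P k) = LinearMap.trace F _ ((P ∘ₗ T) ^ k) := by
  rw [ev_Pk', ← mt_mul, ← mt_pow, mt_trace]

theorem hm_Pk (P : Mn n F →ₗ[F] Mn n F) (k : ℕ) : Hm k (Pk P k) := by
  intro β r
  rw [ev_Pk', ev_Pk', Matrix.mul_smul, smul_pow, Matrix.trace_smul, smul_eq_mul]

theorem tr_inv {ι : Type} [Fintype ι] [DecidableEq ι] {M A : Matrix ι ι (Pg ι F)} (D : Derivation F (Pg ι F) (Pg ι F))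
    (h : M.map D = A * M - M * A) (k : ℕ) : D (Matrix.trace (M ^ k)) = 0 := by
  have h1 : (M ^ k).map D = A * M ^ k - M ^ k * A := by
    induction k with
    | zero =>
      rw [pow_zero, Matrix.mul_one, Matrix.one_mul, sub_self]
      ext i j : 1
      rw [Matrix.map_apply, Matrix.one_apply]
      split_ifs
      · exact D.map_one_eq_zero
      · exact map_zero D
    | succ k ih =>
      rw [pow_succ, dmap_mul, ih, h, Matrix.sub_mul, Matrix.mul_sub]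
      simp only [Matrix.mul_assoc]
      abel
  have h2 : D (Matrix.trace (M ^ k)) = Matrix.trace ((M ^ k).map D) := map_sum D _ _
  rw [h2, h1, Matrix.trace_sub, Matrix.trace_mul_comm, sub_self]

theorem Pk_inv {P : Mn n F →ₗ[F] Mn n F} {Z : Mn n F} (h : P ∘ₗ adl Z = adl Z ∘ₗ P) (k : ℕ) :
    DX (adm Z) (Pk P k) = 0 := by
  have h1 : cst (mt P) * cst (adm Z) = cst (adm Z) * cst (mt P) := by
    rw [← cst_mul, ← cst_mul, adm_apply, ← mt_mul, ← mt_mul, h]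
  refine tr_inv (DX (adm Z)) (A := cst (adm Z)) ?_ k
  rw [dmap_mul, DX_cst, Matrix.zero_mul, zero_add, DX_bm]
  unfold BX
  rw [Matrix.mul_sub, ← Matrix.mul_assoc, h1]
  simp only [Matrix.mul_assoc]

variable [CharZero F] {J : Matrix (Fin n) (Fin n) F}

/-- **two factors** -/
structure Two (J : Matrix (Fin n) (Fin n) F) (𝔩₁ 𝔩₂ : Submodule F (Mn n F)) (P₁ P₂ : Mn n F →ₗ[F] Mn n F) : Prop where
  hJ : Jᵀ = -J
  hdet : IsUnit J.det
  hn : 3 ≤ n
  tn₁ : TN 𝔩₁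
  pr₁ : IsPr 𝔩₁ P₁
  le₁ : 𝔩₁ ≤ spS J
  tn₂ : TN 𝔩₂
  pr₂ : IsPr 𝔩₂ P₂
  le₂ : 𝔩₂ ≤ spS J
  dec : ∀ X ∈ spS J, ∃ Z B, X = Z + B ∧ Z ∈ spS J ∧ B ∈ spS J ∧ (∀ Y ∈ 𝔩₁, Z * Y - Y * Z ∈ 𝔩₁) ∧
    ∀ Y ∈ 𝔩₂, B * Y - Y * B ∈ 𝔩₂

theorem Two.symm {𝔩₁ 𝔩₂ : Submodule F (Mn n F)} {P₁ P₂ : Mn n F →ₗ[F] Mn n F} (H : Two J 𝔩₁ 𝔩₂ P₁ P₂) :
    Two J 𝔩₂ 𝔩₁ P₂ P₁ where
  hJ := H.hJ
  hdet := H.hdet
  hn := H.hn
  tn₁ := H.tn₂
  pr₁ := H.pr₂
  le₁ := H.le₂
  tn₂ := H.tn₁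
  pr₂ := H.pr₁
  le₂ := H.le₁
  dec := by
    intro X hX
    obtain ⟨Z, B, e, h1, h2, h3, h4⟩ := H.dec X hX
    exact ⟨B, Z, by rw [e, add_comm], h2, h1, h4, h3⟩

section
variable {𝔩₁ 𝔩₂ : Submodule F (Mn n F)} {P₁ P₂ : Mn n F →ₗ[F] Mn n F} (H : Two J 𝔩₁ 𝔩₂ P₁ P₂)
include H

/-- the space of directions -/
noncomputable abbrev Sd (J : Matrix (Fin n) (Fin n) F) : Submodule F (Matrix (Fin n × Fin n) (Fin n × Fin n) F) :=
  (spS J).map adm

omit H [CharZero F] in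
theorem Sd_br (hJ : Jᵀ = -J) : ∀ X' ∈ Sd J, ∀ Y ∈ Sd J, X' * Y - Y * X' ∈ Sd J := by
  rintro _ ⟨X, hX, rfl⟩ _ ⟨Y, hY, rfl⟩
  rw [adm_br]
  exact ⟨_, comm_mem hJ hX hY, rfl⟩

theorem Two.Dec (k : ℕ) : Dec (Sd J) (Pk P₁ k) (mt P₂) := by
  rintro _ ⟨X, hX, rfl⟩
  obtain ⟨Z, B, rfl, h1, h2, h3, h4⟩ := H.dec X hX
  refine ⟨adm Z, adm B, map_add adm Z B, ⟨Z, h1, rfl⟩, ?_, ?_⟩
  · exact Pk_inv (LinearMap.ext fun Y => H.pr₁.comm H.tn₁ h3 Y) k
  · have h5 : P₂ ∘ₗ adl B = adl B ∘ₗ P₂ := LinearMap.ext fun Y => H.pr₂.comm H.tn₂ h4 Y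
    rw [adm_apply, ← mt_mul, ← mt_mul, h5]

theorem Two.van (k : ℕ) {g h : Mn n F} (hg : Gm J g h) : Van (Sd J) (Pk P₁ k) (mt P₂) (mt (cj g h ∘ₗ P₂ ∘ₗ cj h g)) := by
  induction hg with
  | one =>
    have h1 : cj (1 : Mn n F) 1 ∘ₗ P₂ ∘ₗ cj 1 1 = P₂ := by
      apply LinearMap.ext
      intro X
      show 1 * P₂ (1 * X * 1) * 1 = P₂ X
      simp only [Matrix.one_mul, Matrix.mul_one]
    rw [h1]
    exact ⟨fun k' => Us_van (Sd_br H.hJ) (H.Dec k) k', rfl⟩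
  | @step g h w c _ ih =>
    have hyy := sq_sq H.hJ w
    have h1 := ih.step (x := adm (sq J w)) ⟨_, sq_mem H.hJ w, rfl⟩
      (path_qp (adm_sq hyy) (adm_th hyy) (th_adm hyy) (mt (cj g h ∘ₗ P₂ ∘ₗ cj h g))) (by
        rw [path_eval]
        simp) c
    rw [path_eval, exp_adm, exp_adm', ← mt_mul, ← mt_mul] at h1
    have h2 : (cj (1 + c • sq J w) (1 - c • sq J w) ∘ₗ cj g h ∘ₗ P₂ ∘ₗ cj h g) ∘ₗ cj (1 - c • sq J w) (1 + c • sq J w) =
        cj ((1 + c • sq J w) * g) (h * (1 - c • sq J w)) ∘ₗ P₂ ∘ₗ cj (h * (1 - c • sq J w)) ((1 + c • sq J w) * g) := by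
      rw [← cj_comp, ← cj_comp]
      rfl
    rw [h2] at h1
    exact h1

/-- **the leading term** -/
theorem Two.lead {k : ℕ} (hk : 1 ≤ k) {g h : Mn n F} (hg : Gm J g h) {y : Mn n F} (hy : y ∈ spS J) (hyy : y * y = 0) :
    LinearMap.trace F _ ((P₁ ∘ₗ (th y ∘ₗ (cj g h ∘ₗ P₂ ∘ₗ cj h g) ∘ₗ th y)) ^ k) = 0 := by
  set T := cj g h ∘ₗ P₂ ∘ₗ cj h g with hT
  set x := adm y with hx
  set z := mt (-th y) with hz
  set β := mt T with hβ
  have h1 : ∀ c : F, ev ((1 + c • x + c ^ 2 • z) * β * (1 - c • x + c ^ 2 • z)) (Pk P₁ k) = ev (mt P₂) (Pk P₁ k) := by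
    intro c
    have h2 := (H.van k hg).step (x := adm y) ⟨_, hy, rfl⟩
      (path_qp (adm_sq hyy) (adm_th hyy) (th_adm hyy) (mt (cj g h ∘ₗ P₂ ∘ₗ cj h g))) (by
        rw [path_eval]
        simp) c
    rw [path_eval] at h2
    exact h2.2
  have h2 := zero_of_quartic (Ψ := Pk P₁ k) hk (hm_Pk P₁ k)
    (β := ![β, x * β - β * x, z * β + β * z - x * β * x, x * β * z - z * β * x, z * β * z]) (κ := ev (mt P₂) (Pk P₁ k)) fun c => by
      rw [← h1 c]
      refine congrArg (fun B => ev B (Pk P₁ k)) ?_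
      show β + c • (x * β - β * x) + c ^ 2 • (z * β + β * z - x * β * x) + c ^ 3 • (x * β * z - z * β * x) +
        c ^ 4 • (z * β * z) = _
      simp only [Matrix.add_mul, Matrix.mul_add, Matrix.mul_sub, Matrix.one_mul, Matrix.mul_one,
        Matrix.smul_mul, Matrix.mul_smul, smul_smul, smul_sub, smul_add]
      module
  have h3 : (![β, x * β - β * x, z * β + β * z - x * β * x, x * β * z - z * β * x, z * β * z] : Fin 5 → _) 4 = z * β * z := rfl
  rw [h3] at h2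
  have h4 : z * β * z = mt (th y ∘ₗ T ∘ₗ th y) := by
    rw [hz, hβ, ← mt_mul, ← mt_mul]
    congr 1
    apply LinearMap.ext
    intro Z
    show -(th y) (T ((-th y) Z)) = th y (T (th y Z))
    rw [LinearMap.neg_apply, map_neg, map_neg, neg_neg]
  rw [h4, ev_Pk] at h2
  exact h2

end

end Pool.Agent.H936.G
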