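import Pool.Agent.H936.SL.Pj

/-!
# Functions which are invariant under a subalgebra, on the orbit of a point fixed by a second subalgebra: general index types
-/

set_option autoImplicit false
set_option linter.unusedSectionVars false
set_option linter.unusedVariables false

open Matrix MvPolynomial

namespace Pool.Agent.H936.G

variable {F : Type} [Field F] {ι : Type} [Fintype ι] [DecidableEq ι]

/-- the polynomial functions on the space of matrices -/
abbrev Pg (ι : Type) (F : Type) [Field F] : Type := MvPolynomial (ι × ι) F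

/-- the generic matrix -/
noncomputable def bm : Matrix ι ι (Pg ι F) := Matrix.of fun i j => X (i, j)

/-- constant matrices -/
noncomputable def cst (X : Matrix ι ι F) : Matrix ι ι (Pg ι F) := X.map C

/-- the commutator with the generic matrix -/
noncomputable def BX (X : Matrix ι ι F) : Matrix ι ι (Pg ι F) := cst X * bm - bm * cst X

/-- the derivation `b ↦ [X, b]` -/
noncomputable def DX (X : Matrix ι ι F) : Derivation F (Pg ι F) (Pg ι F) :=
  mkDerivation F fun p => BX X p.1 p.2

/-- the evaluation at a matrix -/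
noncomputable def ev (β : Matrix ι ι F) : Pg ι F →ₐ[F] F := aeval fun p => β p.1 p.2

theorem ev_X (β : Matrix ι ι F) (i j : ι) : ev β (X (i, j)) = β i j := by
  unfold ev
  rw [aeval_X]

theorem ev_C (β : Matrix ι ι F) (c : F) : ev β (C c) = c := by
  unfold ev
  rw [aeval_C]
  rfl

theorem ev_bm (β : Matrix ι ι F) : (bm (F := F)).map (ev β) = β := by
  ext i j
  exact ev_X β i j

theorem ev_cst (β X : Matrix ι ι F) : (cst X).map (ev β) = X := by
  ext i j
  exact ev_C β _

theorem DX_X (X' : Matrix ι ι F) (p : ι × ι) :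
    DX X' (X p) = BX X' p.1 p.2 := by
  unfold DX
  rw [mkDerivation_X]

theorem map_mulm {R S : Type} [CommRing R] [CommRing S] {κ : Type} [Fintype κ] (f : R →+* S) (A B : Matrix κ κ R) :
    (A * B).map f = A.map f * B.map f := Matrix.map_mul

/-- derivations of products of matrices -/
theorem dmap_mul {R : Type} [CommRing R] [Algebra F R] (D : Derivation F R R) {κ : Type} [Fintype κ] (A B : Matrix κ κ R) :
    (A * B).map D = A.map D * B + A * B.map D := by
  ext i j
  simp only [Matrix.map_apply, Matrix.mul_apply, Matrix.add_apply, map_sum, Derivation.leibniz, smul_eq_mul,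
    Finset.sum_add_distrib]
  rw [add_comm]
  congr 1
  exact Finset.sum_congr rfl fun k _ => mul_comm _ _

theorem DX_bm (X' : Matrix ι ι F) : (bm (F := F)).map (DX X') = BX X' := by
  ext i j : 1
  exact DX_X X' (i, j)

theorem DX_cst (X' Y : Matrix ι ι F) : (cst Y).map (DX X') = 0 := by
  ext i j : 1
  exact Derivation.map_algebraMap (DX X') (Y i j)

theorem cst_mul (X' Y : Matrix ι ι F) : cst (X' * Y) = cst X' * cst Y := map_mulm C X' Y

theorem cst_add (X' Y : Matrix ι ι F) : cst (X' + Y) = cst X' + cst Y := by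
  ext i j : 1
  exact map_add C (X' i j) (Y i j)

theorem cst_sub (X' Y : Matrix ι ι F) : cst (X' - Y) = cst X' - cst Y := by
  ext i j : 1
  exact map_sub C (X' i j) (Y i j)

theorem cst_smul (c : F) (Y : Matrix ι ι F) :
    cst (c • Y) = (C c : Pg ι F) • (cst Y : Matrix ι ι (Pg ι F)) := by
  ext i j : 1
  exact map_mul C c (Y i j)

theorem DX_add (X' Y : Matrix ι ι F) : DX (X' + Y) = DX X' + DX Y := by
  apply derivation_ext
  intro p
  rw [Derivation.add_apply, DX_X, DX_X, DX_X]
  unfold BX
  rw [cst_add, Matrix.add_mul, Matrix.mul_add]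
  simp only [Matrix.sub_apply, Matrix.add_apply]
  ring

/-- the commutator -/
theorem DX_comm (X' Y : Matrix ι ι F) (Θ : Pg ι F) :
    DX X' (DX Y Θ) - DX Y (DX X' Θ) = DX (Y * X' - X' * Y) Θ := by
  have h : ⁅DX X', DX Y⁆ = DX (Y * X' - X' * Y) := by
    apply derivation_ext
    intro p
    rw [Derivation.commutator_apply, DX_X, DX_X, DX_X]
    have h1 : ∀ A B : Matrix ι ι F, DX A (BX B p.1 p.2) =
        (cst B * BX A - BX A * cst B : Matrix ι ι (Pg ι F)) p.1 p.2 := by
      intro A B
      have h2 : DX A (BX B p.1 p.2) =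
          ((cst B * bm : Matrix ι ι (Pg ι F)).map (DX A) -
            (bm * cst B : Matrix ι ι (Pg ι F)).map (DX A)) p.1 p.2 := by
        unfold BX
        rw [Matrix.sub_apply, Matrix.sub_apply, map_sub]
        rfl
      rw [h2, dmap_mul, dmap_mul, DX_bm, DX_cst, Matrix.zero_mul, Matrix.mul_zero, zero_add, add_zero]
    rw [h1, h1, ← Matrix.sub_apply]
    unfold BX
    rw [cst_sub, cst_mul, cst_mul]
    refine congrFun (congrFun ?_ p.1) p.2
    simp only [Matrix.mul_sub, Matrix.sub_mul, Matrix.mul_assoc]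
    abel
  rw [← h, Derivation.commutator_apply]

/-- evaluation of the commutator -/
theorem BX_map {R : Type} [CommRing R] [Algebra F R] (f : Pg ι F →ₐ[F] R) (B : Matrix ι ι F) :
    (BX B).map f = (cst B).map f * (bm (F := F)).map f - (bm (F := F)).map f * (cst B).map f := by
  have h3 : (cst B * bm : Matrix ι ι (Pg ι F)).map f = (cst B).map f * (bm (F := F)).map f :=
    map_mulm (f : Pg ι F →+* R) (cst B) bm
  have h4 : (bm * cst B : Matrix ι ι (Pg ι F)).map f = (bm (F := F)).map f * (cst B).map f :=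
    map_mulm (f : Pg ι F →+* R) bm (cst B)
  unfold BX
  rw [← h3, ← h4]
  ext i j : 1
  exact map_sub f _ _

theorem ev_BX (β B : Matrix ι ι F) : (BX B).map (ev β) = B * β - β * B := by
  rw [BX_map, ev_cst, ev_bm]

/-- the derivations in directions which fix the point -/
theorem ev_DX_zero {β B : Matrix ι ι F} (h : B * β = β * B) (Θ : Pg ι F) : ev β (DX B Θ) = 0 := by
  induction Θ using MvPolynomial.induction_on with
  | C c =>
    have h1 : DX B (C c) = 0 := Derivation.map_algebraMap _ _
    rw [h1, map_zero]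
  | add p q hp hq => rw [map_add, map_add, hp, hq, add_zero]
  | mul_X p i hp =>
    rw [Derivation.leibniz, map_add, smul_eq_mul, smul_eq_mul, map_mul, map_mul, hp, mul_zero, add_zero, DX_X]
    have h1 : ev β (BX B i.1 i.2) = ((BX B).map (ev β)) i.1 i.2 := rfl
    rw [h1, ev_BX, h, sub_self, Matrix.zero_apply, mul_zero]

/-- the derivatives of `Ψ` of order `k` in the directions of `S` -/
noncomputable def Us (S : Submodule F (Matrix ι ι F)) (Ψ : Pg ι F) : ℕ → Submodule F (Pg ι F)
  | 0 => Submodule.span F {Ψ}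
  | k + 1 => Submodule.span F {Θ | ∃ X' ∈ S, ∃ Θ' ∈ Us S Ψ k, Θ = DX X' Θ'}

variable {S : Submodule F (Matrix ι ι F)} {Ψ : Pg ι F}

theorem DX_Us {X' : Matrix ι ι F} (hX : X' ∈ S) {k : ℕ} {Θ : Pg ι F} (hΘ : Θ ∈ Us S Ψ k) :
    DX X' Θ ∈ Us S Ψ (k + 1) := Submodule.subset_span ⟨X', hX, Θ, hΘ, rfl⟩

theorem Us_Z (hS : ∀ X' ∈ S, ∀ Y ∈ S, X' * Y - Y * X' ∈ S) {Z : Matrix ι ι F} (hZ : Z ∈ S)
    (hZΨ : DX Z Ψ = 0) (k : ℕ) : ∀ Θ ∈ Us S Ψ k, DX Z Θ ∈ Us S Ψ k ∧ (k = 0 → DX Z Θ = 0) := by
  induction k with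
  | zero =>
    intro Θ hΘ
    obtain ⟨c, rfl⟩ := Submodule.mem_span_singleton.1 hΘ
    rw [Derivation.map_smul, hZΨ, smul_zero]
    exact ⟨Submodule.zero_mem _, fun _ => rfl⟩
  | succ k ih =>
    intro Θ hΘ
    refine ⟨?_, fun h => absurd h (Nat.succ_ne_zero k)⟩
    have hΘ' : Θ ∈ Submodule.span F {Θ | ∃ X' ∈ S, ∃ Θ' ∈ Us S Ψ k, Θ = DX X' Θ'} := hΘ
    induction hΘ' using Submodule.span_induction with
    | mem Θ h =>
      obtain ⟨X', hX, Θ', h', rfl⟩ := h
      have h1 := DX_comm Z X' Θ'
      have h2 : DX Z (DX X' Θ') = DX X' (DX Z Θ') + DX (X' * Z - Z * X') Θ' := by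
        rw [← h1]
        ring
      rw [h2]
      exact Submodule.add_mem _ (DX_Us hX (ih _ h').1) (DX_Us (hS X' hX Z hZ) h')
    | zero => rw [map_zero]; exact Submodule.zero_mem _
    | add a b ha hb iha ihb => rw [map_add]; exact Submodule.add_mem _ (iha ha) (ihb hb)
    | smul c a ha iha => rw [Derivation.map_smul]; exact Submodule.smul_mem _ c (iha ha)

/-- every direction of `S` is the sum of one under which `Ψ` is invariant and of one which fixes `α` -/
def Dec (S : Submodule F (Matrix ι ι F)) (Ψ : Pg ι F) (α : Matrix ι ι F) : Prop :=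
  ∀ X' ∈ S, ∃ Z B, X' = Z + B ∧ Z ∈ S ∧ DX Z Ψ = 0 ∧ B * α = α * B

theorem Us_van (hS : ∀ X' ∈ S, ∀ Y ∈ S, X' * Y - Y * X' ∈ S) {α : Matrix ι ι F} (hd : Dec S Ψ α) (k : ℕ) :
    ∀ Θ ∈ Us S Ψ (k + 1), ev α Θ = 0 := by
  induction k with
  | zero =>
    intro Θ hΘ
    have hΘ' : Θ ∈ Submodule.span F {Θ | ∃ X' ∈ S, ∃ Θ' ∈ Us S Ψ 0, Θ = DX X' Θ'} := hΘ
    induction hΘ' using Submodule.span_induction with
    | mem Θ h =>
      obtain ⟨X', hX, Θ', h', rfl⟩ := h
      obtain ⟨Z, B, rfl, hZ, hZΨ, hB⟩ := hd X' hX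
      rw [DX_add, Derivation.add_apply, map_add, ev_DX_zero hB, add_zero, (Us_Z hS hZ hZΨ 0 Θ' h').2 rfl, map_zero]
    | zero => exact map_zero _
    | add a b ha hb iha ihb => rw [map_add, iha ha, ihb hb, add_zero]
    | smul c a ha iha => rw [map_smul, iha ha, smul_zero]
  | succ k ih =>
    intro Θ hΘ
    have hΘ' : Θ ∈ Submodule.span F {Θ | ∃ X' ∈ S, ∃ Θ' ∈ Us S Ψ (k + 1), Θ = DX X' Θ'} := hΘ
    induction hΘ' using Submodule.span_induction with
    | mem Θ h =>
      obtain ⟨X', hX, Θ', h', rfl⟩ := h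
      obtain ⟨Z, B, rfl, hZ, hZΨ, hB⟩ := hd X' hX
      rw [DX_add, Derivation.add_apply, map_add, ev_DX_zero hB, add_zero, ih _ (Us_Z hS hZ hZΨ (k + 1) Θ' h').1]
    | zero => exact map_zero _
    | add a b ha hb iha ihb => rw [map_add, iha ha, ihb hb, add_zero]
    | smul c a ha iha => rw [map_smul, iha ha, smul_zero]

/-! ### Paths -/

/-- evaluation along a path -/
noncomputable def evp (M : Matrix ι ι (Polynomial F)) : Pg ι F →ₐ[F] Polynomial F := aeval fun p => M p.1 p.2

/-- the path moves in the direction of the commutator with `x` -/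
def Path (x : Matrix ι ι F) (M : Matrix ι ι (Polynomial F)) : Prop :=
  M.map (Polynomial.derivative : Polynomial F →ₗ[F] Polynomial F) = x.map Polynomial.C * M - M * x.map Polynomial.C

theorem evp_der {x : Matrix ι ι F} {M : Matrix ι ι (Polynomial F)} (hM : Path x M) (Θ : Pg ι F) :
    Polynomial.derivative (evp M Θ) = evp M (DX x Θ) := by
  induction Θ using MvPolynomial.induction_on with
  | C c =>
    have h1 : DX x (C c) = 0 := Derivation.map_algebraMap _ _
    have h2 : evp M (C c) = Polynomial.C c := by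
      unfold evp
      rw [aeval_C]
      rfl
    rw [h1, map_zero, h2, Polynomial.derivative_C]
  | add p q hp hq => rw [map_add, map_add, map_add, map_add, hp, hq]
  | mul_X p i hp =>
    rw [map_mul, Polynomial.derivative_mul, hp, Derivation.leibniz, map_add, smul_eq_mul, smul_eq_mul, map_mul, map_mul,
      add_comm]
    have h1 : evp M (X i) = M i.1 i.2 := by
      unfold evp
      rw [aeval_X]
    have h2 : evp M (DX x (X i)) = Polynomial.derivative (evp M (X i)) := by
      rw [h1, DX_X]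
      have h3 := congrFun (congrFun hM i.1) i.2
      rw [Matrix.map_apply] at h3
      refine Eq.trans ?_ h3.symm
      have h4 : evp M (BX x i.1 i.2) = ((BX x).map (evp M)) i.1 i.2 := rfl
      rw [h4]
      have h5 : (cst x).map (evp M) = x.map Polynomial.C := by
        ext a b : 1
        show evp M (C (x a b)) = _
        unfold evp
        rw [aeval_C]
        rfl
      have h6 : (bm (F := F)).map (evp M) = M := by
        ext a b : 1
        show evp M (X (a, b)) = _
        unfold evp
        rw [aeval_X]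
      rw [BX_map, h5, h6]
    rw [h2]
    ring

theorem evp_eval (M : Matrix ι ι (Polynomial F)) (c : F) (Θ : Pg ι F) :
    Polynomial.eval c (evp M Θ) = ev (M.map (Polynomial.eval c)) Θ := by
  have h1 : (Polynomial.aeval c).comp (evp M) = ev (M.map (Polynomial.eval c)) := by
    apply MvPolynomial.algHom_ext
    intro p
    rw [AlgHom.comp_apply]
    unfold evp ev
    rw [aeval_X, aeval_X, Polynomial.coe_aeval_eq_eval]
    rfl
  rw [← h1, AlgHom.comp_apply, Polynomial.coe_aeval_eq_eval]

/-- all derivatives of `Ψ` vanish at `β`, and the values at `α` and `β` are the same -/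
def Van (S : Submodule F (Matrix ι ι F)) (Ψ : Pg ι F) (α β : Matrix ι ι F) : Prop :=
  (∀ k, ∀ Θ ∈ Us S Ψ (k + 1), ev β Θ = 0) ∧ ev β Ψ = ev α Ψ

theorem iter_mem {x : Matrix ι ι F} (hx : x ∈ S) {k : ℕ} {Θ : Pg ι F} (hΘ : Θ ∈ Us S Ψ k) (j : ℕ) :
    (DX x)^[j] Θ ∈ Us S Ψ (k + j) := by
  induction j with
  | zero => exact hΘ
  | succ j ih =>
    rw [Function.iterate_succ_apply']
    exact DX_Us hx ih

theorem evp_const [CharZero F] {x β : Matrix ι ι F} {M : Matrix ι ι (Polynomial F)} (hM : Path x M)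
    (hβ : M.map (Polynomial.eval 0) = β) {Θ : Pg ι F}
    (h : ∀ j, ev β ((DX x)^[j + 1] Θ) = 0) (c : F) : ev (M.map (Polynomial.eval c)) Θ = ev β Θ := by
  have h0 : ev β Θ = Polynomial.eval 0 (evp M Θ) := by
    rw [evp_eval, hβ]
  rw [h0, ← evp_eval]
  set p := evp M Θ with hp
  have h1 : ∀ j, Polynomial.derivative^[j] p = evp M ((DX x)^[j] Θ) := by
    intro j
    induction j with
    | zero => rfl
    | succ j ih => rw [Function.iterate_succ_apply', Function.iterate_succ_apply', ih, evp_der hM]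
  have h2 : ∀ j, p.coeff (j + 1) = 0 := by
    intro j
    have h3 : Polynomial.eval 0 (Polynomial.derivative^[j + 1] p) = 0 := by
      rw [h1, evp_eval, hβ]
      exact h j
    rw [← Polynomial.coeff_zero_eq_eval_zero, Polynomial.coeff_iterate_derivative, zero_add,
      Nat.descFactorial_self, nsmul_eq_mul] at h3
    exact (mul_eq_zero.1 h3).resolve_left (by exact_mod_cast (j + 1).factorial_ne_zero)
  have h4 : p = Polynomial.C (p.coeff 0) := by
    ext j
    rcases j with _ | j
    · simp
    · rw [h2, Polynomial.coeff_C_succ]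
  rw [h4, Polynomial.eval_C, Polynomial.eval_C]

theorem Van.step [CharZero F] {α β : Matrix ι ι F} (h : Van S Ψ α β) {x : Matrix ι ι F} (hx : x ∈ S)
    {M : Matrix ι ι (Polynomial F)} (hM : Path x M) (hβ : M.map (Polynomial.eval 0) = β) (c : F) :
    Van S Ψ α (M.map (Polynomial.eval c)) := by
  refine ⟨fun k Θ hΘ => ?_, ?_⟩
  · rw [evp_const hM hβ (fun j => ?_), h.1 k Θ hΘ]
    have h1 := iter_mem hx hΘ (j + 1)
    have h2 : k + 1 + (j + 1) = (k + j + 1) + 1 := by ring
    rw [h2] at h1
    exact h.1 _ _ h1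
  · rw [evp_const hM hβ (fun j => ?_), h.2]
    have h0 : Ψ ∈ Us S Ψ 0 := Submodule.mem_span_singleton_self Ψ
    have h1 := iter_mem hx h0 (j + 1)
    rw [zero_add] at h1
    exact h.1 _ _ h1

/-! ### The path of a nilpotent matrix of order three -/

theorem pC_mul (A B : Matrix ι ι F) : (A * B).map (Polynomial.C : F →+* Polynomial F) =
    A.map Polynomial.C * B.map Polynomial.C := map_mulm _ _ _

/-- `1 + s x + s² z` -/
noncomputable def qp (x z : Matrix ι ι F) : Matrix ι ι (Polynomial F) :=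
  1 + (Polynomial.X : Polynomial F) • x.map Polynomial.C + (Polynomial.X ^ 2 : Polynomial F) • z.map Polynomial.C

theorem qp_eval (x z : Matrix ι ι F) (c : F) : (qp x z).map (Polynomial.eval c) = 1 + c • x + c ^ 2 • z := by
  ext i j
  unfold qp
  simp only [Matrix.map_apply, Matrix.add_apply, Matrix.smul_apply, smul_eq_mul, Matrix.one_apply, Polynomial.eval_add,
    Polynomial.eval_mul, Polynomial.eval_X, Polynomial.eval_C, Polynomial.eval_pow]
  split_ifs <;> simp

theorem qp_der (x z : Matrix ι ι F) : (qp x z).map (Polynomial.derivative : Polynomial F →ₗ[F] Polynomial F) =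
    x.map Polynomial.C + (Polynomial.X : Polynomial F) • ((2 : F) • z).map Polynomial.C := by
  ext i j : 1
  unfold qp
  simp only [Matrix.map_apply, Matrix.add_apply, Matrix.smul_apply, smul_eq_mul, Matrix.one_apply, map_add, map_mul,
    Polynomial.derivative_mul, Polynomial.derivative_X, Polynomial.derivative_C, Polynomial.derivative_X_pow, Nat.cast_ofNat]
  split_ifs <;> simp <;> ring

theorem der_mulm (A B : Matrix ι ι (Polynomial F)) :
    (A * B).map (Polynomial.derivative : Polynomial F →ₗ[F] Polynomial F) =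
      A.map (Polynomial.derivative : Polynomial F →ₗ[F] Polynomial F) * B +
        A * B.map (Polynomial.derivative : Polynomial F →ₗ[F] Polynomial F) := by
  ext i j : 1
  simp only [Matrix.map_apply, Matrix.mul_apply, Matrix.add_apply, map_sum, Polynomial.derivative_mul,
    Finset.sum_add_distrib]

theorem der_pC (A : Matrix ι ι F) :
    (A.map Polynomial.C).map (Polynomial.derivative : Polynomial F →ₗ[F] Polynomial F) = 0 := by
  ext i j : 1
  exact Polynomial.derivative_C

/-- the path `(1 + s x + s² z) β (1 - s x + s² z)` with `x² = 2 z`, `x z = z x = 0` -/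
theorem path_qp {x z : Matrix ι ι F} (h1 : x * x = (2 : F) • z) (h2 : x * z = 0) (h3 : z * x = 0) (β : Matrix ι ι F) :
    Path x (qp x z * β.map Polynomial.C * qp (-x) z) := by
  have e1 : x.map (Polynomial.C : F →+* Polynomial F) * x.map Polynomial.C = ((2 : F) • z).map Polynomial.C := by
    rw [← pC_mul, h1]
  have e2 : x.map (Polynomial.C : F →+* Polynomial F) * z.map Polynomial.C = 0 := by
    rw [← pC_mul, h2]
    ext i j : 1
    exact map_zero (Polynomial.C : F →+* Polynomial F)
  have e3 : z.map (Polynomial.C : F →+* Polynomial F) * x.map Polynomial.C = 0 := by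
    rw [← pC_mul, h3]
    ext i j : 1
    exact map_zero (Polynomial.C : F →+* Polynomial F)
  have e4 : (-x).map (Polynomial.C : F →+* Polynomial F) = -(x.map Polynomial.C) := by
    ext i j : 1
    exact map_neg (Polynomial.C : F →+* Polynomial F) _
  have k1 : x.map (Polynomial.C : F →+* Polynomial F) * qp x z = (qp x z).map
      (Polynomial.derivative : Polynomial F →ₗ[F] Polynomial F) := by
    rw [qp_der]
    unfold qp
    rw [Matrix.mul_add, Matrix.mul_add, Matrix.mul_one, Matrix.mul_smul, Matrix.mul_smul, e1, e2, smul_zero, add_zero]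
  have k2 : qp (-x) z * x.map (Polynomial.C : F →+* Polynomial F) = -((qp (-x) z).map
      (Polynomial.derivative : Polynomial F →ₗ[F] Polynomial F)) := by
    rw [qp_der]
    unfold qp
    rw [Matrix.add_mul, Matrix.add_mul, Matrix.one_mul, Matrix.smul_mul, Matrix.smul_mul, e4, Matrix.neg_mul, e1, e3, smul_zero,
      add_zero]
    rw [smul_neg, neg_add, neg_neg]
  unfold Path
  rw [der_mulm, der_mulm, der_pC, Matrix.mul_zero, add_zero, ← k1]
  have k3 : (qp (-x) z).map (Polynomial.derivative : Polynomial F →ₗ[F] Polynomial F) =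
      -(qp (-x) z * x.map (Polynomial.C : F →+* Polynomial F)) := by
    rw [k2, neg_neg]
  rw [k3]
  simp only [Matrix.mul_assoc, Matrix.mul_neg]
  abel

theorem path_eval (x z β : Matrix ι ι F) (c : F) : (qp x z * β.map Polynomial.C * qp (-x) z).map (Polynomial.eval c) =
    (1 + c • x + c ^ 2 • z) * β * (1 - c • x + c ^ 2 • z) := by
  have h1 : (qp x z * β.map Polynomial.C * qp (-x) z).map (Polynomial.eval c) =
      (qp x z).map (Polynomial.eval c) * (β.map Polynomial.C).map (Polynomial.eval c) * (qp (-x) z).map (Polynomial.eval c) := by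
    have e := map_mulm (Polynomial.evalRingHom c) (qp x z * β.map Polynomial.C) (qp (-x) z)
    have e' := map_mulm (Polynomial.evalRingHom c) (qp x z) (β.map Polynomial.C)
    have h0 : ∀ A : Matrix ι ι (Polynomial F), A.map (Polynomial.evalRingHom c) = A.map (Polynomial.eval c) := fun A => rfl
    rw [h0, h0, h0] at e
    rw [h0, h0, h0] at e'
    rw [e, e']
  have h2 : (β.map Polynomial.C).map (Polynomial.eval c) = β := by
    ext i j
    simp
  rw [h1, h2, qp_eval, qp_eval, smul_neg, ← sub_eq_add_neg]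

/-- homogeneous functions -/
def Hm (d : ℕ) (Ψ : Pg ι F) : Prop := ∀ (β : Matrix ι ι F) (r : F), ev (r • β) Ψ = r ^ d * ev β Ψ

/-- **the leading coefficient** -/
theorem zero_of_quartic [CharZero F] {Ψ : Pg ι F} {d : ℕ} (hd : 1 ≤ d) (hh : Hm d Ψ) {β : Fin 5 → Matrix ι ι F} {κ : F}
    (h : ∀ c : F, ev (β 0 + c • β 1 + c ^ 2 • β 2 + c ^ 3 • β 3 + c ^ 4 • β 4) Ψ = κ) : ev (β 4) Ψ = 0 := by
  have : Infinite F := inferInstance
  let M : Matrix ι ι (Polynomial F) := (β 4).map Polynomial.C + (Polynomial.X : Polynomial F) • (β 3).map Polynomial.C +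
    (Polynomial.X ^ 2 : Polynomial F) • (β 2).map Polynomial.C + (Polynomial.X ^ 3 : Polynomial F) • (β 1).map Polynomial.C +
    (Polynomial.X ^ 4 : Polynomial F) • (β 0).map Polynomial.C
  have hM : ∀ s : F, M.map (Polynomial.eval s) = β 4 + s • β 3 + s ^ 2 • β 2 + s ^ 3 • β 1 + s ^ 4 • β 0 := by
    intro s
    ext i j
    simp [M]
    ring
  have h1 : evp M Ψ = Polynomial.X ^ (4 * d) * Polynomial.C κ := by
    apply Polynomial.eq_of_infinite_eval_eq
    refine Set.Infinite.mono (s := {z | z ≠ 0}) (fun s hs => ?_) (Set.Finite.infinite_compl (Set.finite_singleton (0 : F)))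
    have hs0 : s ≠ 0 := hs
    show Polynomial.eval s (evp M Ψ) = Polynomial.eval s (Polynomial.X ^ (4 * d) * Polynomial.C κ)
    rw [evp_eval, hM]
    have h2 : β 4 + s • β 3 + s ^ 2 • β 2 + s ^ 3 • β 1 + s ^ 4 • β 0 =
        (s ^ 4) • (β 0 + s⁻¹ • β 1 + s⁻¹ ^ 2 • β 2 + s⁻¹ ^ 3 • β 3 + s⁻¹ ^ 4 • β 4) := by
      simp only [smul_add, smul_smul]
      have e1 : s ^ 4 * s⁻¹ = s ^ 3 := by field_simp
      have e2 : s ^ 4 * s⁻¹ ^ 2 = s ^ 2 := by field_simp
      have e3 : s ^ 4 * s⁻¹ ^ 3 = s := by field_simp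
      have e4 : s ^ 4 * s⁻¹ ^ 4 = 1 := by field_simp
      rw [e1, e2, e3, e4, one_smul]
      abel
    rw [h2, hh, h]
    simp only [Polynomial.eval_mul, Polynomial.eval_pow, Polynomial.eval_X, Polynomial.eval_C]
    rw [← pow_mul]
  have h3 := evp_eval M 0 Ψ
  rw [hM, h1] at h3
  have h4 : β 4 + (0 : F) • β 3 + (0 : F) ^ 2 • β 2 + (0 : F) ^ 3 • β 1 + (0 : F) ^ 4 • β 0 = β 4 := by simp
  rw [h4] at h3
  rw [← h3]
  simp only [Polynomial.eval_mul, Polynomial.eval_pow, Polynomial.eval_X, Polynomial.eval_C]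
  rw [zero_pow (by omega), zero_mul]

end Pool.Agent.H936.G
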