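import Pool.Agent.H936.G.Fin

/-!
# A special fibre
-/

set_option autoImplicit false
set_option linter.unusedSectionVars false
set_option linter.unusedVariables false
set_option maxHeartbeats 400000

open Matrix Module Filter

namespace Pool.Agent.H936.G

open Pool.Agent.Helper880_LF (om om_add_left om_add_right om_smul_left om_smul_right pr spS mem_spS comm_mem simple)
open Pool.Agent.Helper880_LF.NB (gm gm_mul gm_add gm_sub gm_smul gm_zero gm_one gm_ev gm_eq gm_neg gm_unit gm_transpose gm_kt gm_surj kt kt_apply dm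
  dm_mul dm_smul dm_transpose kerD mem_kerD ker_alg ker_adj gm_apply)
open Pool.Agent.Helper880_R3 (Ix ib Tot GU mem_GU lieB mem_lieB Inf Few nil_lie nexp exp_stab)
open Pool.Agent.Y118.UL (mk mk_eq mk_eq_zero mk_surj U)
open Pool.Agent.Y119.HY (cm cm_apply cm_mul cm_one cm_transpose cm_zero cm_add cm_neg cm_pow)
open Pool.Agent.Y102 (AbVar QBar tau toC toC_eq)
open Pool.Agent.W516.DR (X0 XX cmpE X0_mem IsDeRhamBettiEnd IsDeRhamBettiSubspace sub_of_stable)
open Pool.Agent.W516.KC (Semi IsSkew central_of_trace)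
open Pool.Agent.R917 (PM QQ lamF lamF_apply exists_inv toC_cmpE X0_eq derQ)
open Pool.Agent.Y123.ST (fl um LL LL_def logder_mem fl_um um_fl)
open Pool.Agent.TH127.PT (IsSubtorsor)
open Pool.Agent.H936.SL

variable {n N r₀ g : ℕ}

/-! ### rational Lie algebras -/

/-- a Lie algebra over `ℚ` which contains the logarithmic derivatives of the periods of `A` -/
structure RLie (A : AbVar g) (H R : Matrix (Fin (2 * g)) (Fin (2 * g)) ℚ) (𝔩 : Submodule ℂ (Mn (2 * g) ℂ)) : Prop where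
  le : 𝔩 ≤ spS (cm H⁻¹)
  br : ∀ X ∈ 𝔩, ∀ Y ∈ 𝔩, X * Y - Y * X ∈ 𝔩
  rat : ∀ (f : ℂ →ₗ[QQ] ℂ), ∀ X ∈ 𝔩, X.map f ∈ 𝔩
  mem : ∀ (D : Derivation QBar ℂ ℂ) (lam : ℂ →ₗ[ℚ] ℚ), bt R (X0 A.basis tau D lam) ∈ 𝔩

section
variable {A : AbVar g} {H R : Matrix (Fin (2 * g)) (Fin (2 * g)) ℚ} {P : Mn (2 * g) ℂ} {𝔩 : Submodule ℂ (Mn (2 * g) ℂ)}

/-- the rational Lie algebra -/
def hr (A : AbVar g) (R : Matrix (Fin (2 * g)) (Fin (2 * g)) ℚ) (𝔩 : Submodule ℂ (Mn (2 * g) ℂ)) :
    Submodule ℚ (Module.End ℚ A.H1) where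
  carrier := {X | bt R X ∈ 𝔩}
  zero_mem' := by
    show bt R 0 ∈ 𝔩
    rw [bt_zero]
    exact Submodule.zero_mem _
  add_mem' := by
    intro a b ha hb
    show bt R (a + b) ∈ 𝔩
    rw [bt_add]
    exact Submodule.add_mem _ ha hb
  smul_mem' := by
    intro c a ha
    show bt R (c • a) ∈ 𝔩
    rw [bt_smul]
    exact Submodule.smul_mem _ _ ha

theorem RLie.hr_br (h : RLie A H R 𝔩) (hR : IsUnit R.det) :
    ∀ X ∈ hr A R 𝔩, ∀ Y ∈ hr A R 𝔩, X * Y - Y * X ∈ hr A R 𝔩 := by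
  intro X hX Y hY
  show bt R (X * Y - Y * X) ∈ 𝔩
  rw [bt_sub, bt_mul hR, bt_mul hR]
  exact h.br _ hY _ hX

theorem RLie.hr_semi (h : RLie A H R 𝔩) (hH : IsUnit H.det) (hp : Pres A H P R) : Semi (hr A R 𝔩) := by
  intro U hU
  have h1 : IsDeRhamBettiSubspace QBar A.dR U := by
    rw [← A.coe_basis]
    exact sub_of_stable A.basis (τ := tau) U fun D lam u hu => hU _ (h.mem D lam) u hu
  refine ⟨_, fun X hX u hu => ?_, A.isCompl_of_sub h1⟩
  intro v hv
  have hs : IsSkew A.om X := (skew_bt hH hp X).2 (h.le hX)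
  have h2 := hs v u
  have h3 : A.om (X v) u = 0 := hu _ (hU X hX v hv)
  rw [h3, zero_add] at h2
  exact h2

theorem RLie.hr_trace (h : RLie A H R 𝔩) (hH : IsUnit H.det) (hp : Pres A H P R) (hR : IsUnit R.det)
    {X : Module.End ℚ A.H1}
    (hX : X ∈ hr A R 𝔩) (htr : ∀ Y ∈ hr A R 𝔩, LinearMap.trace ℚ A.H1 (X * Y) = 0) : X = 0 := by
  have h1 := central_of_trace _ (h.hr_semi hH hp) (h.hr_br hR) hX htr
  have h2 : IsDeRhamBettiEnd QBar A.dR X := A.end_of_central (𝔥 := hr A R 𝔩) (fun D lam => h.mem D lam) h1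
  obtain ⟨M, hM⟩ := A.hodge_end h2
  exact A.trace_sq hM ((skew_bt hH hp X).2 (h.le hX)) (htr X hX)

/-- **the trace form** -/
theorem RLie.tn (h : RLie A H R 𝔩) (hH : IsUnit H.det) (hp : Pres A H P R) : TN 𝔩 := by
  intro X hX htr
  have hR : IsUnit R.det := by
    obtain ⟨T, T', q, hR, -⟩ := hp
    exact hR
  ext a b
  by_contra hne
  obtain ⟨lam, hlam⟩ : ∃ lam : ℂ →ₗ[ℚ] ℚ, lam (X a b) ≠ 0 := by
    by_contra hcon
    push Not at hcon
    exact hne (Pool.Agent.W516.DR.eq_zero_of_dual hcon)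
  have h1 := h.rat (lamF lam) X hX
  obtain ⟨X', hX'⟩ := bt_surj hR (X.map lam)
  have h2 : bt R X' = X.map (lamF lam) := by
    rw [hX']
    ext i k
    rfl
  have h3 : X' ∈ hr A R 𝔩 := by
    show bt R X' ∈ 𝔩
    rw [h2]
    exact h1
  have h4 : X' = 0 := by
    refine h.hr_trace hH hp hR h3 fun Y hY => ?_
    have h5 := htr _ hY
    have h6 : Matrix.trace (bt R X' * bt R Y) = lamF lam (Matrix.trace (X * bt R Y)) := by
      unfold bt at h2 ⊢
      rw [h2, ← map_mul_cm]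
      unfold Matrix.trace
      rw [map_sum]
      rfl
    rw [h5, map_zero, ← bt_mul hR, bt_trace hR] at h6
    rw [LinearMap.trace_mul_comm]
    exact_mod_cast h6
  rw [h4, bt_zero] at h2
  have h5 := congrFun (congrFun h2 a) b
  rw [Matrix.map_apply, lamF_apply, Matrix.zero_apply] at h5
  exact hlam (by exact_mod_cast h5.symm)

/-- **the Lie algebra is not zero** -/
theorem RLie.ne (h : RLie A H R 𝔩) (hp : Pres A H P R) (hg : 0 < g) : 𝔩 ≠ ⊥ := by
  intro hbot
  have hR : IsUnit R.det := by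
    obtain ⟨T, T', q, hR, -⟩ := hp
    exact hR
  have h0 : ∀ (D : Derivation QBar ℂ ℂ) (lam : ℂ →ₗ[ℚ] ℚ), X0 A.basis tau D lam ∈
      (⊥ : Submodule ℚ (Module.End ℚ A.H1)) := by
    intro D lam
    have h1 := h.mem D lam
    rw [hbot, Submodule.mem_bot] at h1
    rw [Submodule.mem_bot]
    exact bt_inj hR h1
  have h1 : ∀ Q : Module.End ℚ A.H1, IsDeRhamBettiEnd QBar A.dR Q := by
    intro Q
    refine A.end_of_central h0 fun Y hY => ?_
    rw [Submodule.mem_bot] at hY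
    rw [hY, zero_mul, mul_zero]
  set u : A.H1 := Pi.single ⟨0, by omega⟩ 1 with hu
  have hu0 : u ≠ 0 := by
    intro h2
    have h3 := congrFun h2 ⟨0, by omega⟩
    rw [hu, Pi.single_eq_same] at h3
    exact one_ne_zero h3
  set Q : Module.End ℚ A.H1 := (A.om u).smulRight u with hQ
  have hQa : ∀ v, Q v = A.om u v • u := fun v => rfl
  have huu : A.om u u = 0 := by
    have := A.om_anti u u
    linarith
  have hsk : IsSkew A.om Q := by
    intro v w
    rw [hQa, hQa, map_smul, map_smul, LinearMap.smul_apply, smul_eq_mul, smul_eq_mul, A.om_anti v u]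
    ring
  have hsq : Q * Q = 0 := by
    refine LinearMap.ext fun v => ?_
    rw [Module.End.mul_apply, hQa (Q v), hQa v, map_smul, huu, smul_zero, zero_smul]
    rfl
  obtain ⟨M, hM⟩ := A.hodge_end (h1 Q)
  have hQ0 := A.trace_sq hM hsk (by rw [hsq, map_zero])
  apply hu0
  apply A.om_nondeg
  intro v
  have h2 := hQa v
  rw [hQ0, LinearMap.zero_apply] at h2
  exact (smul_eq_zero.1 h2.symm).resolve_right hu0

end

/-! ### the torsor of the special fibre -/

/-- the symplectic part of the Lie algebra of a torsor -/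
def L0 (J : Mn n ℂ) (S : Set (Mn n ℂ)) : Submodule ℂ (Mn n ℂ) where
  carrier := {X | X ∈ spS J ∧ ∃ c : ℂ, X + c • (1 : Mn n ℂ) ∈ Lm S}
  zero_mem' := ⟨Submodule.zero_mem _, 0, by rw [zero_smul, add_zero]; exact Submodule.zero_mem _⟩
  add_mem' := by
    rintro a b ⟨h1, c, h2⟩ ⟨h3, d, h4⟩
    refine ⟨Submodule.add_mem _ h1 h3, c + d, ?_⟩
    have h := Submodule.add_mem _ h2 h4
    rw [add_smul]
    convert h using 1
    abel
  smul_mem' := by
    rintro x a ⟨h1, c, h2⟩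
    refine ⟨Submodule.smul_mem _ _ h1, x * c, ?_⟩
    have h := Submodule.smul_mem _ x h2
    rwa [smul_add, smul_smul] at h

section special
variable {K : Subfield ℂ} {S : Set (Mn (2 * g) ℂ)} {A : AbVar g} {H R : Matrix (Fin (2 * g)) (Fin (2 * g)) ℚ}
  {C : Mn (2 * g) ℂ}

theorem L0_rlie (hK : ∀ x ∈ K, IsAlgebraic ℚ x) (hS : IsSubtorsor K S) (hr : RatGrp S) (hm : C ∈ S) (hp : Pres A H C R)
    (hH : Hᵀ = -H) (hd : IsUnit H.det) : RLie A H R (L0 (cm H⁻¹) S) where
  le := fun X hX => hX.1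
  br := by
    rintro X ⟨h1, c, h2⟩ Y ⟨h3, d, h4⟩
    refine ⟨comm_mem (cm_skew' hH) h1 h3, 0, ?_⟩
    rw [zero_smul, add_zero, ← br_scalar' X Y c d]
    exact LL_br hS ⟨_, hm⟩ h2 h4
  rat := by
    rintro f X ⟨h1, c, h2⟩
    refine ⟨spS_map f h1, f c, ?_⟩
    have h3 := Lm_map hS hr f h2
    rwa [map_addf, map_smul_one] at h3
  mem := by
    intro D lam
    have hR : IsUnit R.det := by
      obtain ⟨T, T', q, hR, -⟩ := hp
      exact hR
    refine ⟨(skew_bt hd hp _).1 (X0_skew A D lam), ((lam (D tau / (2 * tau)) : ℚ) : ℂ), ?_⟩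
    have h1 : C.map (dK D K hK) * C⁻¹ ∈ Lm S := logder_mem hS (dK D K hK) hm
    have h2 := Lm_map hS hr (lamF lam) h1
    obtain ⟨P', e1, e2⟩ := exists_inv A
    have e3 : C.map (dK D K hK) * C⁻¹ = cm R * ((PM A).map D * P') * (cm R)⁻¹ := hp.der D e1
    rw [e3, cm_inv hR, map_mul_cm, cm_map_mul, ← toC_cmpE A D e2 lam, ← cm_inv hR, ← bt_eq hR, ← X0_eq, bt_add,
      bt_smul, bt_one hR] at h2
    exact h2

/-- a full Lie algebra gives stability under the symplectic group -/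
theorem L0_full {J : Mn n ℂ} (hJ : Jᵀ = -J) (hdet : IsUnit J.det) (hn : 0 < n) {S : Set (Mn n ℂ)} {C : Mn n ℂ} (hS : IsSubtorsor K S)
    (hm : C ∈ S) (hL : L0 J S = spS J) : ∀ X ∈ spS J, X ∈ Lm S := by
  have h1 : ∀ x ∈ spS J, ∀ y ∈ Lm S, x * y - y * x ∈ Lm S := by
    intro x hx y hy
    rw [← hL] at hx
    obtain ⟨-, c, hc⟩ := hx
    have h2 := LL_br hS ⟨_, hm⟩ hc hy
    have h3 := br_scalar' x y c 0
    rw [zero_smul, add_zero] at h3
    rw [h3] at h2
    exact h2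
  have h2 : ∀ x ∈ spS J, ∀ y ∈ spS J, x * y - y * x ∈ Lm S := by
    intro x hx y hy
    rw [← hL] at hx hy
    obtain ⟨-, c, hc⟩ := hx
    obtain ⟨-, d, hd⟩ := hy
    have h2 := LL_br hS ⟨_, hm⟩ hc hd
    rwa [br_scalar'] at h2
  -- a noncommuting pair
  obtain ⟨x, hx, hx0⟩ : ∃ x ∈ spS J, x ≠ 0 := by
    set u : Fin n → ℂ := Pi.single ⟨0, hn⟩ 1 with hu
    have hu0 : u ≠ 0 := by
      intro h
      have h4 := congrFun h ⟨0, hn⟩
      rw [hu, Pi.single_eq_same] at h4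
      exact one_ne_zero h4
    obtain ⟨w, hw⟩ := exists_nonorth hJ hdet hu0
    refine ⟨pr J u u, Pool.Agent.Helper880_LF.pr_mem hJ u u, fun h => ?_⟩
    have h3 := congrArg (fun X : Mn n ℂ => X *ᵥ w) h
    simp only [Pool.Agent.Helper880_LF.pr_mulVec, zero_mulVec] at h3
    rw [← add_smul] at h3
    have h4 := (smul_eq_zero.1 h3).resolve_right hu0
    have h5 : (2 : ℂ) * om J u w = 0 := by linear_combination h4
    exact hw ((mul_eq_zero.1 h5).resolve_left two_ne_zero)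
  obtain ⟨y, hy, hxy⟩ : ∃ y ∈ spS J, x * y - y * x ≠ 0 := by
    by_contra hcon
    push Not at hcon
    exact hx0 (spS_centre hJ hdet hx hcon)
  intro X hX
  exact simple hJ hdet h1 (h2 x hx y hy) (comm_mem hJ hx hy) hxy hX

/-- **stability under the symplectic group** -/
theorem sp_stab1 {H : Matrix (Fin n) (Fin n) ℂ} (hHt : Hᵀ = -H) (hH : IsUnit H.det)
    {S : Set (Mn n ℂ)} (hS : IsSubtorsor K S) (h : ∀ X ∈ spS H⁻¹, X ∈ Lm S)
    {γ : (Mn n ℂ)ˣ} (hγ : γ ∈ Pool.Agent.Y123.GN.GB H) {x : Mn n ℂ} (hx : x ∈ S) : (γ : Mn n ℂ) * x ∈ S := by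
  let 𝒮 : Subgroup (Mn n ℂ)ˣ :=
    { carrier := {g | ∀ y ∈ S, (g : Mn n ℂ) * y ∈ S}
      one_mem' := by
        intro y hy
        show ((1 : (Mn n ℂ)ˣ) : Mn n ℂ) * y ∈ S
        rw [Units.val_one, Matrix.one_mul]
        exact hy
      mul_mem' := by
        intro a b ha hb y hy
        have h1 := ha _ (hb y hy)
        rw [← Matrix.mul_assoc] at h1
        exact h1
      inv_mem' := by
        intro a ha y hy
        have h1 := hS.torsor y hy _ (ha y hy) y hy
        have hyu : IsUnit y.det := (Matrix.isUnit_iff_isUnit_det _).1 (hS.isUnit y hy)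
        rw [Matrix.mul_inv_rev, ← Matrix.mul_assoc, mul_nonsing_inv _ hyu, Matrix.one_mul] at h1
        have h3 : ((a : Mn n ℂ))⁻¹ = ((a⁻¹ : (Mn n ℂ)ˣ) : Mn n ℂ) := inv_eq_left_inv (a.inv_mul)
        rw [h3] at h1
        exact h1 }
  have h1 : Pool.Agent.Y123.GN.Ug (Pool.Agent.Y123.GN.GB H) ≤ 𝒮 := by
    unfold Pool.Agent.Y123.GN.Ug
    refine (Subgroup.closure_le _).2 ?_
    rintro u ⟨M, hM, t, hu⟩
    intro y hy
    have hMl := nil_lie hM
    rw [lieB_eq hH] at hMl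
    have h2 : t • M ∈ Lm S := h _ (Submodule.smul_mem _ _ hMl)
    have h3 := exp_stab hS h2 hy
    rw [← nexp (hM.1.smul t)] at h3
    rw [hu]
    exact h3
  have h2 : Pool.Agent.Y123.GN.GB H ≤ Pool.Agent.Y123.GN.Ug (Pool.Agent.Y123.GN.GB H) :=
    (Pool.Agent.Y123.GN.cl_perf (Or.inr (Or.inl ⟨(Matrix.isUnit_iff_isUnit_det _).2 hH, hHt⟩))).trans
      (Subgroup.commutator_le.2 fun a ha b hb => by
        rw [commutatorElement_def]
        exact mul_mem (mul_mem (mul_mem ha hb) (inv_mem ha)) (inv_mem hb))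
  exact h1 (h2 hγ) x hx

end special

/-! ### constant subspaces in the ultrapower -/

/-- derivations of the ultrapower on constants -/
theorem der_lin {m : Type} [Fintype m] (a x : m → ℂ) (h : ∀ D : Derivation QBar ℂ ℂ, ∑ i, a i * D (x i) = 0) (δ : DD) :
    ∑ i, kt (a i) * δ (kt (x i)) = 0 := by
  by_contra hne
  let _ : Module ℂ (U ℂ) := Module.compHom (U ℂ) kt
  have hsm : ∀ (c : ℂ) (u : U ℂ), c • u = kt c * u := fun c u => rfl
  obtain ⟨lam, hlam⟩ : ∃ lam : U ℂ →ₗ[ℂ] ℂ, lam (∑ i, kt (a i) * δ (kt (x i))) ≠ 0 := by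
    by_contra hcon
    push Not at hcon
    exact hne ((Module.forall_dual_apply_eq_zero_iff ℂ _).1 hcon)
  have halg : ∀ q : QBar, δ (kt (q : ℂ)) = 0 := by
    intro q
    refine ker_adj (Ω := U ℂ) kt (s := (∅ : Set ℂ)) (by simp) (x := (q : ℂ)) ?_
    exact (QBar.alg q).tower_top (K := ℚ) (L := IntermediateField.adjoin ℚ (∅ : Set ℂ))
  let D : Derivation QBar ℂ ℂ := Derivation.mk'
    { toFun := fun c => lam (δ (kt c))
      map_add' := fun c d => by rw [map_add, map_add, map_add]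
      map_smul' := fun q c => by
        have h1 : q • c = (q : ℂ) * c := rfl
        rw [h1, map_mul, Derivation.leibniz, smul_eq_mul, smul_eq_mul, halg, mul_zero, add_zero, ← hsm, map_smul]
        rfl }
    (fun c d => by
      show lam (δ (kt (c * d))) = c • lam (δ (kt d)) + d • lam (δ (kt c))
      rw [map_mul, Derivation.leibniz, smul_eq_mul, smul_eq_mul, map_add, ← hsm, ← hsm, map_smul, map_smul])
  apply hlam
  rw [map_sum, ← h D]
  refine Finset.sum_congr rfl fun i _ => ?_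
  rw [← hsm, map_smul]
  rfl

/-- membership in a constant subspace -/
theorem mem_GU_of {V : Submodule ℂ (Mn n ℂ)} {Y : Mn n (U ℂ)} (hφ : ∀ a : Mn n ℂ, (∀ X ∈ V, ∑ i, ∑ j, a i j * X i j = 0) → ∑ i, ∑ j, kt (a i j) * Y i j = 0) :
    Y ∈ GU V := by
  classical
  obtain ⟨G, rfl⟩ := gm_surj Y
  rw [mem_GU]
  let b := Module.finBasis ℂ ((Mn n ℂ) ⧸ V)
  let ψ : Fin (finrank ℂ ((Mn n ℂ) ⧸ V)) → Mn n ℂ →ₗ[ℂ] ℂ := fun s => (b.coord s) ∘ₗ V.mkQ
  have hlin : ∀ s (Z : Mn n ℂ), ψ s Z = ∑ i, ∑ j, ψ s (Matrix.single i j 1) * Z i j := by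
    intro s Z
    conv_lhs => rw [Matrix.matrix_eq_sum_single Z]
    rw [map_sum]
    refine Finset.sum_congr rfl fun i _ => ?_
    rw [map_sum]
    refine Finset.sum_congr rfl fun j _ => ?_
    have h1 : Matrix.single i j (Z i j) = Z i j • Matrix.single i j (1 : ℂ) := by
      rw [Matrix.smul_single, smul_eq_mul, mul_one]
    rw [h1, map_smul, smul_eq_mul, mul_comm]
  have h1 : ∀ s, ∀ᶠ k in (hyperfilter ℕ : Filter ℕ), ψ s (G k) = 0 := by
    intro s
    have h2 := hφ (Matrix.of fun i j => ψ s (Matrix.single i j 1)) (fun X hX => by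
      have h3 := hlin s X
      have h4 : ψ s X = 0 := by
        show b.coord s (V.mkQ X) = 0
        rw [(Submodule.Quotient.mk_eq_zero V).2 hX |> fun h => (show V.mkQ X = 0 from h), map_zero]
      rw [h4] at h3
      exact h3.symm)
    have h3 : ∑ i, ∑ j, kt (ψ s (Matrix.single i j 1)) * gm G i j = mk ℂ fun k => ψ s (G k) := by
      have h4 : (fun k => ψ s (G k)) = ∑ i, ∑ j, fun k => ψ s (Matrix.single i j 1) * G k i j := by
        funext k
        rw [hlin, Finset.sum_apply]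
        refine Finset.sum_congr rfl fun i _ => ?_
        rw [Finset.sum_apply]
      rw [h4, map_sum]
      refine Finset.sum_congr rfl fun i _ => ?_
      rw [map_sum]
      refine Finset.sum_congr rfl fun j _ => ?_
      rw [gm_apply, kt_apply, ← map_mul]
      rfl
    have h5 : (mk ℂ fun k => ψ s (G k)) = 0 := by
      rw [← h3]
      exact h2
    exact mk_eq_zero.1 h5
  filter_upwards [Filter.eventually_all.2 h1] with k hk
  have h2 : V.mkQ (G k) = 0 := by
    apply b.ext_elem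
    intro s
    rw [map_zero]
    exact hk s
  rwa [Submodule.mkQ_apply, Submodule.Quotient.mk_eq_zero] at h2

end Pool.Agent.H936.G
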