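import Pool.Agent.H936.G.Spc

/-!
# A special fibre, II
-/

set_option autoImplicit false
set_option linter.unusedSectionVars false
set_option linter.unusedVariables false
set_option maxHeartbeats 400000

open Matrix Module Filter PowerSeries

namespace Pool.Agent.H936.G

open Pool.Agent.Y113 (ev Cv GSys ps)
open Pool.Agent.Y120.GH (QU0)
open Pool.Agent.Y118.HV (Hv hh)
open Pool.Agent.Helper880_LF (om pr spS mem_spS comm_mem simple)
open Pool.Agent.Helper880_LF.NB (gm gm_mul gm_add gm_sub gm_smul gm_zero gm_one gm_ev gm_eq gm_neg gm_unit gm_transpose gm_kt gm_surj kt kt_apply dm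
  dm_mul dm_smul dm_transpose kerD mem_kerD ker_alg ker_adj gm_apply)
open Pool.Agent.Helper880_R3 (Ix ib Tot GU mem_GU lieB mem_lieB Inf Few nil_lie nexp exp_stab)
open Pool.Agent.Y118.UL (mk mk_eq mk_eq_zero mk_surj U)
open Pool.Agent.Y119.HY (cm cm_apply cm_mul cm_one cm_transpose cm_zero cm_add cm_neg cm_pow)
open Pool.Agent.Y119.HY renaming E → Ex
open Pool.Agent.Y102 (AbVar QBar tau toC toC_eq)
open Pool.Agent.R917 (derQ)
open Pool.Agent.Y123.ST (fl um LL LL_def logder_mem fl_um um_fl)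
open Pool.Agent.TH127.PT (IsSubtorsor)
open Pool.Agent.H936.SL

variable {n N r₀ g : ℕ}

/-- **the logarithmic derivatives of the constants are in the Lie algebra** -/
theorem ld_GU {K : Subfield ℂ} (hK : ∀ x ∈ K, IsAlgebraic ℚ x) {S : Set (Mn n ℂ)} (hS : IsSubtorsor K S) {C : Mn n ℂ}
    (hm : C ∈ S) (δ : DD) : ld (fun _ => C) δ ∈ GU (Lm S) := by
  have hC : IsUnit C.det := (Matrix.isUnit_iff_isUnit_det _).1 (hS.isUnit C hm)
  refine mem_GU_of fun a ha => ?_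
  have h1 : ∀ D : Derivation QBar ℂ ℂ, ∑ p : Fin n × Fin n, (∑ j, a p.1 j * C⁻¹ p.2 j) * D (C p.1 p.2) = 0 := by
    intro D
    have h2 : C.map (dK D K hK) * C⁻¹ ∈ Lm S := logder_mem hS (dK D K hK) hm
    have h3 := ha _ h2
    rw [← h3, Fintype.sum_prod_type]
    refine Finset.sum_congr rfl fun i _ => ?_
    have h4 : ∀ j, a i j * (C.map (dK D K hK) * C⁻¹) i j = ∑ l, a i j * C⁻¹ l j * D (C i l) := by
      intro j
      rw [Matrix.mul_apply, Finset.mul_sum]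
      refine Finset.sum_congr rfl fun l _ => ?_
      rw [Matrix.map_apply, dK_apply]
      ring
    simp only [h4]
    rw [Finset.sum_comm]
    refine Finset.sum_congr rfl fun l _ => ?_
    rw [Finset.sum_mul]
  have h5 := der_lin (fun p : Fin n × Fin n => ∑ j, a p.1 j * C⁻¹ p.2 j) (fun p => C p.1 p.2) h1 δ
  rw [Fintype.sum_prod_type] at h5
  refine Eq.trans ?_ h5
  refine Finset.sum_congr rfl fun i _ => ?_
  have hinv : (gm fun _ => C)⁻¹ = cu C⁻¹ := cu_inv hC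
  have h4 : ∀ j, kt (a i j) * (ld (fun _ => C) δ) i j = ∑ l, kt (a i j) * kt (C⁻¹ l j) * δ (kt (C i l)) := by
    intro j
    rw [ld_apply, hinv, Matrix.mul_apply, Finset.mul_sum]
    refine Finset.sum_congr rfl fun l _ => ?_
    have h6 : dm δ (gm fun _ : ℕ => C) i l = δ (kt (C i l)) := rfl
    have h7 : (cu C⁻¹) l j = kt (C⁻¹ l j) := rfl
    rw [h6, h7]
    ring
  simp only [h4]
  rw [Finset.sum_comm]
  refine Finset.sum_congr rfl fun l _ => ?_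
  rw [map_sum, Finset.sum_mul]
  refine Finset.sum_congr rfl fun j _ => ?_
  rw [map_mul]

/-- nondegenerate trace forms of constant subspaces -/
theorem TN_GU {𝔩 : Submodule ℂ (Mn n ℂ)} (h : TN 𝔩) : TN (GU 𝔩) := by
  classical
  intro X hX htr
  obtain ⟨X, rfl⟩ := gm_surj X
  by_contra hne
  have h0 : ∀ᶠ k in (hyperfilter ℕ : Filter ℕ), X k ≠ 0 := by
    by_contra hcon
    rw [← Ultrafilter.eventually_not] at hcon
    apply hne
    rw [← gm_zero, gm_ev]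
    exact hcon.mono fun k hk => not_not.1 hk
  have h1 := mem_GU.1 hX
  have h2 : ∀ k, ∃ Y, (X k ≠ 0 ∧ X k ∈ 𝔩) → (Y ∈ 𝔩 ∧ Matrix.trace (X k * Y) ≠ 0) := by
    intro k
    by_cases hk : X k ≠ 0 ∧ X k ∈ 𝔩
    · have h3 := h (X k) hk.2
      by_contra hcon
      push Not at hcon
      refine hk.1 (h3 fun Y hY => ?_)
      exact (hcon Y).2 hY
    · exact ⟨0, fun h => absurd h hk⟩
  choose Y hY using h2
  have h3 := htr (gm Y) (mem_GU.2 ((h0.and h1).mono fun k hk => (hY k hk).1))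
  rw [← gm_mul, tr_gm, mk_eq_zero] at h3
  obtain ⟨k, hk1, hk2⟩ := ((h0.and h1).and h3).exists
  exact (hY k hk1).2 hk2

theorem GU_mono {V W : Submodule ℂ (Mn n ℂ)} (h : V ≤ W) : GU V ≤ GU W := by
  rintro _ ⟨F, rfl, hF⟩
  exact ⟨F, rfl, fun k => h (hF k)⟩

theorem cu_GU {V : Submodule ℂ (Mn n ℂ)} {X : Mn n ℂ} : cu X ∈ GU V ↔ X ∈ V := by
  rw [mem_GU]
  constructor
  · intro h
    exact h.exists.choose_spec
  · intro h
    exact Filter.Eventually.of_forall fun _ => h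

/-- a special fibre: the group of the torsor `S` of the fibre does not contain the symplectic group -/
structure Spc (A : AbVar g) (H : Matrix (Fin (2 * g)) (Fin (2 * g)) ℚ) (C : Mn (2 * g) ℂ)
    (R : Matrix (Fin (2 * g)) (Fin (2 * g)) ℚ) (K : Subfield ℂ) (S : Set (Mn (2 * g) ℂ)) : Prop where
  alg : ∀ x ∈ K, IsAlgebraic ℚ x
  tor : IsSubtorsor K S
  rat : RatGrp S
  mem : C ∈ S
  pres : Pres A H C R
  not : ∃ γ : (Mn (2 * g) ℂ)ˣ, γ ∈ Pool.Agent.Y123.GN.GB (cm H) ∧ ∃ x ∈ S, (γ : Mn (2 * g) ℂ) * x ∉ S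

section
variable {A : AbVar g} {H R : Matrix (Fin (2 * g)) (Fin (2 * g)) ℚ} {C : Mn (2 * g) ℂ} {K : Subfield ℂ} {S : Set (Mn (2 * g) ℂ)}

theorem Spc.ne_top (h : Spc A H C R K S) (hg : 0 < g) (hH : Hᵀ = -H) (hd : IsUnit H.det) :
    L0 (cm H⁻¹) S ≠ spS (cm H⁻¹) := by
  intro hcon
  obtain ⟨γ, hγ, x, hx, hx'⟩ := h.not
  have hHt : (cm H)ᵀ = -cm H := by rw [← cm_transpose, hH, cm_neg]
  apply hx'
  refine sp_stab1 hHt (cm_unit hd) h.tor ?_ hγ hx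
  rw [cm_inv hd]
  exact L0_full (cm_skew' hH) (cm_unit' hd) (by omega) h.tor h.mem hcon

/-- the data of the first core theorem -/
theorem Spc.data (h : Spc A H C R K S) (hg : 2 ≤ g) {B : Mn (2 * g) ℂ} {θ : ℂ} (hc : Cen C H 0 B θ) :
    ∃ 𝔉 : Submodule (U ℂ) (Mn (2 * g) (U ℂ)), 𝔉 ≤ spS (cu (cm H⁻¹)) ∧
      (∀ δ : DD, ∃ c : U ℂ, ld (fun _ => C) δ + c • (1 : Mn (2 * g) (U ℂ)) ∈ 𝔉) ∧
      (∀ 𝔩 : Submodule (U ℂ) (Mn (2 * g) (U ℂ)), 𝔩 ≤ spS (cu (cm H⁻¹)) → TN 𝔩 → (∀ X ∈ spS (cu (cm H⁻¹)), ∃ Z B, X = Z + B ∧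
        Z ∈ spS (cu (cm H⁻¹)) ∧ B ∈ 𝔉 ∧ ∀ Y ∈ 𝔩, Z * Y - Y * Z ∈ 𝔩) → 𝔩 = ⊥ ∨ 𝔩 = spS (cu (cm H⁻¹))) ∧
      finrank (U ℂ) 𝔉 + (2 * g - 1) ≤ finrank (U ℂ) (spS (cu (cm H⁻¹))) := by
  have hH := hc.skew
  have hd := hc.hd
  have hJ : (cm H⁻¹)ᵀ = -cm H⁻¹ := cm_skew' hH
  have hJd := cm_unit' hd
  have hrl := L0_rlie h.alg h.tor h.rat h.mem h.pres hH hd
  have htop := h.ne_top (by omega) hH hd
  set 𝔩₀ := L0 (cm H⁻¹) S with h𝔩₀
  have hle : GU 𝔩₀ ≤ spS (cu (cm H⁻¹)) := (GU_mono hrl.le).trans GU_spS.le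
  have hbr : ∀ X ∈ GU 𝔩₀, ∀ Y ∈ GU 𝔩₀, X * Y - Y * X ∈ GU 𝔩₀ := by
    rintro _ ⟨F, rfl, hF⟩ _ ⟨F', rfl, hF'⟩
    exact ⟨fun k => F k * F' k - F' k * F k, by rw [gm_sub, gm_mul, gm_mul], fun k => hrl.br _ (hF k) _ (hF' k)⟩
  have hTN : TN (GU 𝔩₀) := TN_GU (hrl.tn hd h.pres)
  have hne : GU 𝔩₀ ≠ ⊥ := by
    obtain ⟨X, hX, hX0⟩ := Submodule.exists_mem_ne_zero_of_ne_bot (hrl.ne h.pres (by omega))
    intro hcon
    have h1 : cu X ∈ GU 𝔩₀ := cu_GU.2 hX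
    rw [hcon, Submodule.mem_bot, ← gm_zero] at h1
    obtain ⟨k, hk⟩ := (gm_eq h1).exists
    exact hX0 hk
  have hnt : GU 𝔩₀ ≠ spS (cu (cm H⁻¹)) := by
    intro hcon
    apply htop
    refine le_antisymm hrl.le fun X hX => ?_
    rw [← cu_GU, hcon, gm_spS]
    exact Filter.Eventually.of_forall fun _ => hX
  refine ⟨GU 𝔩₀, hle, fun δ => ?_, fun 𝔩 hl1 hl2 hl3 => ?_, ?_⟩
  · obtain ⟨c, hcc⟩ := hc.gsC δ
    refine ⟨c, ?_⟩
    have h1 := ld_GU h.alg h.tor h.mem δ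
    obtain ⟨F, hF⟩ := gm_surj (ld (fun _ => C) δ)
    obtain ⟨c, rfl⟩ := mk_surj c
    rw [← hF, ← gm_one, ← gm_smul, ← gm_add] at hcc ⊢
    rw [← hF] at h1
    rw [mem_GU] at h1 ⊢
    rw [gm_spS] at hcc
    filter_upwards [h1, hcc] with k k1 k2
    refine ⟨k2, -c k, ?_⟩
    rw [add_assoc, ← add_smul, add_neg_cancel, zero_smul, add_zero]
    exact k1
  · rcases thmE (cu_skew hJ) (cu_unit hJd) (by omega) hl2 hl1 hTN hle (fun X hX => by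
      obtain ⟨Z, B, e, h1, h2, h3⟩ := hl3 X hX
      exact ⟨Z, B, e, h1, hle h2, h3, fun Y hY => hbr _ h2 _ hY⟩) with h1 | (h1 | h1)
    · exact h1
    · exact absurd h1 hne
    · exact absurd h1 hnt
  · have h1 := nrmS_dim (cu_skew hJ) (cu_unit hJd) (by omega) hle hne hnt
    have h2 : GU 𝔩₀ ≤ nrmS (cu (cm H⁻¹)) (GU 𝔩₀) := fun X hX => ⟨hle hX, fun Y hY => hbr _ hX _ hY⟩
    exact (Nat.add_le_add_right (Submodule.finrank_mono h2) _).trans h1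

theorem csq_zero (hn : 0 < n) (C : Mn n ℂ) (σ : ℕ → ℂ) : csq C 0 σ = fun _ => C := by
  funext k
  show C * Ex (cm (0 : Matrix (Fin n) (Fin n) ℚ)) (σ k) = C
  rw [Ex_M0 hn, Matrix.mul_one]

/-- **all fibres near a special fibre** -/
theorem fin_spc (hg : 2 ≤ g) {Z : Matrix (Fin (2 * g)) (Fin (2 * g)) ℚ⟦X⟧} {T : Polynomial ℤ}
    {A : Fin (2 * g * (2 * g)) → Fin (2 * g * (2 * g)) → Polynomial ℤ}
    (hT : T ≠ 0) (hode : ∀ i, ps T * d⁄dX ℚ (hh Z i) = ∑ j, ps (A i j) * hh Z j)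
    {q' : ℕ} {C' : ℝ} (hG' : GSys q' C' T (hh Z)) (hqu : QU0 T A) :
    ∃ G : ℕ, 1 ≤ G ∧ ∀ (C : Mn (2 * g) ℂ) (H : Matrix (Fin (2 * g)) (Fin (2 * g)) ℚ),
      Hᵀ = -H → IsUnit H.det → IsUnit C.det →
      (∀ X : Matrix (Fin (2 * g)) (Fin (2 * g)) ℂ, X * cm H + cm H * Xᵀ = 0 → Inf Z (C⁻¹ * X * C)) →
      ∀ (A₀ : AbVar g) (R₀ : Matrix (Fin (2 * g)) (Fin (2 * g)) ℚ) (K₀ : Subfield ℂ) (S₀ : Set (Mn (2 * g) ℂ)),
      Spc A₀ H C R₀ K₀ S₀ →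
      ∀ (N D r₀ : ℕ) (C₀ : Matrix (Fin r₀) (Fin r₀) ℂ), 0 < N → IsUnit C₀.det →
      ((∃ s, s < (2 * g + 1).choose 2 ∧ Few s C₀ C) ∨ (∃ (s : ℕ) (b : Fin s → ℂ), s + 3 ≤ 2 * g ∧
        ∀ i j, IsAlgebraic (IntermediateField.adjoin ℚ (insert (2 * Real.pi * Complex.I : ℂ) (Set.range b ∪
          Set.range fun p : Fin (2 * g) × Fin (2 * g) => C p.1 p.2))) (C₀ i j))) →
      ∃ E : ℕ, ∀ t : Fin N → ℕ, Function.Injective t → (∀ i j, t i ≡ t j [MOD G]) → (∀ i j, (t i - t j + 2) ^ E ≤ t j) →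
      (∀ j, ∃ (A : AbVar g) (R : Matrix (Fin (2 * g)) (Fin (2 * g)) ℚ), Pres A H (C * Hv Z (t j)) R) →
      ∀ K : Subfield ℂ, FiniteDimensional ℚ K → finrank ℚ K ≤ D → ∀ S : Set (Matrix (Ix r₀ (2 * g) N) (Ix r₀ (2 * g) N) ℂ),
      IsSubtorsor K S → RatGrp S → Tot C₀ (fun j => C * Hv Z (t j)) ∈ S → Fu H S := by
  obtain ⟨G, hG1, h⟩ := fin_good hg hT hode hG' hqu
  refine ⟨G, hG1, fun C H hH hHd hC hI A₀ R₀ K₀ S₀ hspc N D r₀ C₀ hN hC0 hl => ?_⟩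
  obtain ⟨B₁, q, hB₁, hq, hCB⟩ := hspc.pres.leg
  have hqc : (q : ℂ) ≠ 0 := by exact_mod_cast hq
  have hcen : Cen C H 0 B₁ (tau * q : ℂ) :=
    { skew := hH
      hd := hHd
      cd := hC
      leg := hCB
      ne := mul_ne_zero AbVar.tau_ne hqc
      alg := hB₁
      nil := zero_pow (by omega)
      inf := by rw [cm_zero, Matrix.zero_mul, transpose_zero, Matrix.mul_zero, add_zero] }
  have hI' : ∀ X ∈ lieB B₁, Inf Z X := by
    rintro X ⟨-, hX⟩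
    have hCC : C * C⁻¹ = 1 := Matrix.mul_nonsing_inv _ hC
    have hCC' : C⁻¹ * C = 1 := Matrix.nonsing_inv_mul _ hC
    have hCt : (C⁻¹)ᵀ * Cᵀ = 1 := by rw [← transpose_mul, hCC, transpose_one]
    have h1 : X = C⁻¹ * (C * X * C⁻¹) * C := by
      calc X = (C⁻¹ * C) * X * (C⁻¹ * C) := by rw [hCC', Matrix.one_mul, Matrix.mul_one]
        _ = _ := by simp only [Matrix.mul_assoc]
    rw [h1]
    refine hI _ ?_
    have h2 : (tau * q : ℂ) • (C * X * C⁻¹ * cm H + cm H * (C * X * C⁻¹)ᵀ) = C * (X * B₁ + B₁ * Xᵀ) * Cᵀ := by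
      rw [smul_add, ← Matrix.mul_smul, ← Matrix.smul_mul, ← hCB, Matrix.mul_add, Matrix.add_mul, transpose_mul, transpose_mul]
      congr 1
      · calc C * X * C⁻¹ * (C * B₁ * Cᵀ) = C * X * (C⁻¹ * C) * B₁ * Cᵀ := by simp only [Matrix.mul_assoc]
          _ = _ := by
            rw [hCC', Matrix.mul_one]
            simp only [Matrix.mul_assoc]
      · have hCt' : Cᵀ * (C⁻¹)ᵀ = 1 := by rw [← transpose_mul, hCC', transpose_one]
        calc C * B₁ * Cᵀ * ((C⁻¹)ᵀ * (Xᵀ * Cᵀ)) = C * B₁ * (Cᵀ * (C⁻¹)ᵀ) * Xᵀ * Cᵀ := by simp only [Matrix.mul_assoc]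
          _ = _ := by
            rw [hCt', Matrix.mul_one]
            simp only [Matrix.mul_assoc]
    rw [hX, Matrix.mul_zero, Matrix.zero_mul] at h2
    exact (smul_eq_zero.1 h2).resolve_left hcen.ne
  obtain ⟨𝔉, d1, d2, d3, d4⟩ := hspc.data hg hcen
  have hn : 0 < 2 * g := by omega
  obtain ⟨E, hE⟩ := h C B₁ H 0 _ hcen hI' N D r₀ C₀ hN hC0.ne_zero (fun σ => by
    rcases hl with ⟨s, hs, hf⟩ | ⟨s, b, hs, hf⟩
    · refine fewG_a hC0.ne_zero hC hcen.nil σ hf ?_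
      have h1 := finrank_spS_ge (F := U ℂ) (cu_skew hcen.skewJ) (cu_unit (cm_unit' hHd))
      have h2 : nz (0 : Matrix (Fin (2 * g)) (Fin (2 * g)) ℚ) = 0 := if_pos rfl
      omega
    · refine fewG_b hC hcen.nil σ (upS 𝔉) (fun δ => ?_) (fun δ hδ => ?_) hf ?_
      · obtain ⟨c, hcc⟩ := d2 δ
        exact mem_upS hcc
      · have h1 := tau_zero hn hcen δ hδ
        rw [map_mul, Derivation.leibniz, smul_eq_mul, smul_eq_mul] at h1
        have h4 : δ (kt (q : ℂ)) = 0 := by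
          have h5 : (kt (q : ℂ)) = ((q : ℚ) : U ℂ) := map_ratCast kt q
          rw [h5]
          have h6 : ((q : ℚ) : U ℂ) ∈ kerD δ := SubfieldClass.ratCast_mem _ q
          exact h6
        rw [h4, mul_zero, zero_add] at h1
        exact (mul_eq_zero.1 h1).resolve_left ((map_ne_zero kt).2 hqc)
      · have h1 := upS_dim 𝔉
        have h2 : nz (0 : Matrix (Fin (2 * g)) (Fin (2 * g)) ℚ) = 0 := if_pos rfl
        omega)
    (fun σ => by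
      rw [csq_zero hn]
      exact ⟨𝔉, d1, d2, d3⟩)
  have hPP : ∀ t, PP C 0 Z t = C * Hv Z t := by
    intro t
    unfold PP
    rw [Ex_M0 hn, Matrix.one_mul]
  simp only [hPP] at hE
  refine ⟨E, fun t h1 h2 h3 hpres K hK hKD S hS hSr hmem => ?_⟩
  refine hE t h1 h2 h3 hpres (fun j => ?_) K hK hKD S hS hSr hmem
  have h4 := (Pool.Agent.Helper880_R3.Tot_unit (hS.isUnit _ hmem)).2 j
  have h5 := (Matrix.isUnit_iff_isUnit_det _).1 h4
  rw [Matrix.det_mul] at h5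
  exact (isUnit_of_mul_isUnit_right h5).ne_zero

end

end Pool.Agent.H936.G
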