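import Pool.Agent.H936.G.Spc2

/-!
# A special fibre, III: endomorphisms
-/

set_option autoImplicit false
set_option linter.unusedSectionVars false
set_option linter.unusedVariables false
set_option maxHeartbeats 400000

open Matrix Module Filter

namespace Pool.Agent.H936.G

open Pool.Agent.Helper880_LF (om pr spS mem_spS comm_mem simple om_add_left om_add_right om_smul_left om_smul_right)
open Pool.Agent.Y119.HY (cm cm_apply cm_mul cm_one cm_transpose cm_zero cm_add cm_neg cm_pow)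
open Pool.Agent.Y102 (AbVar QBar tau toC toC_eq)
open Pool.Agent.W516.DR (IsDeRhamBettiEnd)
open Pool.Agent.TH127.PT (IsSubtorsor)
open Pool.Agent.H936.SL

variable {n N r₀ g : ℕ}

/-- the field of algebraic numbers -/
noncomputable def KA : Subfield ℂ := (algebraicClosure ℚ ℂ).toSubfield

theorem mem_KA {x : ℂ} : x ∈ KA ↔ IsAlgebraic ℚ x := mem_algebraicClosure_iff

/-- the isomorphisms which respect an endomorphism -/
def SE (α a : Mn n ℂ) : Set (Mn n ℂ) := {x | IsUnit x ∧ α * x = x * a}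

theorem SE_inv {α a x : Mn n ℂ} (hx : x ∈ SE α a) : x⁻¹ * α = a * x⁻¹ := by
  have hu := (Matrix.isUnit_iff_isUnit_det _).1 hx.1
  calc x⁻¹ * α = x⁻¹ * (α * x) * x⁻¹ := by
        rw [Matrix.mul_assoc, Matrix.mul_assoc, Matrix.mul_nonsing_inv _ hu, Matrix.mul_one]
    _ = _ := by rw [hx.2, ← Matrix.mul_assoc, Matrix.nonsing_inv_mul _ hu, Matrix.one_mul]

theorem isUnit_inv {x : Mn n ℂ} (hx : IsUnit x) : IsUnit x⁻¹ := by
  have hu := (Matrix.isUnit_iff_isUnit_det _).1 hx
  refine (Matrix.isUnit_iff_isUnit_det _).2 ?_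
  rw [Matrix.det_nonsing_inv]
  exact hu.ringInverse

theorem SE_tor {α a : Mn n ℂ} (hα : ∀ i j, IsAlgebraic ℚ (α i j)) (ha : ∀ i j, IsAlgebraic ℚ (a i j)) :
    IsSubtorsor KA (SE α a) where
  isUnit x hx := hx.1
  torsor x hx y hy z hz := by
    refine ⟨(hx.1.mul (isUnit_inv hy.1)).mul hz.1, ?_⟩
    calc α * (x * y⁻¹ * z) = (α * x) * y⁻¹ * z := by simp only [Matrix.mul_assoc]
      _ = x * (a * y⁻¹) * z := by rw [hx.2]; simp only [Matrix.mul_assoc]
      _ = x * y⁻¹ * (α * z) := by rw [← SE_inv hy]; simp only [Matrix.mul_assoc]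
      _ = _ := by rw [hz.2]; simp only [Matrix.mul_assoc]
  algebraic := by
    classical
    let f : Fin n → Fin n → MvPolynomial (Fin n × Fin n) ℂ := fun i j =>
      ∑ l, MvPolynomial.C (α i l) * MvPolynomial.X (l, j) - ∑ l, MvPolynomial.C (a l j) * MvPolynomial.X (i, l)
    refine ⟨{p | ∃ i j, p = f i j}, ?_, fun x => ?_⟩
    · rintro _ ⟨i, j, rfl⟩ m
      have hX : ∀ (q : Fin n × Fin n), (MvPolynomial.X q : MvPolynomial (Fin n × Fin n) ℂ).coeff m ∈ KA := by
        intro q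
        rw [MvPolynomial.coeff_X']
        split_ifs
        · exact KA.one_mem
        · exact KA.zero_mem
      show (∑ l, MvPolynomial.C (α i l) * MvPolynomial.X (l, j) -
        ∑ l, MvPolynomial.C (a l j) * MvPolynomial.X (i, l) : MvPolynomial (Fin n × Fin n) ℂ).coeff m ∈ KA
      rw [MvPolynomial.coeff_sub, MvPolynomial.coeff_sum, MvPolynomial.coeff_sum]
      refine KA.sub_mem (KA.sum_mem fun l _ => ?_) (KA.sum_mem fun l _ => ?_)
      · rw [MvPolynomial.coeff_C_mul]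
        exact KA.mul_mem (mem_KA.2 (hα i l)) (hX _)
      · rw [MvPolynomial.coeff_C_mul]
        exact KA.mul_mem (mem_KA.2 (ha l j)) (hX _)
    · have h1 : ∀ i j, MvPolynomial.eval (fun b : Fin n × Fin n => x b.1 b.2) (f i j) = (α * x) i j - (x * a) i j := by
        intro i j
        show MvPolynomial.eval (fun b : Fin n × Fin n => x b.1 b.2) (∑ l, MvPolynomial.C (α i l) * MvPolynomial.X (l, j) -
          ∑ l, MvPolynomial.C (a l j) * MvPolynomial.X (i, l)) = _
        rw [map_sub, map_sum, map_sum, Matrix.mul_apply, Matrix.mul_apply]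
        simp only [map_mul, MvPolynomial.eval_C, MvPolynomial.eval_X]
        congr 1
        exact Finset.sum_congr rfl fun l _ => mul_comm _ _
      refine and_congr_right fun _ => ⟨?_, fun h => ?_⟩
      · rintro h _ ⟨i, j, rfl⟩
        rw [h1, h, sub_self]
      · ext i j
        have h2 := h _ ⟨i, j, rfl⟩
        rw [h1] at h2
        exact sub_eq_zero.1 h2

/-- the group is defined over the rational numbers -/
theorem SE_rat {R : Matrix (Fin n) (Fin n) ℚ} (X : Module.End ℚ (Fin n → ℚ)) (a : Mn n ℂ) : RatGrp (SE (bt R X) a) := by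
  intro σ x hx y hy
  refine ⟨(x * y⁻¹).map σ * y, ⟨?_, ?_⟩, y, hy, ?_⟩
  · refine IsUnit.mul ?_ hy.1
    have h1 : IsUnit (x * y⁻¹) := hx.1.mul (isUnit_inv hy.1)
    have h2 := h1.map (σ : ℂ →+* ℂ).mapMatrix
    exact h2
  · have h1 : (bt R X).map σ = bt R X := by
      ext i j
      unfold bt
      rw [Matrix.map_apply, cm_apply, map_ratCast]
    have h2 : bt R X * (x * y⁻¹) = (x * y⁻¹) * bt R X := by
      rw [← Matrix.mul_assoc, hx.2, Matrix.mul_assoc, ← SE_inv hy, Matrix.mul_assoc]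
    have h3 := congrArg (fun Y : Mn n ℂ => Y.map σ) h2
    simp only [map_inv_aut, h1] at h3
    rw [← Matrix.mul_assoc, map_inv_aut, h3, Matrix.mul_assoc, hy.2]
    simp only [Matrix.mul_assoc]
  · have hu := (Matrix.isUnit_iff_isUnit_det _).1 hy.1
    rw [Matrix.mul_assoc, Matrix.mul_nonsing_inv _ hu, Matrix.mul_one]

/-- a transvection -/
theorem transv {H : Mn n ℂ} (hH : Hᵀ = -H) (hd : IsUnit H.det) (u : Fin n → ℂ) :
    ∃ γ : (Mn n ℂ)ˣ, γ ∈ Pool.Agent.Y123.GN.GB H ∧ ∀ v, (γ : Mn n ℂ) *ᵥ v = v + om H⁻¹ u v • u := by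
  set J := H⁻¹ with hJ
  have hJt : Jᵀ = -J := by
    rw [hJ, transpose_nonsing_inv, hH]
    refine inv_eq_right_inv ?_
    rw [neg_mul_neg, mul_nonsing_inv _ hd]
  have hJH : J * H = 1 := nonsing_inv_mul _ hd
  have hHJ : H * J = 1 := mul_nonsing_inv _ hd
  set E : Mn n ℂ := vecMulVec u (u ᵥ* J) with hE
  have hEv : ∀ v, E *ᵥ v = om J u v • u := by
    intro v
    rw [hE, vecMulVec_mulVec]
    have h1 : om J u v = (u ᵥ* J) ⬝ᵥ v := by
      unfold om
      rw [dotProduct_mulVec]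
    rw [h1]
    ext i
    simp [mul_comm]
  have huu : om J u u = 0 := by
    have h1 : om J u u = -om J u u := by
      unfold om
      conv_lhs => rw [dotProduct_mulVec, dotProduct_comm, ← mulVec_transpose, hJt, neg_mulVec, dotProduct_neg]
    have h2 : (2 : ℂ) * om J u u = 0 := by linear_combination h1
    exact (mul_eq_zero.1 h2).resolve_left two_ne_zero
  have hEE : E * E = 0 := by
    apply Matrix.ext_of_mulVec_single
    intro i
    rw [← mulVec_mulVec, hEv (Pi.single i 1), mulVec_smul, hEv, huu, zero_smul, smul_zero, zero_mulVec]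
  have hsym : (1 + E) * H * (1 + E)ᵀ = H := by
    have e1 : E * H = vecMulVec u u := by
      rw [hE, vecMulVec_mul, vecMul_vecMul, hJH, vecMul_one]
    have e2 : Eᵀ = -(J * vecMulVec u u) := by
      rw [hE, transpose_vecMulVec, ← mulVec_transpose, hJt, neg_mulVec, neg_vecMulVec, mul_vecMulVec]
    have e3 : H * Eᵀ = -vecMulVec u u := by
      rw [e2, Matrix.mul_neg, ← Matrix.mul_assoc, hHJ, Matrix.one_mul]
    have e4 : E * H * Eᵀ = 0 := by
      rw [Matrix.mul_assoc, e3, Matrix.mul_neg, hE, vecMulVec_mul_vecMulVec]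
      have h1 : (u ᵥ* J) ⬝ᵥ u = 0 := by
        rw [← huu]
        unfold om
        rw [dotProduct_mulVec]
      rw [h1, zero_smul]
      ext i j
      simp [vecMulVec_apply]
    rw [transpose_add, transpose_one, Matrix.add_mul, Matrix.one_mul, Matrix.mul_add, Matrix.mul_one, Matrix.add_mul,
      e3, e4, e1]
    abel
  obtain ⟨γ, hγ, hγ'⟩ := Pool.Agent.Y123.GN.quot_GB (X := 1) (Y := 1 + E) (μ := 1) (B := H) (Q := H) one_ne_zero isUnit_one
    (by rw [Matrix.one_mul, Matrix.transpose_one, Matrix.mul_one, one_smul]) (by rw [one_smul]; exact hsym)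
    (Or.inl ⟨(Matrix.isUnit_iff_isUnit_det _).2 hd, hH⟩)
  refine ⟨γ, hγ, fun v => ?_⟩
  rw [Matrix.mul_one] at hγ'
  rw [hγ', add_mulVec, one_mulVec, hEv]

/-- **an abelian variety with more endomorphisms is special** -/
theorem spc_of_end (hg : 0 < g) {A : AbVar g} {H R : Matrix (Fin (2 * g)) (Fin (2 * g)) ℚ} {C : Mn (2 * g) ℂ}
    (hp : Pres A H C R) (hH : Hᵀ = -H) (hd : IsUnit H.det) (hC : IsUnit C.det) {X₀ : Module.End ℚ A.H1}
    (hX : IsDeRhamBettiEnd QBar A.dR X₀) (hns : ∀ c : ℚ, X₀ ≠ c • (1 : Module.End ℚ A.H1)) :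
    ∃ (K : Subfield ℂ) (S : Set (Mn (2 * g) ℂ)), Spc A H C R K S := by
  obtain ⟨a, ha, hCa⟩ := hp.end hX
  have hR : IsUnit R.det := by
    obtain ⟨T, T', q, hR, -⟩ := hp
    exact hR
  have hHt : (cm H)ᵀ = -cm H := by rw [← cm_transpose, hH, cm_neg]
  have hHc := cm_unit hd
  refine ⟨KA, SE (bt R X₀) a, fun x hx => mem_KA.1 hx, SE_tor (fun i j => cm_alg _ i j) ha, SE_rat X₀ a,
    ⟨(Matrix.isUnit_iff_isUnit_det _).2 hC, hCa⟩, hp, ?_⟩
  by_contra hcon
  push Not at hcon
  -- the operator commutes with all transvections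
  have hJ := cm_skew' hH
  have hJd := cm_unit' hd
  have h1 : ∀ u, bt R X₀ *ᵥ u ∈ Submodule.span ℂ {u} := by
    intro u
    by_cases hu : u = 0
    · rw [hu, mulVec_zero]
      exact Submodule.zero_mem _
    obtain ⟨γ, hγ, hγv⟩ := transv hHt hHc u
    have h2 := (hcon γ hγ C ⟨(Matrix.isUnit_iff_isUnit_det _).2 hC, hCa⟩).2
    have h3 : bt R X₀ * (γ : Mn (2 * g) ℂ) = γ * bt R X₀ := by
      calc bt R X₀ * (γ : Mn (2 * g) ℂ) = (bt R X₀ * (γ * C)) * C⁻¹ := by
            rw [Matrix.mul_assoc, Matrix.mul_assoc, Matrix.mul_nonsing_inv _ hC, Matrix.mul_one]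
        _ = γ * (C * a) * C⁻¹ := by rw [h2, Matrix.mul_assoc (γ : Mn (2 * g) ℂ)]
        _ = γ * bt R X₀ * (C * C⁻¹) := by
          rw [← hCa]
          simp only [Matrix.mul_assoc]
        _ = _ := by rw [Matrix.mul_nonsing_inv _ hC, Matrix.mul_one]
    rw [cm_inv hd] at hγv
    obtain ⟨w, hw⟩ := exists_nonorth hJ hJd hu
    have h4 := congrArg (fun Y : Mn (2 * g) ℂ => Y *ᵥ w) h3
    simp only [← mulVec_mulVec, hγv, mulVec_add, mulVec_smul] at h4
    have h5 := add_left_cancel h4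
    rw [Submodule.mem_span_singleton]
    refine ⟨(om (cm H⁻¹) u w)⁻¹ * om (cm H⁻¹) u (bt R X₀ *ᵥ w), ?_⟩
    rw [mul_smul, ← h5, smul_smul, inv_mul_cancel₀ hw, one_smul]
  obtain ⟨w, hw⟩ := ns_bt (by omega) hJ hJd hR hns
  exact hw (h1 w)

end Pool.Agent.H936.G
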