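import Pool.Agent.H936.G.Core
import Pool.Agent.H936.SL.Cns2

/-!
# The core theorems in the ultrapower
-/

set_option autoImplicit false
set_option linter.unusedSectionVars false
set_option linter.unusedVariables false

open Matrix Module Filter

namespace Pool.Agent.H936.G

open Pool.Agent.Helper880_LF (om om_add_left om_add_right om_smul_left om_smul_right om_zero_left om_zero_right pr spS
  mem_spS comm_mem)
open Pool.Agent.Helper880_LF.NB (gm gm_mul gm_add gm_sub gm_smul gm_zero gm_one gm_ev gm_eq gm_surj gm_neg gm_unit gm_apply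
  gm_transpose gm_kt kt kt_apply dm dm_mul dm_smul Lst mem_Lst normL rank_le)
open Pool.Agent.Helper880_R3 (Ix ib ib_apply ib_inj ib_mul Tot GU mem_GU finrank_GU gm_fb gm_ib dm_fb)
open Pool.Agent.Y118.UL (mk mk_eq mk_eq_zero mk_ne_zero mk_surj ev_ge U)
open Pool.Agent.Y123.ST (fl um LL fl_um um_fl)
open Pool.Agent.TH127.PT (IsSubtorsor)
open Pool.Agent.H936.SL

variable {n N r₀ m : ℕ}

abbrev DD := Derivation (U ℚ) (U ℂ) (U ℂ)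

theorem dm_addD {B : Type} (δ δ' : DD) (y : Matrix B B (U ℂ)) : dm (δ + δ') y = dm δ y + dm δ' y := by
  ext a b
  simp [dm]

theorem dm_smulD {B : Type} (c : U ℂ) (δ : DD) (y : Matrix B B (U ℂ)) : dm (c • δ) y = c • dm δ y := by
  ext a b
  simp [dm]

/-- the logarithmic derivative of a sequence of matrices -/
noncomputable def ld {B : Type} [Fintype B] [DecidableEq B] (x : ℕ → Matrix B B ℂ) : DD →ₗ[U ℂ] Matrix B B (U ℂ) where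
  toFun δ := dm δ (gm x) * (gm x)⁻¹
  map_add' δ δ' := by rw [dm_addD, Matrix.add_mul]
  map_smul' c δ := by rw [dm_smulD, Matrix.smul_mul, RingHom.id_apply]

theorem ld_apply {B : Type} [Fintype B] [DecidableEq B] (x : ℕ → Matrix B B ℂ) (δ : DD) :
    ld x δ = dm δ (gm x) * (gm x)⁻¹ := rfl

/-- conjugation -/
noncomputable def cjg {B : Type} [Fintype B] [DecidableEq B] (C : Matrix B B (U ℂ)) :
    Matrix B B (U ℂ) →ₗ[U ℂ] Matrix B B (U ℂ) where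
  toFun X := C * X * C⁻¹
  map_add' X Y := by rw [Matrix.mul_add, Matrix.add_mul]
  map_smul' c X := by rw [Matrix.mul_smul, Matrix.smul_mul, RingHom.id_apply]

theorem cjg_apply {B : Type} [Fintype B] [DecidableEq B] (C X : Matrix B B (U ℂ)) : cjg C X = C * X * C⁻¹ := rfl

/-- the moving part -/
noncomputable def Xd (Cs : ℕ → Mn n ℂ) (z : ℕ → Fin N → Mn n ℂ) (i : Fin N) : DD →ₗ[U ℂ] Mn n (U ℂ) :=
  cjg (gm Cs) ∘ₗ ld fun k => z k i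

/-- the derivations which move the points in the symplectic directions -/
noncomputable def Ds (J : Mn n ℂ) (Cs : ℕ → Mn n ℂ) (z : ℕ → Fin N → Mn n ℂ) : Submodule (U ℂ) DD where
  carrier := {δ | ∀ i, Xd Cs z i δ ∈ spS (cu J)}
  zero_mem' i := by rw [map_zero]; exact Submodule.zero_mem _
  add_mem' ha hb i := by rw [map_add]; exact Submodule.add_mem _ (ha i) (hb i)
  smul_mem' c a ha i := by rw [map_smul]; exact Submodule.smul_mem _ c (ha i)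

/-- the data of a sequence -/
structure Sq (J : Mn n ℂ) (Cs : ℕ → Mn n ℂ) (z : ℕ → Fin N → Mn n ℂ) : Prop where
  gs : ∀ δ, GS (cu J) (ld Cs δ)
  surj : ∀ i, ∀ Y ∈ spS (cu J), ∃ δ : DD, Xd Cs z i δ = Y ∧ ∀ j, j ≠ i → Xd Cs z j δ = 0
  cu : ∀ k, (Cs k).det ≠ 0
  zu : ∀ k j, (z k j).det ≠ 0

/-- the derivations of the ultrapower -/
noncomputable def Sq.D {J : Mn n ℂ} {Cs : ℕ → Mn n ℂ} {z : ℕ → Fin N → Mn n ℂ} (h : Sq J Cs z)
    (C₀ : Matrix (Fin r₀) (Fin r₀) ℂ) : Dr (SL.cu J) r₀ N (Ds J Cs z) where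
  X i := Xd Cs z i ∘ₗ (Ds J Cs z).subtype
  Fc := ld Cs ∘ₗ (Ds J Cs z).subtype
  F₀ := ld (fun _ => C₀) ∘ₗ (Ds J Cs z).subtype
  mem i d := d.2 i
  gs d := h.gs d
  surj i Y hY := by
    obtain ⟨δ, h1, h2⟩ := h.surj i Y hY
    refine ⟨⟨δ, fun j => ?_⟩, h1, h2⟩
    by_cases hj : j = i
    · subst hj
      rw [h1]
      exact hY
    · rw [h2 j hj]
      exact Submodule.zero_mem _

theorem Tot_inv2 {F : Type} [Field F] {x : Matrix (Fin r₀) (Fin r₀) F} {X : Fin N → Matrix (Fin n) (Fin n) F}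
    (hx : IsUnit x.det) (hX : ∀ j, IsUnit (X j).det) : (Tot x X)⁻¹ = Tot x⁻¹ fun j => (X j)⁻¹ :=
  Tot_inv' hx fun j => Matrix.mul_nonsing_inv _ (hX j)

theorem ld_mul {x y : ℕ → Mn n ℂ} (hx : ∀ k, (x k).det ≠ 0) (hy : ∀ k, (y k).det ≠ 0) (δ : DD) :
    ld (fun k => x k * y k) δ = ld x δ + cjg (gm x) (ld y δ) := by
  have hyu : IsUnit (gm y).det := gm_unit hy
  have h1 : gm (fun k => x k * y k) = gm x * gm y := gm_mul x y
  rw [ld_apply, ld_apply, ld_apply, cjg_apply, h1, dm_mul, Matrix.mul_inv_rev, Matrix.add_mul]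
  congr 1
  · calc dm δ (gm x) * gm y * ((gm y)⁻¹ * (gm x)⁻¹) = dm δ (gm x) * (gm y * (gm y)⁻¹) * (gm x)⁻¹ := by
          simp only [Matrix.mul_assoc]
      _ = _ := by rw [Matrix.mul_nonsing_inv _ hyu, Matrix.mul_one]
  · simp only [Matrix.mul_assoc]

theorem ld_Tot {C₀ : Matrix (Fin r₀) (Fin r₀) ℂ} (hC₀ : C₀.det ≠ 0) {y : ℕ → Fin m → Mn n ℂ}
    (hy : ∀ k j, (y k j).det ≠ 0) (δ : DD) :
    ld (fun k => Tot C₀ (y k)) δ = Tot (ld (fun _ => C₀) δ) fun j => ld (fun k => y k j) δ := by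
  have h1 : gm (fun k => Tot C₀ (y k)) = Tot (gm fun _ => C₀) fun j => gm fun k => y k j := gm_Tot (fun _ => C₀) y
  rw [ld_apply, h1, dm_Tot, Tot_inv2 (gm_unit fun _ => hC₀) fun j => gm_unit fun k => hy k j, Tot_mul']
  rfl

/-- **the Lie algebra of a sequence of torsors** -/
theorem Sq.nm {J : Mn n ℂ} {Cs : ℕ → Mn n ℂ} {z : ℕ → Fin N → Mn n ℂ} (h : Sq J Cs z)
    {C₀ : Matrix (Fin r₀) (Fin r₀) ℂ} (hC₀ : C₀.det ≠ 0) {e : Fin m → Fin N} (he : Function.Injective e)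
    {K : ℕ → Subfield ℂ} {d : ℕ} (hK : ∀ k, FiniteDimensional ℚ (K k)) (hD : ∀ k, finrank ℚ (K k) ≤ d)
    {T : ℕ → Set (Matrix (Ix r₀ n m) (Ix r₀ n m) ℂ)} (hT : ∀ k, IsSubtorsor (K k) (T k))
    (hcT : ∀ k, Tot C₀ (fun j => Cs k * z k (e j)) ∈ T k)
    (hTN : ∀ k j, TN (Pj J (Lm (T k)) j)) (hne : ∀ k j, Pj J (Lm (T k)) j ≠ ⊥) :
    Nm (h.D C₀) e (Lst fun k => LL (T k)) where
  inj := he
  br := Lst_br hT fun k => ⟨_, hcT k⟩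
  nrm d w hw := by
    have h3 := normL hK hD hT hcT (d : DD) hw
    have h4 : dm (d : DD) (gm fun k => Tot C₀ fun j => Cs k * z k (e j)) * (gm fun k => Tot C₀ fun j => Cs k * z k (e j))⁻¹ =
        Tot ((h.D C₀).F₀ d) (fun j => (h.D C₀).Fc d + (h.D C₀).X (e j) d) := by
      have h5 := ld_Tot (C₀ := C₀) hC₀ (y := fun k j => Cs k * z k (e j)) (fun k j => by
        rw [Matrix.det_mul]
        exact mul_ne_zero (h.cu k) (h.zu k _)) (d : DD)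
      refine h5.trans ?_
      congr 1
      funext j
      exact ld_mul h.cu (fun k => h.zu k (e j)) _
    rw [h4] at h3
    exact h3
  tn j := TN_gm fun k => hTN k j
  ne j := ne_gm fun k => hne k j

/-- back to the components -/
theorem back {J : Mn n ℂ} {T : ℕ → Set (Matrix (Ix r₀ n m) (Ix r₀ n m) ℂ)}
    (h : ∀ i, ∀ Y ∈ spS (cu J), ib (r₀ := r₀) i Y ∈ Lst fun k => LL (T k)) :
    ∀ᶠ k in (hyperfilter ℕ : Filter ℕ), ∀ i, ∀ X ∈ spS J, ib (r₀ := r₀) i X ∈ Lm (T k) := by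
  classical
  rw [Filter.eventually_all]
  intro i
  by_contra hcon
  rw [← Ultrafilter.eventually_not] at hcon
  have h1 : ∀ k, ∃ X ∈ spS J, (¬ ∀ X ∈ spS J, ib (r₀ := r₀) i X ∈ Lm (T k)) → ib (r₀ := r₀) i X ∉ Lm (T k) := by
    intro k
    by_cases hk : ∀ X ∈ spS J, ib (r₀ := r₀) i X ∈ Lm (T k)
    · exact ⟨0, (spS J).zero_mem, fun h => absurd hk h⟩
    · have hk' := hk
      push Not at hk'
      obtain ⟨Y, h1, h2⟩ := hk'
      exact ⟨Y, h1, fun _ => h2⟩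
  choose X hX1 hX2 using h1
  have h3 : ib i (gm X) ∈ Lst fun k => LL (T k) := h i _ (gm_spS.2 (Filter.Eventually.of_forall hX1))
  rw [← gm_ib] at h3
  have h5 := mem_Lst.1 h3
  obtain ⟨k, hk1, hk2⟩ := (h5.and hcon).exists
  exact hX2 k hk2 hk1

/-- the condition on the number of the constants -/
def FewG (b : ℕ) (Cs : ℕ → Mn n ℂ) (C₀ : Matrix (Fin r₀) (Fin r₀) ℂ) : Prop :=
  ∃ (V : Type) (_ : AddCommGroup V) (_ : Module (U ℂ) V) (_ : FiniteDimensional (U ℂ) V) (Φ : DD →ₗ[U ℂ] V),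
    finrank (U ℂ) V < b ∧ ∀ δ, Φ δ = 0 → ∃ z : U ℂ, ld (fun _ => C₀) δ = z • 1 ∧ ld Cs δ = z • 1

/-- **The first core theorem** -/
theorem Sq.core1 {J : Mn n ℂ} (hJ : Jᵀ = -J) (hdet : IsUnit J.det) {Cs : ℕ → Mn n ℂ} {z : ℕ → Fin N → Mn n ℂ} (h : Sq J Cs z)
    {C₀ : Matrix (Fin r₀) (Fin r₀) ℂ} (hC₀ : C₀.det ≠ 0)
    {K : ℕ → Subfield ℂ} {d : ℕ} (hK : ∀ k, FiniteDimensional ℚ (K k)) (hD : ∀ k, finrank ℚ (K k) ≤ d)
    {T : ℕ → Set (Matrix (Ix r₀ n N) (Ix r₀ n N) ℂ)} (hT : ∀ k, IsSubtorsor (K k) (T k))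
    (hcT : ∀ k, Tot C₀ (fun j => Cs k * z k j) ∈ T k)
    (hTN : ∀ k j, TN (Pj J (Lm (T k)) j)) (hne : ∀ k j, Pj J (Lm (T k)) j ≠ ⊥)
    {𝔉 : Submodule (U ℂ) (Mn n (U ℂ))} (h𝔉 : 𝔉 ≤ spS (SL.cu J))
    (hF : ∀ δ : DD, ∃ c : U ℂ, ld Cs δ + c • (1 : Mn n (U ℂ)) ∈ 𝔉)
    (good : ∀ 𝔩 : Submodule (U ℂ) (Mn n (U ℂ)), 𝔩 ≤ spS (SL.cu J) → TN 𝔩 → (∀ X ∈ spS (SL.cu J), ∃ Z B, X = Z + B ∧
      Z ∈ spS (SL.cu J) ∧ B ∈ 𝔉 ∧ ∀ Y ∈ 𝔩, Z * Y - Y * Z ∈ 𝔩) → 𝔩 = ⊥ ∨ 𝔩 = spS (SL.cu J))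
    (hfew : FewG (finrank (U ℂ) (spS (SL.cu J))) Cs C₀) :
    ∀ᶠ k in (hyperfilter ℕ : Filter ℕ), ∀ i, ∀ X ∈ spS J, ib (r₀ := r₀) i X ∈ Lm (T k) := by
  have hn := h.nm hC₀ (e := fun i => i) (fun _ _ h => h) hK hD hT hcT hTN hne
  obtain ⟨V, _, _, _, Φ, hV, hΦ⟩ := hfew
  exact back fun i => hn.core1 (cu_skew hJ) (cu_unit hdet) h𝔉 (fun d => hF d) good (Φ ∘ₗ (Ds J Cs z).subtype) hV
    (fun d hd => hΦ d hd) i

/-- **The second core theorem** -/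
theorem Sq.core2 {J : Mn n ℂ} (hJ : Jᵀ = -J) (hdet : IsUnit J.det) (hn : 3 ≤ n) {Cs : ℕ → Mn n ℂ}
    {z : ℕ → Fin N → Mn n ℂ} (h : Sq J Cs z) {C₀ : Matrix (Fin r₀) (Fin r₀) ℂ} (hC₀ : C₀.det ≠ 0) {ι : Type} (x₀ : ι)
    {e : ι → Fin m → Fin N} (he : ∀ x, Function.Injective (e x))
    {K : ι → ℕ → Subfield ℂ} {d : ℕ} (hK : ∀ x k, FiniteDimensional ℚ (K x k)) (hD : ∀ x k, finrank ℚ (K x k) ≤ d)
    {T : ι → ℕ → Set (Matrix (Ix r₀ n m) (Ix r₀ n m) ℂ)} (hT : ∀ x k, IsSubtorsor (K x k) (T x k))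
    (hcT : ∀ x k, Tot C₀ (fun i => Cs k * z k (e x i)) ∈ T x k)
    (hTN : ∀ x k i, TN (Pj J (Lm (T x k)) i)) (hne : ∀ x k i, Pj J (Lm (T x k)) i ≠ ⊥)
    (hfew : FewG (finrank (U ℂ) (spS (SL.cu J)) + (n - 1)) Cs C₀)
    (hbad : ∀ x, ¬ ∀ᶠ k in (hyperfilter ℕ : Filter ℕ), ∀ i, ∀ X ∈ spS J, ib (r₀ := r₀) i X ∈ Lm (T x k)) :
    ∃ p, ∀ x, ∃ j, e x j = p := by
  obtain ⟨V, _, _, _, Φ, hV, hΦ⟩ := hfew
  exact G.core2 (cu_skew hJ) (cu_unit hdet) hn (h.D C₀) (Φ ∘ₗ (Ds J Cs z).subtype) hV (fun d hd => hΦ d hd) x₀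
    (L := fun x => Lst fun k => LL (T x k))
    (fun x => h.nm hC₀ (he x) (hK x) (hD x) (hT x) (hcT x) (hTN x) (hne x)) fun x hx => hbad x (back hx)

end Pool.Agent.H936.G
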